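import Mathlib

set_option autoImplicit false

/-! Arithmetic progressions of heights: for almost every spacing the characters `(m/n)^(it)` have small mean values. -/

namespace Pool.Agent.R461.HM

open Complex Filter Topology MeasureTheory Set
open scoped ENNReal

noncomputable section

/-- geometric sums -/
lemma geom_bound (J : ℕ) (c x : ℝ) (hx : Real.sin (x / 2) ≠ 0) :
    ‖∑ j ∈ Finset.range J, exp (I * ((c + j * x : ℝ) : ℂ))‖ ≤ 1 / |Real.sin (x / 2)| := by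
  have h1 : ∀ j : ℕ, exp (I * ((c + j * x : ℝ) : ℂ)) = exp (I * c) * exp (I * x) ^ j := by
    intro j
    rw [← Complex.exp_nat_mul, ← Complex.exp_add]
    congr 1
    push_cast; ring
  simp only [h1]
  rw [← Finset.mul_sum, norm_mul]
  have h2 : ‖exp (I * (c:ℂ))‖ = 1 := by rw [mul_comm, Complex.norm_exp_ofReal_mul_I]
  rw [h2, one_mul]
  have h3 : ‖exp (I * (x:ℂ)) - 1‖ = 2 * |Real.sin (x / 2)| := by
    rw [Complex.norm_exp_I_mul_ofReal_sub_one, norm_mul, Real.norm_eq_abs, Real.norm_eq_abs, abs_two]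
  have hpos : 0 < |Real.sin (x / 2)| := abs_pos.2 hx
  have h4 : exp (I * (x:ℂ)) ≠ 1 := by
    intro h
    rw [h, sub_self, norm_zero] at h3
    linarith
  rw [geom_sum_eq h4, norm_div, h3]
  have h5 : ‖exp (I * (x:ℂ)) ^ J - 1‖ ≤ 2 := by
    refine (norm_sub_le _ _).trans ?_
    rw [norm_pow, norm_one]
    have : ‖exp (I * (x:ℂ))‖ = 1 := by rw [mul_comm, Complex.norm_exp_ofReal_mul_I]
    rw [this, one_pow]; norm_num
  rw [div_le_div_iff₀ (by positivity) hpos]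
  nlinarith

/-- the `h ∈ [0, b]` at which `sin (λ h / 2)` is small -/
def bad (b lam σ : ℝ) : Set ℝ := {h | h ∈ Icc 0 b ∧ |Real.sin (lam * h / 2)| < σ}

lemma bad_vol {b lam σ : ℝ} (hb : 0 ≤ b) (hl : 0 < lam) (hσ : 0 ≤ σ) :
    volume (bad b lam σ) ≤ ENNReal.ofReal (2 * Real.pi * σ * (b + 2 / lam)) := by
  have hpi := Real.pi_pos
  set R : ℕ := ⌊lam * b⌋₊ + 2 with hR
  have hRle : (R : ℝ) ≤ lam * b + 2 := by
    rw [hR]; push_cast
    have := Nat.floor_le (show 0 ≤ lam * b by positivity)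
    linarith
  have hsub : bad b lam σ ⊆ ⋃ r ∈ Finset.range R, Metric.closedBall (2 * Real.pi * r / lam) (Real.pi * σ / lam) := by
    rintro h ⟨⟨h0, hb'⟩, hs⟩
    set z : ℤ := round (lam * h / (2 * Real.pi)) with hz
    have h1 : |lam * h / (2 * Real.pi) - z| ≤ 1 / 2 := abs_sub_round _
    have hq0 : 0 ≤ lam * h / (2 * Real.pi) := by positivity
    have hz0 : 0 ≤ z := by
      rw [hz]
      rw [round_eq]
      exact Int.floor_nonneg.2 (by linarith)
    obtain ⟨r, hr⟩ := Int.eq_ofNat_of_zero_le hz0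
    rw [hr] at h1
    have h1' : |lam * h / (2 * Real.pi) - (r:ℝ)| ≤ 1 / 2 := by exact_mod_cast h1
    have h2 : |lam * h / 2 - r * Real.pi| ≤ Real.pi / 2 := by
      have e : lam * h / 2 - r * Real.pi = Real.pi * (lam * h / (2 * Real.pi) - r) := by field_simp
      rw [e, abs_mul, abs_of_pos hpi]
      nlinarith
    have h3 := Real.mul_abs_le_abs_sin h2
    have h4 : |Real.sin (lam * h / 2 - r * Real.pi)| = |Real.sin (lam * h / 2)| := by
      rw [Real.sin_sub_nat_mul_pi, abs_mul, abs_pow, abs_neg, abs_one, one_pow, one_mul]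
    rw [h4] at h3
    have h5 : |lam * h / 2 - r * Real.pi| ≤ Real.pi / 2 * σ := by
      have h6 : 2 / Real.pi * |lam * h / 2 - r * Real.pi| ≤ σ := h3.trans hs.le
      rw [div_mul_eq_mul_div, div_le_iff₀ hpi] at h6
      linarith
    simp only [mem_iUnion, Finset.mem_range, Metric.mem_closedBall, exists_prop]
    refine ⟨r, ?_, ?_⟩
    · have h7 := (abs_le.1 h1').1
      have h8 : (r:ℝ) ≤ lam * h / (2 * Real.pi) + 1 / 2 := by linarith [(abs_le.1 h1').1]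
      have h9 : lam * h / (2 * Real.pi) ≤ lam * b := by
        rw [div_le_iff₀ (by positivity)]
        have h10 : lam * h ≤ lam * b := by gcongr
        have h11 : 1 ≤ 2 * Real.pi := by linarith [Real.pi_gt_three]
        have h12 : 0 ≤ lam * b := by positivity
        nlinarith
      have h13 : (r:ℝ) < ⌊lam * b⌋₊ + 2 := by
        have := Nat.lt_floor_add_one (lam * b)
        linarith
      rw [hR]
      exact_mod_cast h13
    · rw [Real.dist_eq]
      have e : h - 2 * Real.pi * r / lam = 2 / lam * (lam * h / 2 - r * Real.pi) := by field_simp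
      rw [e, abs_mul, abs_of_pos (by positivity)]
      calc 2 / lam * |lam * h / 2 - r * Real.pi| ≤ 2 / lam * (Real.pi / 2 * σ) := by gcongr
        _ = Real.pi * σ / lam := by field_simp
  refine (measure_mono hsub).trans ((measure_biUnion_finset_le _ _).trans ?_)
  simp only [Real.volume_closedBall, Finset.sum_const, Finset.card_range, nsmul_eq_mul]
  rw [← ENNReal.ofReal_natCast, ← ENNReal.ofReal_mul (by positivity)]
  refine ENNReal.ofReal_le_ofReal ?_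
  calc (R:ℝ) * (2 * (Real.pi * σ / lam)) ≤ (lam * b + 2) * (2 * (Real.pi * σ / lam)) := by gcongr
    _ = _ := by field_simp

/-- distinct integers up to `X` have logarithms at distance at least `1/X` -/
lemma log_gap {m n X : ℕ} (hm : 1 ≤ m) (hmn : n < m) (hn : 1 ≤ n) (hX : m ≤ X) :
    1 / (X:ℝ) ≤ Real.log ((m:ℝ) / n) := by
  have hm0 : (0:ℝ) < m := by exact_mod_cast hm
  have hn0 : (0:ℝ) < n := by exact_mod_cast hn
  have h1 := Real.log_le_sub_one_of_pos (div_pos hn0 hm0)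
  have h2 : Real.log ((n:ℝ) / m) = -Real.log ((m:ℝ) / n) := by
    rw [← Real.log_inv, inv_div]
  rw [h2] at h1
  have h3 : (n:ℝ) + 1 ≤ m := by exact_mod_cast hmn
  have h4 : (n:ℝ) / m - 1 ≤ -(1 / m) := by
    rw [div_sub_one hm0.ne', ← neg_div, div_le_div_iff_of_pos_right hm0]
    linarith
  have h5 : 1 / (X:ℝ) ≤ 1 / m := by
    apply one_div_le_one_div_of_le hm0
    exact_mod_cast hX
  linarith

/-- the exceptional spacings at level `X` -/
def Bad (b : ℝ) (X : ℕ) : Set ℝ :=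
  ⋃ p ∈ (Finset.Icc 1 X ×ˢ Finset.Icc 1 X).filter (fun p : ℕ × ℕ => p.2 < p.1), bad b (Real.log ((p.1:ℝ) / p.2)) (((X:ℝ) ^ 6)⁻¹)

lemma Bad_vol {b : ℝ} (hb : 0 ≤ b) {X : ℕ} (hX : 1 ≤ X) :
    volume (Bad b X) ≤ ENNReal.ofReal (2 * Real.pi * (b + 2) * ((X:ℝ) ^ 3)⁻¹) := by
  have hX0 : (0:ℝ) < X := by exact_mod_cast hX
  have hX1 : (1:ℝ) ≤ X := by exact_mod_cast hX
  have hpi := Real.pi_pos
  unfold Bad
  refine (measure_biUnion_finset_le _ _).trans ?_
  have h1 : ∀ p ∈ (Finset.Icc 1 X ×ˢ Finset.Icc 1 X).filter (fun p : ℕ × ℕ => p.2 < p.1),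
      volume (bad b (Real.log ((p.1:ℝ) / p.2)) (((X:ℝ) ^ 6)⁻¹)) ≤ ENNReal.ofReal (2 * Real.pi * (b + 2) * ((X:ℝ) ^ 5)⁻¹) := by
    intro p hp
    rw [Finset.mem_filter, Finset.mem_product, Finset.mem_Icc, Finset.mem_Icc] at hp
    have h2 := log_gap hp.1.1.1 hp.2 hp.1.2.1 hp.1.1.2
    have h3 : 0 < Real.log ((p.1:ℝ) / p.2) := lt_of_lt_of_le (by positivity) h2
    refine (bad_vol hb h3 (by positivity)).trans (ENNReal.ofReal_le_ofReal ?_)
    have h4 : 2 / Real.log ((p.1:ℝ) / p.2) ≤ 2 * X := by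
      rw [div_le_iff₀ h3]
      rw [div_le_iff₀ hX0] at h2
      linarith
    calc 2 * Real.pi * ((X:ℝ) ^ 6)⁻¹ * (b + 2 / Real.log ((p.1:ℝ) / p.2)) ≤ 2 * Real.pi * ((X:ℝ) ^ 6)⁻¹ * (b * X + 2 * X) := by
          gcongr
          nlinarith
      _ = _ := by field_simp
  refine (Finset.sum_le_sum h1).trans ?_
  rw [Finset.sum_const, nsmul_eq_mul, ← ENNReal.ofReal_natCast, ← ENNReal.ofReal_mul (by positivity)]
  refine ENNReal.ofReal_le_ofReal ?_
  have hcard : ((((Finset.Icc 1 X ×ˢ Finset.Icc 1 X).filter (fun p : ℕ × ℕ => p.2 < p.1)).card : ℕ) : ℝ) ≤ (X:ℝ) ^ 2 := by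
    have h5 : ((Finset.Icc 1 X ×ˢ Finset.Icc 1 X).filter (fun p : ℕ × ℕ => p.2 < p.1)).card ≤ X ^ 2 := by
      refine (Finset.card_filter_le _ _).trans ?_
      rw [Finset.card_product, Nat.card_Icc, Nat.add_sub_cancel, sq]
    exact_mod_cast h5
  calc _ ≤ (X:ℝ) ^ 2 * (2 * Real.pi * (b + 2) * ((X:ℝ) ^ 5)⁻¹) := by gcongr
    _ = _ := by field_simp

/-- almost every spacing is good -/
theorem ae_good : ∀ᵐ h : ℝ, 0 < h → ∃ X₀ : ℕ, ∀ X : ℕ, X₀ ≤ X → ∀ m n : ℕ, 1 ≤ m → 1 ≤ n → m ≠ n → m ≤ X → n ≤ X →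
    ((X:ℝ) ^ 6)⁻¹ ≤ |Real.sin (Real.log ((m:ℝ) / n) * h / 2)| := by
  have h1 : ∀ B : ℕ, ∀ᵐ h : ℝ, ∀ᶠ X : ℕ in atTop, h ∉ Bad B (X + 1) := by
    intro B
    have hs : Summable fun X : ℕ => 2 * Real.pi * ((B:ℝ) + 2) * ((((X + 1 : ℕ) : ℝ)) ^ 3)⁻¹ := by
      refine Summable.mul_left _ ?_
      have := (summable_nat_add_iff 1).2 (Real.summable_nat_pow_inv.2 (show 1 < 3 by norm_num))
      exact this
    have hfin : ∑' X : ℕ, volume (Bad B (X + 1)) ≠ ∞ := by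
      have h2 : ∑' X : ℕ, volume (Bad B (X + 1)) ≤ ∑' X : ℕ, ENNReal.ofReal (2 * Real.pi * ((B:ℝ) + 2) * ((((X + 1 : ℕ) : ℝ)) ^ 3)⁻¹) :=
        ENNReal.tsum_le_tsum fun X => Bad_vol (Nat.cast_nonneg B) (by omega)
      refine ne_top_of_le_ne_top ?_ h2
      rw [← ENNReal.ofReal_tsum_of_nonneg (fun X => by positivity) hs]
      exact ENNReal.ofReal_ne_top
    exact ae_eventually_notMem hfin
  have h2 := ae_all_iff.2 h1
  filter_upwards [h2] with h hh hpos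
  obtain ⟨B, hB⟩ := exists_nat_ge h
  obtain ⟨X₁, hX₁⟩ := eventually_atTop.1 (hh B)
  refine ⟨X₁ + 1, fun X hX m n hm hn hmn hmX hnX => ?_⟩
  have hX2 := hX₁ (X - 1) (by omega)
  rw [Nat.sub_add_cancel (by omega)] at hX2
  by_contra hcon
  push Not at hcon
  refine hX2 ?_
  unfold Bad
  simp only [mem_iUnion, exists_prop, Finset.mem_filter, Finset.mem_product, Finset.mem_Icc, Prod.exists]
  rcases lt_or_gt_of_ne hmn with hlt | hgt
  · refine ⟨n, m, ⟨⟨⟨hn, hnX⟩, ⟨hm, hmX⟩⟩, hlt⟩, ⟨hpos.le, hB⟩, ?_⟩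
    have e : Real.log ((n:ℝ) / m) * h / 2 = -(Real.log ((m:ℝ) / n) * h / 2) := by
      rw [← inv_div (m:ℝ) (n:ℝ), Real.log_inv]; ring
    rw [e, Real.sin_neg, abs_neg]
    exact hcon
  · exact ⟨m, n, ⟨⟨⟨hm, hmX⟩, ⟨hn, hnX⟩⟩, hgt⟩, ⟨hpos.le, hB⟩, hcon⟩

/-- the character sums over arithmetic progressions of heights with a good spacing -/
theorem ap_small {κ : ℝ} (hκ : 0 < κ) : ∀ᵐ h : ℝ, 0 < h → ∃ T₀ : ℝ, 1 ≤ T₀ ∧ ∀ T : ℝ, T₀ ≤ T → ∀ J : ℕ, T ^ κ ≤ J → ∀ x : ℝ,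
    ∀ m n : ℕ, 1 ≤ m → 1 ≤ n → m ≠ n → (m : ℝ) * n ≤ T ^ (2 * (κ / 20)) →
      ‖∑ j ∈ Finset.range J, exp (I * (((x + j * h : ℝ) : ℂ) * Real.log (m / n)))‖ ≤
        J * (T ^ (-(κ / 10)) * (1 + 1 / |Real.log (m / n)|)) := by
  filter_upwards [ae_good] with h hh hpos
  obtain ⟨X₀, hX₀⟩ := hh hpos
  have ht1 := tendsto_rpow_atTop (y := κ / 10) (by positivity)
  have ht2 := tendsto_rpow_atTop (y := κ / 5) (by positivity)
  obtain ⟨T₁, hT₁⟩ := eventually_atTop.1 ((ht1.eventually_ge_atTop (X₀:ℝ)).and (ht2.eventually_ge_atTop 64))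
  refine ⟨max 1 T₁, le_max_left _ _, fun T hT J hJ x m n hm hn hmn hY => ?_⟩
  have hT1 : 1 ≤ T := (le_max_left _ _).trans hT
  have hT0 : 0 < T := by linarith
  obtain ⟨a1, a2⟩ := hT₁ T ((le_max_right _ _).trans hT)
  have e0 : 2 * (κ / 20) = κ / 10 := by ring
  rw [e0] at hY
  have hm1 : (1:ℝ) ≤ m := by exact_mod_cast hm
  have hn1 : (1:ℝ) ≤ n := by exact_mod_cast hn
  set X : ℕ := ⌈T ^ (κ / 10)⌉₊ with hX
  have hXle : (X:ℝ) ≤ 2 * T ^ (κ / 10) := by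
    have h1 := Nat.ceil_lt_add_one (show 0 ≤ T ^ (κ / 10) by positivity)
    have h2 : 1 ≤ T ^ (κ / 10) := Real.one_le_rpow hT1 (by positivity)
    rw [← hX] at h1
    linarith
  have hXX : X₀ ≤ X := by
    have : (X₀:ℝ) ≤ X := a1.trans (Nat.le_ceil _)
    exact_mod_cast this
  have hmX : m ≤ X := by
    have : (m:ℝ) ≤ X := by
      refine le_trans ?_ ((hY).trans (Nat.le_ceil _))
      nlinarith
    exact_mod_cast this
  have hnX : n ≤ X := by
    have : (n:ℝ) ≤ X := by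
      refine le_trans ?_ ((hY).trans (Nat.le_ceil _))
      nlinarith
    exact_mod_cast this
  have hsin := hX₀ X hXX m n hm hn hmn hmX hnX
  have hXpos : (0:ℝ) < X := by
    have : 1 ≤ X := hm.trans hmX
    exact_mod_cast this
  set lam := Real.log ((m:ℝ) / n) with hlam
  have hsp : 0 < |Real.sin (lam * h / 2)| := lt_of_lt_of_le (by positivity) hsin
  have hg := geom_bound J (x * lam) (lam * h) (abs_pos.1 hsp)
  have e1 : (∑ j ∈ Finset.range J, exp (I * (((x + j * h : ℝ) : ℂ) * lam))) =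
      ∑ j ∈ Finset.range J, exp (I * ((x * lam + j * (lam * h) : ℝ) : ℂ)) := by
    refine Finset.sum_congr rfl fun j _ => ?_
    congr 1
    push_cast; ring
  rw [e1]
  refine hg.trans ?_
  have h3 : 1 / |Real.sin (lam * h / 2)| ≤ (X:ℝ) ^ 6 := by
    rw [div_le_iff₀ hsp]
    have := mul_le_mul_of_nonneg_left hsin (show (0:ℝ) ≤ (X:ℝ) ^ 6 by positivity)
    rwa [mul_inv_cancel₀ (by positivity)] at this
  have h4 : (X:ℝ) ^ 6 ≤ 64 * T ^ (6 * (κ / 10)) := by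
    calc (X:ℝ) ^ 6 ≤ (2 * T ^ (κ / 10)) ^ 6 := by gcongr
      _ = 64 * T ^ (6 * (κ / 10)) := by
          rw [mul_pow, ← Real.rpow_natCast (T ^ (κ / 10)) 6, ← Real.rpow_mul hT0.le]
          norm_num
          congr 1; ring
  have h5 : 64 * T ^ (6 * (κ / 10)) ≤ J * T ^ (-(κ / 10)) := by
    have h6 : 64 * T ^ (6 * (κ / 10)) ≤ T ^ κ * T ^ (-(κ / 10)) := by
      calc 64 * T ^ (6 * (κ / 10)) ≤ T ^ (κ / 5) * T ^ (6 * (κ / 10)) := by gcongr
        _ = T ^ (4 / 5 * κ) := by rw [← Real.rpow_add hT0]; congr 1; ring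
        _ ≤ T ^ (9 / 10 * κ) := Real.rpow_le_rpow_of_exponent_le hT1 (by linarith)
        _ = _ := by rw [← Real.rpow_add hT0]; congr 1; ring
    refine h6.trans ?_
    gcongr
  have h7 : (J:ℝ) * T ^ (-(κ / 10)) ≤ J * (T ^ (-(κ / 10)) * (1 + 1 / |lam|)) := by
    have h8 : 0 ≤ 1 / |lam| := by positivity
    have h9 : 0 ≤ (J:ℝ) * T ^ (-(κ / 10)) := by positivity
    nlinarith
  linarith

end

end Pool.Agent.R461.HM
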