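import Pool.Agent.R461.HM.AP

set_option autoImplicit false

/-! Dilates of separated sequences: for almost every dilation the characters `(m/n)^(it)` have small mean values. -/

namespace Pool.Agent.R461.HM

open Complex Filter Topology MeasureTheory Set
open scoped ENNReal

noncomputable section

/-- the exponential sum -/
def ES (A : Finset ℝ) (lam h : ℝ) : ℂ := ∑ a ∈ A, exp (I * (((h * a : ℝ) : ℂ) * lam))

lemma ES_cont (A : Finset ℝ) (lam : ℝ) : Continuous (ES A lam) := by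
  unfold ES
  fun_prop

lemma int_exp_le {b mu : ℝ} (hmu : mu ≠ 0) : ‖∫ h in (0:ℝ)..b, exp ((mu * I) * h)‖ ≤ 2 / |mu| := by
  have hc : (mu : ℂ) * I ≠ 0 := mul_ne_zero (by exact_mod_cast hmu) I_ne_zero
  rw [integral_exp_mul_complex hc, norm_div, norm_mul, Complex.norm_I, mul_one, Complex.norm_real, Real.norm_eq_abs]
  have h1 : ∀ x : ℝ, ‖exp ((mu * I) * x)‖ = 1 := by
    intro x
    have : (mu * I) * (x:ℂ) = ((mu * x : ℝ) : ℂ) * I := by push_cast; ring
    rw [this, Complex.norm_exp_ofReal_mul_I]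
  have h2 : ‖exp (mu * I * (b:ℂ)) - exp (mu * I * ((0:ℝ):ℂ))‖ ≤ 2 := by
    refine (norm_sub_le _ _).trans ?_
    rw [h1, h1]; norm_num
  have : 0 < |mu| := abs_pos.2 hmu
  gcongr

lemma harm_le (D : ℕ) : ∑ d ∈ Finset.Icc 1 D, 1 / (d:ℝ) ≤ 1 + Real.log D := by
  have h1 : ((harmonic D : ℚ) : ℝ) ≤ 1 + Real.log D := harmonic_le_one_add_log D
  refine le_trans (le_of_eq ?_) h1
  rw [harmonic_eq_sum_Icc]
  push_cast
  exact Finset.sum_congr rfl fun d _ => by rw [one_div]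

/-- the sum of the reciprocal distances -/
lemma recip_le {A : Finset ℝ} (hA : ∀ a ∈ A, ∀ a' ∈ A, a ≠ a' → 1 ≤ |a - a'|) {X : ℝ} (hX : 1 ≤ X)
    (hX' : ∀ a ∈ A, a ∈ Icc X (2 * X)) {a : ℝ} (ha : a ∈ A) :
    ∑ a' ∈ A.erase a, 1 / |a - a'| ≤ 2 * (1 + Real.log X) := by
  have hlogD : 1 + Real.log (⌊X⌋₊ : ℝ) ≤ 1 + Real.log X := by
    have h1 : (1:ℝ) ≤ ⌊X⌋₊ := by
      have : 1 ≤ ⌊X⌋₊ := Nat.one_le_floor_iff _ |>.2 hX
      exact_mod_cast this
    have h2 : (⌊X⌋₊ : ℝ) ≤ X := Nat.floor_le (by linarith)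
    have := Real.log_le_log (by linarith) h2
    linarith
  have key : ∀ B : Finset ℝ, (∀ x ∈ B, ∀ y ∈ B, x ≠ y → 1 ≤ |x - y|) → (∀ x ∈ B, 1 ≤ x ∧ x ≤ X) →
      ∑ x ∈ B, 1 / x ≤ 1 + Real.log X := by
    intro B hB1 hB2
    have hinj : Set.InjOn (fun x : ℝ => ⌊x⌋₊) (B : Set ℝ) := by
      intro x hx y hy hxy
      by_contra hne
      have h1 := hB1 x hx y hy hne
      have hx1 := hB2 x hx
      have hy1 := hB2 y hy
      have a1 := Nat.floor_le (show 0 ≤ x by linarith)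
      have a2 := Nat.lt_floor_add_one x
      have b1 := Nat.floor_le (show 0 ≤ y by linarith)
      have b2 := Nat.lt_floor_add_one y
      simp only at hxy
      rw [hxy] at a1 a2
      have : |x - y| < 1 := by
        rw [abs_lt]; constructor <;> linarith
      linarith
    calc ∑ x ∈ B, 1 / x ≤ ∑ x ∈ B, 1 / ((⌊x⌋₊ : ℕ) : ℝ) := by
          refine Finset.sum_le_sum fun x hx => ?_
          have hx1 := hB2 x hx
          have h1 : 1 ≤ ⌊x⌋₊ := Nat.one_le_floor_iff _ |>.2 hx1.1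
          have h2 : (0:ℝ) < ⌊x⌋₊ := by exact_mod_cast h1
          exact one_div_le_one_div_of_le h2 (Nat.floor_le (by linarith))
      _ = ∑ d ∈ B.image (fun x : ℝ => ⌊x⌋₊), 1 / (d : ℝ) := (Finset.sum_image (f := fun d : ℕ => 1 / (d:ℝ)) hinj).symm
      _ ≤ ∑ d ∈ Finset.Icc 1 ⌊X⌋₊, 1 / (d : ℝ) := by
          refine Finset.sum_le_sum_of_subset_of_nonneg ?_ fun d _ _ => by positivity
          intro d hd
          obtain ⟨x, hx, rfl⟩ := Finset.mem_image.1 hd
          have hx1 := hB2 x hx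
          exact Finset.mem_Icc.2 ⟨Nat.one_le_floor_iff _ |>.2 hx1.1, Nat.floor_mono hx1.2⟩
      _ ≤ 1 + Real.log (⌊X⌋₊ : ℝ) := harm_le _
      _ ≤ _ := hlogD
  have hsplit : ∑ a' ∈ A.erase a, 1 / |a - a'| = ∑ a' ∈ (A.erase a).filter (fun a' => a' < a), 1 / |a - a'| +
      ∑ a' ∈ (A.erase a).filter (fun a' => ¬ a' < a), 1 / |a - a'| := (Finset.sum_filter_add_sum_filter_not _ _ _).symm
  have haX := hX' a ha
  have h1 : ∑ a' ∈ (A.erase a).filter (fun a' => a' < a), 1 / |a - a'| ≤ 1 + Real.log X := by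
    have e : ∑ a' ∈ (A.erase a).filter (fun a' => a' < a), 1 / |a - a'| =
        ∑ x ∈ ((A.erase a).filter (fun a' => a' < a)).image (fun a' => a - a'), 1 / x := by
      rw [Finset.sum_image (fun x _ y _ hxy => by simpa using hxy)]
      refine Finset.sum_congr rfl fun x hx => ?_
      have := (Finset.mem_filter.1 hx).2
      rw [abs_of_pos (by linarith)]
    rw [e]
    refine key _ ?_ ?_
    · intro x hx y hy hxy
      obtain ⟨x', hx', rfl⟩ := Finset.mem_image.1 hx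
      obtain ⟨y', hy', rfl⟩ := Finset.mem_image.1 hy
      have hx2 := Finset.mem_of_mem_erase (Finset.mem_filter.1 hx').1
      have hy2 := Finset.mem_of_mem_erase (Finset.mem_filter.1 hy').1
      have := hA y' hy2 x' hx2 (fun h => hxy (by rw [h]))
      rwa [show a - x' - (a - y') = y' - x' by ring]
    · intro x hx
      obtain ⟨x', hx', rfl⟩ := Finset.mem_image.1 hx
      have hx3 := (Finset.mem_filter.1 hx')
      have hx2 := Finset.mem_of_mem_erase hx3.1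
      have h4 := hA a ha x' hx2 (ne_of_gt hx3.2)
      rw [abs_of_pos (by linarith [hx3.2])] at h4
      exact ⟨h4, by linarith [(hX' x' hx2).1, haX.2]⟩
  have h2 : ∑ a' ∈ (A.erase a).filter (fun a' => ¬ a' < a), 1 / |a - a'| ≤ 1 + Real.log X := by
    have hgt : ∀ a' ∈ (A.erase a).filter (fun a' => ¬ a' < a), a < a' := by
      intro a' h
      have h3 := Finset.mem_filter.1 h
      have h4 := Finset.ne_of_mem_erase h3.1
      exact lt_of_le_of_ne (not_lt.1 h3.2) (Ne.symm h4)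
    have e : ∑ a' ∈ (A.erase a).filter (fun a' => ¬ a' < a), 1 / |a - a'| =
        ∑ x ∈ ((A.erase a).filter (fun a' => ¬ a' < a)).image (fun a' => a' - a), 1 / x := by
      rw [Finset.sum_image (fun x _ y _ hxy => by simpa using hxy)]
      refine Finset.sum_congr rfl fun x hx => ?_
      have := hgt x hx
      rw [abs_of_neg (by linarith), neg_sub]
    rw [e]
    refine key _ ?_ ?_
    · intro x hx y hy hxy
      obtain ⟨x', hx', rfl⟩ := Finset.mem_image.1 hx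
      obtain ⟨y', hy', rfl⟩ := Finset.mem_image.1 hy
      have hx2 := Finset.mem_of_mem_erase (Finset.mem_filter.1 hx').1
      have hy2 := Finset.mem_of_mem_erase (Finset.mem_filter.1 hy').1
      have := hA x' hx2 y' hy2 (fun h => hxy (by rw [h]))
      rwa [show x' - a - (y' - a) = x' - y' by ring]
    · intro x hx
      obtain ⟨x', hx', rfl⟩ := Finset.mem_image.1 hx
      have hx3 := hgt x' hx'
      have hx2 := Finset.mem_of_mem_erase (Finset.mem_filter.1 hx').1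
      have h4 := hA a ha x' hx2 (ne_of_lt hx3)
      rw [abs_of_neg (by linarith), neg_sub] at h4
      exact ⟨h4, by linarith [(hX' x' hx2).2, haX.1]⟩
  rw [hsplit]
  linarith

/-- the mean square over the dilations -/
lemma ES_sq {A : Finset ℝ} (hA : ∀ a ∈ A, ∀ a' ∈ A, a ≠ a' → 1 ≤ |a - a'|) {X : ℝ} (hX : 1 ≤ X)
    (hX' : ∀ a ∈ A, a ∈ Icc X (2 * X)) {lam b : ℝ} (hlam : lam ≠ 0) (hb : 0 ≤ b) :
    ∫ h in (0:ℝ)..b, ‖ES A lam h‖ ^ 2 ≤ A.card * (b + 4 / |lam| * (1 + Real.log X)) := by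
  have h1 : ((∫ h in (0:ℝ)..b, ‖ES A lam h‖ ^ 2 : ℝ) : ℂ) = ∑ a ∈ A, ∑ a' ∈ A,
      ∫ h in (0:ℝ)..b, exp (((lam * (a - a') : ℝ) : ℂ) * I * h) := by
    rw [← intervalIntegral.integral_ofReal]
    have h2 : ∀ h : ℝ, ((‖ES A lam h‖ ^ 2 : ℝ) : ℂ) = ∑ a ∈ A, ∑ a' ∈ A, exp (((lam * (a - a') : ℝ) : ℂ) * I * h) := by
      intro h
      have h3 : ((‖ES A lam h‖ ^ 2 : ℝ) : ℂ) = ES A lam h * (starRingEnd ℂ) (ES A lam h) := by
        rw [Complex.mul_conj, Complex.normSq_eq_norm_sq]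
      rw [h3]
      unfold ES
      rw [map_sum, Finset.sum_mul_sum]
      refine Finset.sum_congr rfl fun a _ => Finset.sum_congr rfl fun a' _ => ?_
      rw [← Complex.exp_conj, ← Complex.exp_add]
      congr 1
      simp only [map_mul, Complex.conj_I, Complex.conj_ofReal]
      push_cast
      ring
    simp only [h2]
    rw [intervalIntegral.integral_finset_sum]
    · refine Finset.sum_congr rfl fun a _ => ?_
      rw [intervalIntegral.integral_finset_sum]
      intro a' _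
      exact Continuous.intervalIntegrable (by fun_prop) _ _
    · intro a _
      exact Continuous.intervalIntegrable (by fun_prop) _ _
  have h0 : 0 ≤ ∫ h in (0:ℝ)..b, ‖ES A lam h‖ ^ 2 := intervalIntegral.integral_nonneg hb fun h _ => by positivity
  have h2 : (∫ h in (0:ℝ)..b, ‖ES A lam h‖ ^ 2) = ‖((∫ h in (0:ℝ)..b, ‖ES A lam h‖ ^ 2 : ℝ) : ℂ)‖ := by
    rw [Complex.norm_real, Real.norm_of_nonneg h0]
  rw [h2, h1]
  refine (norm_sum_le _ _).trans ?_
  have hl : 0 < |lam| := abs_pos.2 hlam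
  have h3 : ∀ a ∈ A, ‖∑ a' ∈ A, ∫ h in (0:ℝ)..b, exp (((lam * (a - a') : ℝ) : ℂ) * I * h)‖ ≤
      b + 4 / |lam| * (1 + Real.log X) := by
    intro a ha
    rw [← Finset.add_sum_erase A _ ha]
    refine (norm_add_le _ _).trans ?_
    have h4 : ‖∫ h in (0:ℝ)..b, exp (((lam * (a - a) : ℝ) : ℂ) * I * h)‖ = b := by
      simp [abs_of_nonneg hb]
    have h5 : ‖∑ a' ∈ A.erase a, ∫ h in (0:ℝ)..b, exp (((lam * (a - a') : ℝ) : ℂ) * I * h)‖ ≤
        4 / |lam| * (1 + Real.log X) := by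
      calc _ ≤ ∑ a' ∈ A.erase a, ‖∫ h in (0:ℝ)..b, exp (((lam * (a - a') : ℝ) : ℂ) * I * h)‖ := norm_sum_le _ _
        _ ≤ ∑ a' ∈ A.erase a, 2 / |lam| * (1 / |a - a'|) := by
            refine Finset.sum_le_sum fun a' ha' => ?_
            have h6 : a ≠ a' := (Finset.ne_of_mem_erase ha').symm
            refine (int_exp_le (mul_ne_zero hlam (sub_ne_zero.2 h6))).trans (le_of_eq ?_)
            rw [abs_mul]
            have : 0 < |a - a'| := abs_pos.2 (sub_ne_zero.2 h6)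
            field_simp
        _ = 2 / |lam| * ∑ a' ∈ A.erase a, 1 / |a - a'| := (Finset.mul_sum _ _ _).symm
        _ ≤ 2 / |lam| * (2 * (1 + Real.log X)) := by
            gcongr
            exact recip_le hA hX hX' ha
        _ = _ := by ring
    rw [h4]
    linarith
  refine (Finset.sum_le_card_nsmul _ _ _ h3).trans (le_of_eq ?_)
  rw [nsmul_eq_mul]

/-- the exceptional dilations for a pair -/
lemma ES_vol {A : Finset ℝ} (hA : ∀ a ∈ A, ∀ a' ∈ A, a ≠ a' → 1 ≤ |a - a'|) {X : ℝ} (hX : 1 ≤ X)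
    (hX' : ∀ a ∈ A, a ∈ Icc X (2 * X)) {lam b : ℝ} (hlam : lam ≠ 0) (hb : 0 ≤ b) {η : ℝ} (hη : 0 < η) :
    volume {h | h ∈ Ioc 0 b ∧ η ≤ ‖ES A lam h‖} ≤
      ENNReal.ofReal ((A.card * (b + 4 / |lam| * (1 + Real.log X))) / η ^ 2) := by
  have h1 := ES_sq hA hX hX' hlam hb
  rw [intervalIntegral.integral_of_le hb] at h1
  have hint : Integrable (fun h : ℝ => ‖ES A lam h‖ ^ 2) (volume.restrict (Ioc 0 b)) := by
    have hc : Continuous fun h : ℝ => ‖ES A lam h‖ ^ 2 := (ES_cont A lam).norm.pow 2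
    exact (hc.integrableOn_Icc (a := 0) (b := b)).mono_set Ioc_subset_Icc_self
  have h2 := mul_meas_ge_le_integral_of_nonneg (μ := volume.restrict (Ioc 0 b)) (f := fun h : ℝ => ‖ES A lam h‖ ^ 2)
    (Eventually.of_forall fun h => by positivity) hint (η ^ 2)
  have h3 : {h | h ∈ Ioc 0 b ∧ η ≤ ‖ES A lam h‖} = {h | η ^ 2 ≤ ‖ES A lam h‖ ^ 2} ∩ Ioc 0 b := by
    ext h
    simp only [mem_setOf_eq, mem_inter_iff]
    rw [and_comm, sq_le_sq₀ hη.le (norm_nonneg _)]
  have hm : MeasurableSet {h : ℝ | η ^ 2 ≤ ‖ES A lam h‖ ^ 2} :=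
    measurableSet_le measurable_const ((ES_cont A lam).norm.pow 2).measurable
  have h4 : volume {h | h ∈ Ioc 0 b ∧ η ≤ ‖ES A lam h‖} = volume.restrict (Ioc 0 b) {h : ℝ | η ^ 2 ≤ ‖ES A lam h‖ ^ 2} := by
    rw [h3, Measure.restrict_apply hm]
  rw [h4]
  have hfin : volume.restrict (Ioc 0 b) {h : ℝ | η ^ 2 ≤ ‖ES A lam h‖ ^ 2} ≠ ⊤ := measure_ne_top _ _
  rw [← ENNReal.ofReal_toReal hfin]
  refine ENNReal.ofReal_le_ofReal ?_
  rw [le_div_iff₀ (by positivity)]
  have h5 : (volume.restrict (Ioc 0 b)).real {h : ℝ | η ^ 2 ≤ ‖ES A lam h‖ ^ 2} =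
      (volume.restrict (Ioc 0 b) {h : ℝ | η ^ 2 ≤ ‖ES A lam h‖ ^ 2}).toReal := rfl
  rw [h5] at h2
  linarith

end

end Pool.Agent.R461.HM
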