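import Pool.Agent.R461.HM.Low

set_option autoImplicit false

/-! Finite sequences of heights. -/

namespace Pool.Agent.R461.HM

open Complex MeasureTheory Filter Topology Set
open scoped ENNReal

noncomputable section

/-- the weighted mean of `|ζ(1/2 + i(t + u))|^(2k)` over `u` at the scale `1 / log T` -/
def loc (k N : ℕ) (T t : ℝ) : ℝ≥0∞ :=
  ∫⁻ u : ℝ, ENNReal.ofReal (‖riemannZeta (1 / 2 + I * (t + u))‖ ^ (2 * k) * (Real.log T / (1 + Real.log T * |u|) ^ N))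

lemma loc_eq (k N : ℕ) (T t : ℝ) : loc k N T t = ∫⁻ u, ENNReal.ofReal (zz k (t + u) * wt N (Real.log T) u) := by
  unfold loc zz wt
  congr 1; funext u
  push_cast
  rfl

lemma loc_meas (k N : ℕ) {T : ℝ} (hL : 0 < Real.log T) : Measurable (loc k N T) := by
  have h : (loc k N T) = fun t => ∫⁻ u, ENNReal.ofReal (zz k (t + u) * wt N (Real.log T) u) :=
    funext (loc_eq k N T)
  rw [h]
  have hjoint : Continuous fun p : ℝ × ℝ => zz k (p.1 + p.2) * wt N (Real.log T) p.2 :=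
    ((zz_cont k).comp (by fun_prop : Continuous fun p : ℝ × ℝ => p.1 + p.2)).mul ((wt_cont N hL).comp continuous_snd)
  exact hjoint.measurable.ennreal_ofReal.lintegral_prod_right'

/-- the uniform distribution on a finite sequence -/
def unif (J : ℕ) (t : ℕ → ℝ) : Measure ℝ := ((J : ℝ≥0∞)⁻¹) • ∑ j ∈ Finset.range J, Measure.dirac (t j)

lemma integral_unif (J : ℕ) (t : ℕ → ℝ) (g : ℝ → ℂ) :
    ∫ x : ℝ, g x ∂(unif J t) = (J : ℂ)⁻¹ * ∑ j ∈ Finset.range J, g (t j) := by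
  unfold unif
  rw [integral_smul_measure, integral_finsetSum_measure]
  · simp only [integral_dirac]
    rw [ENNReal.toReal_inv, ENNReal.toReal_natCast, Complex.real_smul]
    push_cast
    rfl
  · intro j _
    exact integrable_dirac (by simp)

lemma unif_heights {T Y δ : ℝ} {J : ℕ} (hJ : 1 ≤ J) {t : ℕ → ℝ} (h1 : ∀ j < J, t j ∈ Icc T (2 * T))
    (h2 : ∀ m n : ℕ, 1 ≤ m → 1 ≤ n → m ≠ n → (m : ℝ) * n ≤ Y →
    ‖∑ j ∈ Finset.range J, exp (I * (t j * Real.log (m / n)))‖ ≤ J * (δ * (1 + 1 / |Real.log (m / n)|))) :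
    Heights T Y δ (unif J t) := by
  have hJ0 : (J : ℝ≥0∞) ≠ 0 := by exact_mod_cast (by omega : J ≠ 0)
  have hJr : (0:ℝ) < J := by exact_mod_cast hJ
  refine ⟨⟨?_⟩, ?_, fun m n hm hn hmn hY => ?_⟩
  · unfold unif
    rw [Measure.smul_apply, Measure.finsetSum_apply]
    simp only [measure_univ, Finset.sum_const, Finset.card_range, nsmul_eq_mul, mul_one, smul_eq_mul]
    exact ENNReal.inv_mul_cancel hJ0 (by simp)
  · unfold unif
    refine Measure.ae_smul_measure ?_ _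
    rw [ae_iff, Measure.finsetSum_apply]
    refine Finset.sum_eq_zero fun j hj => ?_
    rw [show {a : ℝ | a ∉ Icc T (2 * T)} = (Icc T (2 * T))ᶜ from rfl, Measure.dirac_apply' _ (measurableSet_Icc.compl)]
    simp only [indicator_apply_eq_zero]
    intro hmem
    exact absurd (h1 j (Finset.mem_range.1 hj)) hmem
  · rw [integral_unif, norm_mul, norm_inv, Complex.norm_natCast, inv_mul_le_iff₀ hJr]
    exact h2 m n hm hn hmn hY

lemma lintegral_unif (k N : ℕ) {T : ℝ} (hL : 0 < Real.log T) (J : ℕ) (t : ℕ → ℝ) :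
    ∫⁻ x, loc k N T x ∂(unif J t) = (J : ℝ≥0∞)⁻¹ * ∑ j ∈ Finset.range J, loc k N T (t j) := by
  unfold unif
  rw [lintegral_smul_measure, lintegral_finsetSum_measure]
  simp only [lintegral_dirac' _ (loc_meas k N hL), smul_eq_mul]

/-- the lower bound with `loc` -/
theorem lower' {k : ℕ} (hk : 1 ≤ k) (N : ℕ) {θ θ' : ℝ} (hθ : 0 < θ) (hθ' : θ < θ') :
    ∃ c T₀ : ℝ, 0 < c ∧ Real.exp 1 ≤ T₀ ∧ ∀ T : ℝ, T₀ ≤ T → ∀ ν : Measure ℝ, Heights T (T ^ (2 * θ)) (T ^ (-θ')) ν →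
      ENNReal.ofReal (c * Real.log T ^ (k ^ 2)) ≤ ∫⁻ t, loc k N T t ∂ν := by
  obtain ⟨c, T₀, hc, hT₀, h⟩ := lower hk N hθ hθ'
  refine ⟨c, T₀, hc, hT₀, fun T hT ν hν => ?_⟩
  simp only [loc_eq]
  exact h T hT ν hν

/-- the lower bound for finite sequences of heights -/
theorem lower_seq {k : ℕ} (hk : 1 ≤ k) (N : ℕ) {θ θ' : ℝ} (hθ : 0 < θ) (hθ' : θ < θ') :
    ∃ c T₀ : ℝ, 0 < c ∧ Real.exp 1 ≤ T₀ ∧ ∀ T : ℝ, T₀ ≤ T → ∀ (J : ℕ) (t : ℕ → ℝ), 1 ≤ J →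
      (∀ j < J, t j ∈ Icc T (2 * T)) → (∀ m n : ℕ, 1 ≤ m → 1 ≤ n → m ≠ n → (m : ℝ) * n ≤ T ^ (2 * θ) →
        ‖∑ j ∈ Finset.range J, exp (I * (t j * Real.log (m / n)))‖ ≤ J * (T ^ (-θ') * (1 + 1 / |Real.log (m / n)|))) →
      ENNReal.ofReal (c * Real.log T ^ (k ^ 2)) ≤ (J : ℝ≥0∞)⁻¹ * ∑ j ∈ Finset.range J, loc k N T (t j) := by
  obtain ⟨c, T₀, hc, hT₀, h⟩ := lower' hk N hθ hθ'
  refine ⟨c, T₀, hc, hT₀, fun T hT J t hJ h1 h2 => ?_⟩
  have hTe := hT₀.trans hT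
  have hT0 : 0 < T := (Real.exp_pos 1).trans_le hTe
  have hL : 1 ≤ Real.log T := by rwa [Real.le_log_iff_exp_le hT0]
  have h3 := h T hT _ (unif_heights hJ h1 h2)
  rwa [lintegral_unif k N (by linarith)] at h3

end

end Pool.Agent.R461.HM
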