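import Pool.Agent.R461.HM.Dil
import Pool.Agent.R461.HM.Seq

set_option autoImplicit false

/-! Dilates of separated sequences: Borel-Cantelli. -/

namespace Pool.Agent.R461.HM

open Complex Filter Topology MeasureTheory Set
open scoped ENNReal

noncomputable section

/-- blocks of `1`-separated reals in `[2^i, 2^(i+1)]` with at least `2^(κ i)` elements, `i ≥ i₀` -/
structure Blocks (κ : ℝ) (i₀ : ℕ) (A : ℕ → Finset ℝ) : Prop where
  mem : ∀ i, i₀ ≤ i → ∀ a ∈ A i, a ∈ Icc ((2:ℝ) ^ i) (2 * 2 ^ i)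
  sep : ∀ i, i₀ ≤ i → ∀ a ∈ A i, ∀ a' ∈ A i, a ≠ a' → 1 ≤ |a - a'|
  card : ∀ i, i₀ ≤ i → (2:ℝ) ^ (κ * i) ≤ (A i).card

/-- the size of the integers at level `i` -/
def MM (κ : ℝ) (i : ℕ) : ℕ := ⌈(2:ℝ) ^ (κ / 10 * i)⌉₊

/-- the exceptional dilations at level `i` -/
def BdS (κ b : ℝ) (A : ℕ → Finset ℝ) (i : ℕ) : Set ℝ :=
  ⋃ p ∈ (Finset.Icc 1 (MM κ i) ×ˢ Finset.Icc 1 (MM κ i)).filter (fun p : ℕ × ℕ => p.1 ≠ p.2),
    {h | h ∈ Ioc 0 b ∧ ((A i).card : ℝ) / MM κ i ≤ ‖ES (A i) (Real.log ((p.1:ℝ) / p.2)) h‖}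

lemma MM_bounds {κ : ℝ} (hκ : 0 < κ) (i : ℕ) : (2:ℝ) ^ (κ / 10 * i) ≤ MM κ i ∧ (MM κ i : ℝ) ≤ 2 * (2:ℝ) ^ (κ / 10 * i) ∧
    (1:ℝ) ≤ MM κ i := by
  have h1 : (1:ℝ) ≤ (2:ℝ) ^ (κ / 10 * i) := Real.one_le_rpow (by norm_num) (by positivity)
  have h2 := Nat.le_ceil ((2:ℝ) ^ (κ / 10 * i))
  have h3 := Nat.ceil_lt_add_one (show 0 ≤ (2:ℝ) ^ (κ / 10 * i) by positivity)
  unfold MM
  refine ⟨h2, by linarith, h1.trans h2⟩

lemma log_lower {m n X : ℕ} (hm : 1 ≤ m) (hn : 1 ≤ n) (hmn : m ≠ n) (hmX : m ≤ X) (hnX : n ≤ X) :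
    1 / (X:ℝ) ≤ |Real.log ((m:ℝ) / n)| := by
  rcases Nat.lt_or_gt_of_ne hmn with h3 | h3
  · have h4 := log_gap (m := n) (n := m) (X := X) hn h3 hm hnX
    have e3 : Real.log ((m:ℝ) / n) = -Real.log ((n:ℝ) / m) := by
      rw [← Real.log_inv, inv_div]
    rw [e3, abs_neg]
    exact h4.trans (le_abs_self _)
  · exact (log_gap (m := m) (n := n) (X := X) hm h3 hn hmX).trans (le_abs_self _)

lemma BdS_vol {κ b : ℝ} (hκ : 0 < κ) (hb : 0 ≤ b) {i₀ : ℕ} {A : ℕ → Finset ℝ} (hA : Blocks κ i₀ A) {i : ℕ} (hi : i₀ ≤ i) :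
    volume (BdS κ b A i) ≤ ENNReal.ofReal (32 * (b + 4) * ((1 + i) * ((2:ℝ) ^ (-(κ / 2))) ^ i)) := by
  obtain ⟨hM1, hM2, hM3⟩ := MM_bounds hκ i
  set M : ℕ := MM κ i with hM
  have hM0 : (0:ℝ) < M := by linarith
  have hcard := hA.card i hi
  have hcard0 : (0:ℝ) < (A i).card := lt_of_lt_of_le (by positivity) hcard
  have h2i : (1:ℝ) ≤ 2 ^ i := one_le_pow₀ (by norm_num)
  have hlog : 1 + Real.log ((2:ℝ) ^ i) ≤ 1 + i := by
    rw [Real.log_pow]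
    have h1 : Real.log 2 ≤ 1 := by linarith [Real.log_two_lt_d9]
    have : (i:ℝ) * Real.log 2 ≤ i * 1 := by gcongr
    linarith
  have hlog0 : 0 ≤ Real.log ((2:ℝ) ^ i) := Real.log_nonneg h2i
  have h1 : ∀ p ∈ (Finset.Icc 1 M ×ˢ Finset.Icc 1 M).filter (fun p : ℕ × ℕ => p.1 ≠ p.2),
      volume {h | h ∈ Ioc 0 b ∧ ((A i).card : ℝ) / M ≤ ‖ES (A i) (Real.log ((p.1:ℝ) / p.2)) h‖} ≤
        ENNReal.ofReal ((M:ℝ) ^ 3 * ((b + 4) * (1 + i)) / (A i).card) := by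
    intro p hp
    rw [Finset.mem_filter, Finset.mem_product, Finset.mem_Icc, Finset.mem_Icc] at hp
    have h2 := log_lower hp.1.1.1 hp.1.2.1 hp.2 hp.1.1.2 hp.1.2.2
    have h3 : 0 < |Real.log ((p.1:ℝ) / p.2)| := lt_of_lt_of_le (by positivity) h2
    refine (ES_vol (hA.sep i hi) h2i (hA.mem i hi) (abs_pos.1 h3) hb (by positivity)).trans (ENNReal.ofReal_le_ofReal ?_)
    have h4 : 4 / |Real.log ((p.1:ℝ) / p.2)| ≤ 4 * M := by
      rw [div_le_iff₀ h3]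
      rw [div_le_iff₀ hM0] at h2
      linarith
    have h5 : b + 4 / |Real.log ((p.1:ℝ) / p.2)| * (1 + Real.log ((2:ℝ) ^ i)) ≤ M * ((b + 4) * (1 + i)) := by
      calc b + 4 / |Real.log ((p.1:ℝ) / p.2)| * (1 + Real.log ((2:ℝ) ^ i)) ≤ b + 4 * M * (1 + i) := by gcongr
        _ ≤ b * (M * (1 + i)) + 4 * M * (1 + i) := by
            have h6 : (1:ℝ) ≤ M * (1 + i) := by
              have : (0:ℝ) ≤ i := Nat.cast_nonneg i
              nlinarith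
            nlinarith
        _ = _ := by ring
    calc (A i).card * (b + 4 / |Real.log ((p.1:ℝ) / p.2)| * (1 + Real.log ((2:ℝ) ^ i))) / ((A i).card / M) ^ 2 ≤
          (A i).card * (M * ((b + 4) * (1 + i))) / ((A i).card / M) ^ 2 := by gcongr
      _ = _ := by field_simp
  unfold BdS
  refine (measure_biUnion_finset_le _ _).trans ((Finset.sum_le_sum h1).trans ?_)
  rw [Finset.sum_const, nsmul_eq_mul, ← ENNReal.ofReal_natCast, ← ENNReal.ofReal_mul (by positivity)]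
  refine ENNReal.ofReal_le_ofReal ?_
  have hc2 : ((((Finset.Icc 1 M ×ˢ Finset.Icc 1 M).filter (fun p : ℕ × ℕ => p.1 ≠ p.2)).card : ℕ) : ℝ) ≤ (M:ℝ) ^ 2 := by
    have h5 : ((Finset.Icc 1 M ×ˢ Finset.Icc 1 M).filter (fun p : ℕ × ℕ => p.1 ≠ p.2)).card ≤ M ^ 2 := by
      refine (Finset.card_filter_le _ _).trans ?_
      rw [Finset.card_product, Nat.card_Icc, Nat.add_sub_cancel, sq]
    exact_mod_cast h5
  have hM5 : (M:ℝ) ^ 5 ≤ 32 * (2:ℝ) ^ (κ / 2 * i) := by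
    calc (M:ℝ) ^ 5 ≤ (2 * (2:ℝ) ^ (κ / 10 * i)) ^ 5 := by gcongr
      _ = 32 * (2:ℝ) ^ (κ / 2 * i) := by
          rw [mul_pow, ← Real.rpow_natCast ((2:ℝ) ^ (κ / 10 * i)) 5, ← Real.rpow_mul (by norm_num)]
          norm_num
          congr 1; ring
  calc _ ≤ (M:ℝ) ^ 2 * ((M:ℝ) ^ 3 * ((b + 4) * (1 + i)) / (A i).card) := by gcongr
    _ = (M:ℝ) ^ 5 * ((b + 4) * (1 + i)) / (A i).card := by ring
    _ ≤ 32 * (2:ℝ) ^ (κ / 2 * i) * ((b + 4) * (1 + i)) / (2:ℝ) ^ (κ * i) := by gcongr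
    _ = 32 * (b + 4) * ((1 + i) * ((2:ℝ) ^ (κ / 2 * i) / (2:ℝ) ^ (κ * i))) := by ring
    _ = _ := by
        rw [← Real.rpow_sub (by norm_num), ← Real.rpow_natCast ((2:ℝ) ^ (-(κ / 2))) i, ← Real.rpow_mul (by norm_num)]
        congr 3; ring

/-- almost every dilation is good -/
theorem dil_ae {κ : ℝ} (hκ : 0 < κ) {i₀ : ℕ} {A : ℕ → Finset ℝ} (hA : Blocks κ i₀ A) :
    ∀ᵐ h : ℝ, 0 < h → ∃ i₁ : ℕ, i₀ ≤ i₁ ∧ ∀ i : ℕ, i₁ ≤ i → ∀ m n : ℕ, 1 ≤ m → 1 ≤ n → m ≠ n → m ≤ MM κ i → n ≤ MM κ i →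
      ‖ES (A i) (Real.log ((m:ℝ) / n)) h‖ ≤ ((A i).card : ℝ) / MM κ i := by
  have hr : ‖(2:ℝ) ^ (-(κ / 2))‖ < 1 := by
    rw [Real.norm_of_nonneg (by positivity)]
    exact Real.rpow_lt_one_of_one_lt_of_neg (by norm_num) (by linarith)
  have hsum : Summable fun i : ℕ => (1 + (i:ℝ)) * ((2:ℝ) ^ (-(κ / 2))) ^ i := by
    have h1 := summable_pow_mul_geometric_of_norm_lt_one 1 hr
    have h2 := summable_geometric_of_norm_lt_one hr
    refine (h2.add h1).congr fun i => ?_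
    simp only [pow_one]
    ring
  have h1 : ∀ B : ℕ, ∀ᵐ h : ℝ, ∀ᶠ i : ℕ in atTop, h ∉ BdS κ B A (i + i₀) := by
    intro B
    have hs : Summable fun i : ℕ => 32 * ((B:ℝ) + 4) * ((1 + ((i + i₀ : ℕ) : ℝ)) * ((2:ℝ) ^ (-(κ / 2))) ^ (i + i₀)) := by
      refine Summable.mul_left _ ?_
      exact (summable_nat_add_iff i₀).2 hsum
    have hfin : ∑' i : ℕ, volume (BdS κ B A (i + i₀)) ≠ ∞ := by
      have h2 : ∑' i : ℕ, volume (BdS κ B A (i + i₀)) ≤ ∑' i : ℕ, ENNReal.ofReal (32 * ((B:ℝ) + 4) *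
          ((1 + ((i + i₀ : ℕ) : ℝ)) * ((2:ℝ) ^ (-(κ / 2))) ^ (i + i₀))) :=
        ENNReal.tsum_le_tsum fun i => BdS_vol hκ (Nat.cast_nonneg B) hA (by omega)
      refine ne_top_of_le_ne_top ?_ h2
      rw [← ENNReal.ofReal_tsum_of_nonneg (fun X => by positivity) hs]
      exact ENNReal.ofReal_ne_top
    exact ae_eventually_notMem hfin
  have h2 := ae_all_iff.2 h1
  filter_upwards [h2] with h hh hpos
  obtain ⟨B, hB⟩ := exists_nat_ge h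
  obtain ⟨X₁, hX₁⟩ := eventually_atTop.1 (hh B)
  refine ⟨X₁ + i₀, by omega, fun i hi m n hm hn hmn hmX hnX => ?_⟩
  have hX2 := hX₁ (i - i₀) (by omega)
  rw [Nat.sub_add_cancel (by omega)] at hX2
  by_contra hcon
  push Not at hcon
  refine hX2 ?_
  unfold BdS
  simp only [mem_iUnion, exists_prop, Finset.mem_filter, Finset.mem_product, Finset.mem_Icc, Prod.exists]
  exact ⟨m, n, ⟨⟨⟨hm, hmX⟩, ⟨hn, hnX⟩⟩, hmn⟩, ⟨hpos, hB⟩, hcon.le⟩

/-- the uniform distribution on the dilate of a finite set -/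
def uF (A : Finset ℝ) (h : ℝ) : Measure ℝ := ((A.card : ℝ≥0∞)⁻¹) • ∑ a ∈ A, Measure.dirac (h * a)

lemma integral_uF (A : Finset ℝ) (h : ℝ) (g : ℝ → ℂ) :
    ∫ x : ℝ, g x ∂(uF A h) = (A.card : ℂ)⁻¹ * ∑ a ∈ A, g (h * a) := by
  unfold uF
  rw [integral_smul_measure, integral_finsetSum_measure]
  · simp only [integral_dirac]
    rw [ENNReal.toReal_inv, ENNReal.toReal_natCast, Complex.real_smul]
    push_cast
    rfl
  · intro j _
    exact integrable_dirac (by simp)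

lemma lintegral_uF {f : ℝ → ℝ≥0∞} (hf : Measurable f) (A : Finset ℝ) (h : ℝ) :
    ∫⁻ x, f x ∂(uF A h) = (A.card : ℝ≥0∞)⁻¹ * ∑ a ∈ A, f (h * a) := by
  unfold uF
  rw [lintegral_smul_measure, lintegral_finsetSum_measure]
  simp only [lintegral_dirac' _ hf, smul_eq_mul]

/-- the dilates are well distributed -/
theorem dil_heights {κ : ℝ} (hκ : 0 < κ) {i₀ : ℕ} {A : ℕ → Finset ℝ} (hA : Blocks κ i₀ A) :
    ∀ᵐ h : ℝ, 0 < h → ∃ i₁ : ℕ, ∀ i : ℕ, i₁ ≤ i →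
      Heights (h * 2 ^ i) ((h * 2 ^ i) ^ (κ / 20)) ((h * 2 ^ i) ^ (-(κ / 20))) (uF (A i) h) := by
  filter_upwards [dil_ae hκ hA] with h hh hpos
  obtain ⟨i₁, hi₁, hgood⟩ := hh hpos
  have ht := tendsto_pow_atTop_atTop_of_one_lt (show (1:ℝ) < 2 by norm_num)
  obtain ⟨i₂, hi₂⟩ := eventually_atTop.1 ((ht.eventually_ge_atTop h).and (ht.eventually_ge_atTop (1 / h)))
  refine ⟨max i₁ i₂, fun i hi => ?_⟩
  have hia := (le_max_left _ _).trans hi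
  obtain ⟨h1, h2⟩ := hi₂ i ((le_max_right _ _).trans hi)
  have hT1 : 1 ≤ h * 2 ^ i := by
    rw [div_le_iff₀ hpos] at h2
    linarith
  have hT0 : 0 < h * 2 ^ i := by positivity
  have hii := hi₁.trans hia
  have hcard0 : (0:ℝ) < (A i).card := lt_of_lt_of_le (by positivity) (hA.card i hii)
  have hcardN : (A i).card ≠ 0 := by
    intro h0; rw [h0] at hcard0; simp at hcard0
  have hcardE : ((A i).card : ℝ≥0∞) ≠ 0 := by exact_mod_cast hcardN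
  obtain ⟨hM1, hM2, hM3⟩ := MM_bounds hκ i
  have hTM : (h * 2 ^ i) ^ (κ / 20) ≤ MM κ i := by
    refine le_trans ?_ hM1
    calc (h * 2 ^ i) ^ (κ / 20) ≤ ((2:ℝ) ^ i * 2 ^ i) ^ (κ / 20) := by gcongr
      _ = (2:ℝ) ^ (κ / 10 * i) := by
          rw [← Real.rpow_natCast 2 i, ← Real.rpow_add (by norm_num), ← Real.rpow_mul (by norm_num)]
          congr 1; ring
  refine ⟨⟨?_⟩, ?_, fun m n hm hn hmn hY => ?_⟩
  · unfold uF
    rw [Measure.smul_apply, Measure.finsetSum_apply]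
    simp only [measure_univ, Finset.sum_const, nsmul_eq_mul, mul_one, smul_eq_mul]
    exact ENNReal.inv_mul_cancel hcardE (by simp)
  · unfold uF
    refine Measure.ae_smul_measure ?_ _
    rw [ae_iff, Measure.finsetSum_apply]
    refine Finset.sum_eq_zero fun a ha => ?_
    rw [show {a : ℝ | a ∉ Icc (h * 2 ^ i) (2 * (h * 2 ^ i))} = (Icc (h * 2 ^ i) (2 * (h * 2 ^ i)))ᶜ from rfl,
      Measure.dirac_apply' _ (measurableSet_Icc.compl)]
    simp only [indicator_apply_eq_zero]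
    intro hmem
    have h3 := hA.mem i hii a ha
    refine absurd ⟨?_, ?_⟩ hmem
    · have := h3.1; gcongr
    · have := h3.2
      calc h * a ≤ h * (2 * 2 ^ i) := by gcongr
        _ = _ := by ring
  · have hm1 : (1:ℝ) ≤ m := by exact_mod_cast hm
    have hn1 : (1:ℝ) ≤ n := by exact_mod_cast hn
    have hmX : m ≤ MM κ i := by
      have : (m:ℝ) ≤ MM κ i := by
        refine le_trans ?_ (hY.trans hTM)
        nlinarith
      exact_mod_cast this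
    have hnX : n ≤ MM κ i := by
      have : (n:ℝ) ≤ MM κ i := by
        refine le_trans ?_ (hY.trans hTM)
        nlinarith
      exact_mod_cast this
    have h3 := hgood i hia m n hm hn hmn hmX hnX
    rw [integral_uF, norm_mul, norm_inv, Complex.norm_natCast, inv_mul_le_iff₀ hcard0]
    have e1 : (∑ a ∈ A i, exp (I * (((h * a : ℝ) : ℂ) * Real.log ((m:ℝ) / n)))) = ES (A i) (Real.log ((m:ℝ) / n)) h := rfl
    rw [e1]
    refine h3.trans ?_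
    have hTp : 0 < (h * 2 ^ i) ^ (κ / 20) := by positivity
    rw [div_eq_mul_inv]
    refine mul_le_mul_of_nonneg_left ?_ hcard0.le
    rw [Real.rpow_neg hT0.le]
    have h5 : ((MM κ i : ℝ))⁻¹ ≤ ((h * 2 ^ i) ^ (κ / 20))⁻¹ := inv_anti₀ hTp hTM
    have h6 : 0 ≤ 1 / |Real.log ((m:ℝ) / n)| := by positivity
    have h7 : 0 ≤ ((h * 2 ^ i) ^ (κ / 20))⁻¹ := by positivity
    nlinarith

end

end Pool.Agent.R461.HM
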