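import Pool.Agent.R461.HM.Dil2

set_option autoImplicit false

/-! Dilates of Frostman measures. -/

namespace Pool.Agent.R461.HM

open Complex Filter Topology MeasureTheory Set
open scoped ENNReal

noncomputable section

/-- probability measures on `[1, 2]` with `ν × ν` mass at most `K r^s` in the strip `|x - y| ≤ r` -/
structure Frostman (s K : ℝ) (ν : Measure ℝ) : Prop where
  prob : IsProbabilityMeasure ν
  supp : ∀ᵐ x ∂ν, x ∈ Icc (1:ℝ) 2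
  frost : ∀ r : ℝ, 0 < r → (ν.prod ν) {p : ℝ × ℝ | |p.1 - p.2| ≤ r} ≤ ENNReal.ofReal (K * r ^ s)

/-- the Fourier transform -/
def ft (ν : Measure ℝ) (u : ℝ) : ℂ := ∫ x : ℝ, exp ((u * x : ℝ) * I) ∂ν

lemma ft_cont (ν : Measure ℝ) [IsProbabilityMeasure ν] (w : ℝ) : Continuous fun l : ℝ => ft ν (l * w) := by
  unfold ft
  refine continuous_of_dominated (F := fun (l x : ℝ) => exp ((l * w * x : ℝ) * I)) (bound := fun _ => 1)
    (fun l => Continuous.aestronglyMeasurable (by fun_prop)) (fun l => Eventually.of_forall fun x => ?_)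
    (integrable_const _) (Eventually.of_forall fun x => by fun_prop)
  rw [Complex.norm_exp_ofReal_mul_I]

lemma ft_sq {s K : ℝ} {ν : Measure ℝ} (hν : Frostman s K ν) (hK : 0 ≤ K) {w b r : ℝ} (hw : w ≠ 0) (hb : 0 ≤ b) (hr : 0 < r) :
    ∫ l in (0:ℝ)..b, ‖ft ν (l * w)‖ ^ 2 ≤ b * (K * r ^ s) + 2 / (|w| * r) := by
  haveI := hν.prob
  have hwp : 0 < |w| := abs_pos.2 hw
  have hsq : ∀ l : ℝ, ((‖ft ν (l * w)‖ ^ 2 : ℝ) : ℂ) = ∫ p : ℝ × ℝ, exp (((w * (p.1 - p.2) : ℝ) : ℂ) * I * l) ∂(ν.prod ν) := by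
    intro l
    have h3 : ((‖ft ν (l * w)‖ ^ 2 : ℝ) : ℂ) = ft ν (l * w) * (starRingEnd ℂ) (ft ν (l * w)) := by
      rw [Complex.mul_conj, Complex.normSq_eq_norm_sq]
    rw [h3]
    unfold ft
    rw [← integral_conj, ← integral_prod_mul]
    congr 1; funext p
    rw [← Complex.exp_conj, ← Complex.exp_add]
    congr 1
    simp only [map_mul, Complex.conj_I, Complex.conj_ofReal]
    push_cast
    ring
  have h0 : 0 ≤ ∫ l in (0:ℝ)..b, ‖ft ν (l * w)‖ ^ 2 := intervalIntegral.integral_nonneg hb fun h _ => by positivity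
  have h1 : ((∫ l in (0:ℝ)..b, ‖ft ν (l * w)‖ ^ 2 : ℝ) : ℂ) =
      ∫ p : ℝ × ℝ, (∫ l in (0:ℝ)..b, exp (((w * (p.1 - p.2) : ℝ) : ℂ) * I * l)) ∂(ν.prod ν) := by
    rw [← intervalIntegral.integral_ofReal]
    simp only [hsq]
    simp only [intervalIntegral.integral_of_le hb]
    refine integral_integral_swap (f := fun (l : ℝ) (p : ℝ × ℝ) => exp (((w * (p.1 - p.2) : ℝ) : ℂ) * I * l)) ?_
    refine (integrable_const (1:ℝ)).mono' (Continuous.aestronglyMeasurable (by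
      unfold Function.uncurry
      fun_prop)) (Eventually.of_forall fun q => ?_)
    show ‖exp (((w * (q.2.1 - q.2.2) : ℝ) : ℂ) * I * (q.1 : ℂ))‖ ≤ 1
    have : ((w * (q.2.1 - q.2.2) : ℝ) : ℂ) * I * (q.1 : ℂ) = ((w * (q.2.1 - q.2.2) * q.1 : ℝ) : ℂ) * I := by push_cast; ring
    rw [this, Complex.norm_exp_ofReal_mul_I]
  have h2 : (∫ l in (0:ℝ)..b, ‖ft ν (l * w)‖ ^ 2) = ‖((∫ l in (0:ℝ)..b, ‖ft ν (l * w)‖ ^ 2 : ℝ) : ℂ)‖ := by
    rw [Complex.norm_real, Real.norm_of_nonneg h0]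
  rw [h2, h1]
  have hms : MeasurableSet {p : ℝ × ℝ | |p.1 - p.2| ≤ r} :=
    measurableSet_le (by fun_prop) measurable_const
  have hbound : ∀ p : ℝ × ℝ, ‖∫ l in (0:ℝ)..b, exp (((w * (p.1 - p.2) : ℝ) : ℂ) * I * l)‖ ≤
      ({p : ℝ × ℝ | |p.1 - p.2| ≤ r}.indicator (fun _ => b) p) + 2 / (|w| * r) := by
    intro p
    by_cases hp : |p.1 - p.2| ≤ r
    · have e1 : ({p : ℝ × ℝ | |p.1 - p.2| ≤ r}.indicator (fun _ => b) p) = b := indicator_of_mem (s := {p : ℝ × ℝ | |p.1 - p.2| ≤ r}) hp _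
      rw [e1]
      have h4 := intervalIntegral.norm_integral_le_of_norm_le_const (a := 0) (b := b) (C := 1)
        (f := fun l : ℝ => exp (((w * (p.1 - p.2) : ℝ) : ℂ) * I * l)) (fun l _ => by
          have : ((w * (p.1 - p.2) : ℝ) : ℂ) * I * (l : ℂ) = ((w * (p.1 - p.2) * l : ℝ) : ℂ) * I := by push_cast; ring
          rw [this, Complex.norm_exp_ofReal_mul_I])
      rw [sub_zero, abs_of_nonneg hb, one_mul] at h4
      have : 0 ≤ 2 / (|w| * r) := by positivity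
      linarith
    · have e1 : ({p : ℝ × ℝ | |p.1 - p.2| ≤ r}.indicator (fun _ => b) p) = 0 := indicator_of_notMem (s := {p : ℝ × ℝ | |p.1 - p.2| ≤ r}) hp _
      rw [e1, zero_add]
      push Not at hp
      have hne : p.1 - p.2 ≠ 0 := by
        intro h; rw [h, abs_zero] at hp; linarith
      refine (int_exp_le (mul_ne_zero hw hne)).trans ?_
      rw [abs_mul]
      have : |w| * r ≤ |w| * |p.1 - p.2| := by gcongr
      gcongr
  have hint : Integrable (fun p : ℝ × ℝ => ({p : ℝ × ℝ | |p.1 - p.2| ≤ r}.indicator (fun _ => b) p) + 2 / (|w| * r)) (ν.prod ν) :=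
    ((integrable_const b).indicator hms).add (integrable_const _)
  refine (norm_integral_le_of_norm_le hint (Eventually.of_forall hbound)).trans ?_
  rw [integral_add ((integrable_const b).indicator hms) (integrable_const _), integral_indicator_const _ hms, integral_const,
    probReal_univ, one_smul, smul_eq_mul]
  have h5 : (ν.prod ν).real {p : ℝ × ℝ | |p.1 - p.2| ≤ r} ≤ K * r ^ s := by
    have h6 := ENNReal.toReal_mono ENNReal.ofReal_ne_top (hν.frost r hr)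
    rwa [ENNReal.toReal_ofReal (by positivity)] at h6
  have h6 : (ν.prod ν).real {p : ℝ × ℝ | |p.1 - p.2| ≤ r} * b ≤ K * r ^ s * b := by gcongr
  linarith

lemma ft_vol {s K : ℝ} {ν : Measure ℝ} (hν : Frostman s K ν) (hK : 0 ≤ K) {w b r : ℝ} (hw : w ≠ 0) (hb : 0 ≤ b) (hr : 0 < r)
    {η : ℝ} (hη : 0 < η) :
    volume {l | l ∈ Ioc 0 b ∧ η ≤ ‖ft ν (l * w)‖} ≤ ENNReal.ofReal ((b * (K * r ^ s) + 2 / (|w| * r)) / η ^ 2) := by
  haveI := hν.prob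
  have h1 := ft_sq hν hK hw hb hr
  rw [intervalIntegral.integral_of_le hb] at h1
  have hc : Continuous fun l : ℝ => ‖ft ν (l * w)‖ ^ 2 := (ft_cont ν w).norm.pow 2
  have hint : Integrable (fun l : ℝ => ‖ft ν (l * w)‖ ^ 2) (volume.restrict (Ioc 0 b)) :=
    (hc.integrableOn_Icc (a := 0) (b := b)).mono_set Ioc_subset_Icc_self
  have h2 := mul_meas_ge_le_integral_of_nonneg (μ := volume.restrict (Ioc 0 b)) (f := fun l : ℝ => ‖ft ν (l * w)‖ ^ 2)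
    (Eventually.of_forall fun h => by positivity) hint (η ^ 2)
  have h3 : {l | l ∈ Ioc 0 b ∧ η ≤ ‖ft ν (l * w)‖} = {l | η ^ 2 ≤ ‖ft ν (l * w)‖ ^ 2} ∩ Ioc 0 b := by
    ext h
    simp only [mem_setOf_eq, mem_inter_iff]
    rw [and_comm, sq_le_sq₀ hη.le (norm_nonneg _)]
  have hm : MeasurableSet {l : ℝ | η ^ 2 ≤ ‖ft ν (l * w)‖ ^ 2} := measurableSet_le measurable_const hc.measurable
  have h4 : volume {l | l ∈ Ioc 0 b ∧ η ≤ ‖ft ν (l * w)‖} =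
      volume.restrict (Ioc 0 b) {l : ℝ | η ^ 2 ≤ ‖ft ν (l * w)‖ ^ 2} := by
    rw [h3, Measure.restrict_apply hm]
  rw [h4]
  have hfin : volume.restrict (Ioc 0 b) {l : ℝ | η ^ 2 ≤ ‖ft ν (l * w)‖ ^ 2} ≠ ⊤ := measure_ne_top _ _
  rw [← ENNReal.ofReal_toReal hfin]
  refine ENNReal.ofReal_le_ofReal ?_
  rw [le_div_iff₀ (by positivity)]
  have h5 : (volume.restrict (Ioc 0 b)).real {l : ℝ | η ^ 2 ≤ ‖ft ν (l * w)‖ ^ 2} =
      (volume.restrict (Ioc 0 b) {l : ℝ | η ^ 2 ≤ ‖ft ν (l * w)‖ ^ 2}).toReal := rfl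
  rw [h5] at h2
  linarith

/-- the size of the integers at level `T` -/
def MF (s T : ℝ) : ℕ := ⌈T ^ (s / 20)⌉₊

lemma MF_bounds {s : ℝ} (hs : 0 < s) {T : ℝ} (hT : 1 ≤ T) : T ^ (s / 20) ≤ MF s T ∧ (MF s T : ℝ) ≤ 2 * T ^ (s / 20) ∧
    (1:ℝ) ≤ MF s T := by
  have h1 : (1:ℝ) ≤ T ^ (s / 20) := Real.one_le_rpow hT (by positivity)
  have h2 := Nat.le_ceil (T ^ (s / 20))
  have h3 := Nat.ceil_lt_add_one (show 0 ≤ T ^ (s / 20) by positivity)
  unfold MF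
  refine ⟨h2, by linarith, h1.trans h2⟩

/-- the exceptional dilations at level `T` -/
def BdF (s b : ℝ) (ν : Measure ℝ) (T : ℝ) : Set ℝ :=
  ⋃ p ∈ (Finset.Icc 1 (MF s T) ×ˢ Finset.Icc 1 (MF s T)).filter (fun p : ℕ × ℕ => p.1 ≠ p.2),
    {l | l ∈ Ioc 0 b ∧ 1 / (MF s T : ℝ) ≤ ‖ft ν (l * (T * Real.log ((p.1:ℝ) / p.2)))‖}

lemma BdF_vol {s K b : ℝ} (hs : 0 < s) (hs1 : s ≤ 1) (hK : 0 ≤ K) (hb : 0 ≤ b) {ν : Measure ℝ} (hν : Frostman s K ν) {T : ℝ}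
    (hT : 1 ≤ T) : volume (BdF s b ν T) ≤ ENNReal.ofReal (32 * (b * K + 2) * T ^ (-(s / 4))) := by
  obtain ⟨hM1, hM2, hM3⟩ := MF_bounds hs hT
  obtain ⟨M, hM⟩ : ∃ M, M = MF s T := ⟨_, rfl⟩
  rw [← hM] at hM1 hM2 hM3
  have hM0 : (0:ℝ) < M := by linarith
  have hT0 : 0 < T := by linarith
  have h1 : ∀ p ∈ (Finset.Icc 1 M ×ˢ Finset.Icc 1 M).filter (fun p : ℕ × ℕ => p.1 ≠ p.2),
      volume {l | l ∈ Ioc 0 b ∧ 1 / (M : ℝ) ≤ ‖ft ν (l * (T * Real.log ((p.1:ℝ) / p.2)))‖} ≤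
        ENNReal.ofReal ((M:ℝ) ^ 3 * ((b * K + 2) * T ^ (-(s / 2)))) := by
    intro p hp
    rw [Finset.mem_filter, Finset.mem_product, Finset.mem_Icc, Finset.mem_Icc] at hp
    have h2 := log_lower hp.1.1.1 hp.1.2.1 hp.2 hp.1.1.2 hp.1.2.2
    have h3 : 0 < |Real.log ((p.1:ℝ) / p.2)| := lt_of_lt_of_le (by positivity) h2
    have hw : T * Real.log ((p.1:ℝ) / p.2) ≠ 0 := mul_ne_zero hT0.ne' (abs_pos.1 h3)
    refine (ft_vol hν hK hw hb (r := T ^ (-(1/2) : ℝ)) (by positivity) (η := 1 / (M:ℝ)) (by positivity)).trans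
      (ENNReal.ofReal_le_ofReal ?_)
    have hTs : T ^ (-(1/2) : ℝ) ≤ T ^ (-(s / 2)) := Real.rpow_le_rpow_of_exponent_le hT (by linarith)
    have e1 : (T ^ (-(1/2) : ℝ)) ^ s = T ^ (-(s / 2)) := by
      rw [← Real.rpow_mul hT0.le]; congr 1; ring
    have e2 : 2 / (|T * Real.log ((p.1:ℝ) / p.2)| * T ^ (-(1/2) : ℝ)) ≤ 2 * M * T ^ (-(s / 2)) := by
      rw [abs_mul, abs_of_pos hT0]
      have e3 : T * |Real.log ((p.1:ℝ) / p.2)| * T ^ (-(1/2) : ℝ) = T ^ (1/2 : ℝ) * |Real.log ((p.1:ℝ) / p.2)| := by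
        have : T * T ^ (-(1/2) : ℝ) = T ^ (1/2 : ℝ) := by
          nth_rewrite 1 [← Real.rpow_one T]
          rw [← Real.rpow_add hT0]; norm_num
        rw [← this]; ring
      rw [e3, div_le_iff₀ (by positivity)]
      rw [div_le_iff₀ hM0] at h2
      have e4 : T ^ (-(1/2) : ℝ) * T ^ (1/2 : ℝ) = 1 := by
        rw [← Real.rpow_add hT0]; norm_num
      calc (2:ℝ) = 2 * 1 * (T ^ (-(1/2) : ℝ) * T ^ (1/2 : ℝ)) := by rw [e4]; ring
        _ ≤ 2 * (|Real.log ((p.1:ℝ) / p.2)| * M) * (T ^ (-(s / 2)) * T ^ (1/2 : ℝ)) := by gcongr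
        _ = _ := by ring
    calc (b * (K * (T ^ (-(1/2) : ℝ)) ^ s) + 2 / (|T * Real.log ((p.1:ℝ) / p.2)| * T ^ (-(1/2) : ℝ))) / (1 / (M:ℝ)) ^ 2 ≤
          (b * (K * T ^ (-(s / 2))) + 2 * M * T ^ (-(s / 2))) / (1 / (M:ℝ)) ^ 2 := by
          rw [e1]
          gcongr
      _ = (b * K + 2 * M) * T ^ (-(s / 2)) * M ^ 2 := by field_simp
      _ ≤ (b * K * M + 2 * M) * T ^ (-(s / 2)) * M ^ 2 := by
          have : b * K ≤ b * K * M := le_mul_of_one_le_right (by positivity) hM3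
          gcongr
      _ = _ := by ring
  unfold BdF
  rw [← hM]
  refine (measure_biUnion_finset_le _ _).trans ((Finset.sum_le_sum h1).trans ?_)
  rw [Finset.sum_const, nsmul_eq_mul, ← ENNReal.ofReal_natCast, ← ENNReal.ofReal_mul (by positivity)]
  refine ENNReal.ofReal_le_ofReal ?_
  have hc2 : ((((Finset.Icc 1 M ×ˢ Finset.Icc 1 M).filter (fun p : ℕ × ℕ => p.1 ≠ p.2)).card : ℕ) : ℝ) ≤ (M:ℝ) ^ 2 := by
    have h5 : ((Finset.Icc 1 M ×ˢ Finset.Icc 1 M).filter (fun p : ℕ × ℕ => p.1 ≠ p.2)).card ≤ M ^ 2 := by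
      refine (Finset.card_filter_le _ _).trans ?_
      rw [Finset.card_product, Nat.card_Icc, Nat.add_sub_cancel, sq]
    exact_mod_cast h5
  have hM5 : (M:ℝ) ^ 5 ≤ 32 * T ^ (s / 4) := by
    calc (M:ℝ) ^ 5 ≤ (2 * T ^ (s / 20)) ^ 5 := by gcongr
      _ = 32 * T ^ (s / 4) := by
          rw [mul_pow, ← Real.rpow_natCast (T ^ (s / 20)) 5, ← Real.rpow_mul hT0.le]
          norm_num
          congr 1; ring
  calc _ ≤ (M:ℝ) ^ 2 * ((M:ℝ) ^ 3 * ((b * K + 2) * T ^ (-(s / 2)))) := by gcongr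
    _ = (M:ℝ) ^ 5 * ((b * K + 2) * T ^ (-(s / 2))) := by ring
    _ ≤ 32 * T ^ (s / 4) * ((b * K + 2) * T ^ (-(s / 2))) := by gcongr
    _ = 32 * (b * K + 2) * (T ^ (s / 4) * T ^ (-(s / 2))) := by ring
    _ = _ := by rw [← Real.rpow_add hT0]; congr 2; ring

end

end Pool.Agent.R461.HM
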