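import Pool.Agent.R461.HM.Frost

set_option autoImplicit false

/-! Dilates of Frostman measures: Borel-Cantelli. -/

namespace Pool.Agent.R461.HM

open Complex Filter Topology MeasureTheory Set
open scoped ENNReal

noncomputable section

theorem frost_ae {s K : ℝ} (hs : 0 < s) (hs1 : s ≤ 1) (hK : 0 ≤ K) {ν : Measure ℝ} (hν : Frostman s K ν) {T : ℕ → ℝ}
    (hT : ∀ i, (2:ℝ) ^ i ≤ T i) : ∀ᵐ l : ℝ, 0 < l → ∀ᶠ i : ℕ in atTop, ∀ m n : ℕ, 1 ≤ m → 1 ≤ n → m ≠ n →
      m ≤ MF s (T i) → n ≤ MF s (T i) → ‖ft ν (l * (T i * Real.log ((m:ℝ) / n)))‖ ≤ 1 / MF s (T i) := by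
  have hT1 : ∀ i, 1 ≤ T i := fun i => (one_le_pow₀ (by norm_num : (1:ℝ) ≤ 2)).trans (hT i)
  have hr : ‖(2:ℝ) ^ (-(s / 4))‖ < 1 := by
    rw [Real.norm_of_nonneg (by positivity)]
    exact Real.rpow_lt_one_of_one_lt_of_neg (by norm_num) (by linarith)
  have hTs : ∀ i : ℕ, (T i) ^ (-(s / 4)) ≤ ((2:ℝ) ^ (-(s / 4))) ^ i := by
    intro i
    have h1 : (T i) ^ (-(s / 4)) ≤ ((2:ℝ) ^ i) ^ (-(s / 4)) :=
      Real.rpow_le_rpow_of_nonpos (by positivity) (hT i) (by linarith)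
    refine h1.trans (le_of_eq ?_)
    rw [← Real.rpow_natCast, ← Real.rpow_natCast, ← Real.rpow_mul (by norm_num), ← Real.rpow_mul (by norm_num), mul_comm]
  have h1 : ∀ B : ℕ, ∀ᵐ l : ℝ, ∀ᶠ i : ℕ in atTop, l ∉ BdF s B ν (T i) := by
    intro B
    have hsum : Summable fun i : ℕ => 32 * ((B:ℝ) * K + 2) * (((2:ℝ) ^ (-(s / 4))) ^ i) :=
      (summable_geometric_of_norm_lt_one hr).mul_left _
    have hfin : ∑' i : ℕ, volume (BdF s B ν (T i)) ≠ ∞ := by
      have h2 : ∑' i : ℕ, volume (BdF s B ν (T i)) ≤ ∑' i : ℕ, ENNReal.ofReal (32 * ((B:ℝ) * K + 2) *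
          (((2:ℝ) ^ (-(s / 4))) ^ i)) :=
        ENNReal.tsum_le_tsum fun i => (BdF_vol hs hs1 hK (Nat.cast_nonneg B) hν (hT1 i)).trans
          (ENNReal.ofReal_le_ofReal (by
            have := hTs i
            gcongr))
      refine ne_top_of_le_ne_top ?_ h2
      rw [← ENNReal.ofReal_tsum_of_nonneg (fun X => by positivity) hsum]
      exact ENNReal.ofReal_ne_top
    exact ae_eventually_notMem hfin
  have h2 := ae_all_iff.2 h1
  filter_upwards [h2] with l hl hpos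
  obtain ⟨B, hB⟩ := exists_nat_ge l
  filter_upwards [hl B] with i hi m n hm hn hmn hmX hnX
  by_contra hcon
  push Not at hcon
  refine hi ?_
  unfold BdF
  simp only [mem_iUnion, exists_prop, Finset.mem_filter, Finset.mem_product, Finset.mem_Icc, Prod.exists]
  exact ⟨m, n, ⟨⟨⟨hm, hmX⟩, ⟨hn, hnX⟩⟩, hmn⟩, ⟨hpos, hB⟩, hcon.le⟩

/-- the dilates are well distributed -/
theorem frost_heights {s K : ℝ} (hs : 0 < s) (hs1 : s ≤ 1) (hK : 0 ≤ K) {ν : Measure ℝ} (hν : Frostman s K ν) {T : ℕ → ℝ}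
    (hT : ∀ i, (2:ℝ) ^ i ≤ T i) : ∀ᵐ l : ℝ, 0 < l → ∀ᶠ i : ℕ in atTop,
      Heights (l * T i) ((l * T i) ^ (s / 40)) ((l * T i) ^ (-(s / 40))) (ν.map (fun x => l * T i * x)) := by
  have hTt : Tendsto T atTop atTop := tendsto_atTop_mono hT (tendsto_pow_atTop_atTop_of_one_lt (by norm_num))
  filter_upwards [frost_ae hs hs1 hK hν hT] with l hl hpos
  filter_upwards [hl hpos, hTt.eventually_ge_atTop 1, hTt.eventually_ge_atTop l, hTt.eventually_ge_atTop (1 / l)] with i h0 h1 h2 h3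
  have hT0 : 0 < T i := by linarith
  have hU1 : 1 ≤ l * T i := by
    rw [div_le_iff₀ hpos] at h3
    linarith
  have hU0 : 0 < l * T i := by positivity
  obtain ⟨hM1, hM2, hM3⟩ := MF_bounds hs h1
  have hUM : (l * T i) ^ (s / 40) ≤ MF s (T i) := by
    refine le_trans ?_ hM1
    calc (l * T i) ^ (s / 40) ≤ (T i * T i) ^ (s / 40) := by gcongr
      _ = (T i) ^ (s / 20) := by
          rw [Real.mul_rpow hT0.le hT0.le, ← Real.rpow_add hT0]
          congr 1; ring
  haveI := hν.prob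
  have hme : Measurable fun x : ℝ => l * T i * x := by fun_prop
  refine ⟨Measure.isProbabilityMeasure_map hme.aemeasurable, ?_, fun m n hm hn hmn hY => ?_⟩
  · refine (ae_map_iff (p := fun t => t ∈ Icc (l * T i) (2 * (l * T i))) hme.aemeasurable measurableSet_Icc).2 ?_
    filter_upwards [hν.supp] with x hx
    exact ⟨by nlinarith [hx.1], by nlinarith [hx.2]⟩
  · have hm1 : (1:ℝ) ≤ m := by exact_mod_cast hm
    have hn1 : (1:ℝ) ≤ n := by exact_mod_cast hn
    have hmX : m ≤ MF s (T i) := by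
      have : (m:ℝ) ≤ MF s (T i) := by
        refine le_trans ?_ (hY.trans hUM)
        nlinarith
      exact_mod_cast this
    have hnX : n ≤ MF s (T i) := by
      have : (n:ℝ) ≤ MF s (T i) := by
        refine le_trans ?_ (hY.trans hUM)
        nlinarith
      exact_mod_cast this
    have h5 := h0 m n hm hn hmn hmX hnX
    rw [integral_map hme.aemeasurable (by fun_prop)]
    have e1 : (∫ x : ℝ, exp (I * (((l * T i * x : ℝ) : ℂ) * Real.log ((m:ℝ) / n))) ∂ν) =
        ft ν (l * (T i * Real.log ((m:ℝ) / n))) := by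
      unfold ft
      congr 1; funext x
      congr 1
      push_cast
      ring
    rw [e1]
    refine h5.trans ?_
    have hp : 0 < (l * T i) ^ (s / 40) := by positivity
    rw [Real.rpow_neg hU0.le, one_div]
    have h6 : ((MF s (T i) : ℝ))⁻¹ ≤ ((l * T i) ^ (s / 40))⁻¹ := inv_anti₀ hp hUM
    have h7 : 0 ≤ 1 / |Real.log ((m:ℝ) / n)| := by positivity
    have h8 : 0 ≤ ((l * T i) ^ (s / 40))⁻¹ := by positivity
    nlinarith

end

end Pool.Agent.R461.HM
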