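import Pool.Agent.R461.HM.Jnt2

set_option autoImplicit false

/-! Band-limited shifted moments at two heights: factorisation. -/

namespace Pool.Agent.R461.HM

open Complex Filter Topology MeasureTheory Set
open scoped ContDiff ENNReal
open Pool.Agent.W182.KO

noncomputable section

/-- `ζ^k` as a product -/
def Fk (k : ℕ) : ℂ → ℂ := ZP (fun _ : Fin k => (0:ℝ))

/-- the finite Dirichlet polynomial with complex coefficients -/
def DC (a : ℕ × ℕ → ℂ) (K : ℕ) (t : ℝ) : ℂ :=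
  ∑ x ∈ SS K, a x * exp ((-(Real.log x.1 - Real.log x.2) * t : ℝ) * I)

lemma DC_le (a : ℕ × ℕ → ℂ) (K : ℕ) (t : ℝ) : ‖DC a K t‖ ≤ ∑ x ∈ SS K, ‖a x‖ := by
  unfold DC
  refine (norm_sum_le _ _).trans (Finset.sum_le_sum fun x _ => ?_)
  rw [norm_mul, Complex.norm_exp_ofReal_mul_I, mul_one]

lemma DC_cont (a : ℕ × ℕ → ℂ) (K : ℕ) : Continuous (DC a K) := by
  unfold DC
  fun_prop

/-- the data of one factor -/
theorem one_factor (k : ℕ) {ξ1 : ℝ} (hξ : 0 ≤ ξ1) {ψ : ℝ → ℂ} (h : TF ξ1 ψ) {D : ℝ} (hD : 1 ≤ D) :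
    ∃ W C2 T₀ : ℝ, 0 ≤ W ∧ 0 ≤ C2 ∧ Real.exp 1 ≤ T₀ ∧ ∀ T : ℝ, T₀ ≤ T → ∃ a : ℕ × ℕ → ℂ,
      (∑ x ∈ SS ⌊T ^ ξ1⌋₊, ‖a x‖ ≤ W * T ^ ξ1) ∧
      (∀ x : ℕ × ℕ, a x ≠ 0 → Real.log x.1 + Real.log x.2 ≤ ξ1 * Real.log T) ∧
      (∑ n ∈ Finset.Icc 1 ⌊T ^ ξ1⌋₊, a (n, n) = ((2 * Real.pi / Real.log T : ℝ) : ℂ) *
        ∑' n : ℕ, (dk k n : ℂ) * dk k n / n * ψ (2 * Real.log n / Real.log T)) ∧
      (∀ t ∈ Icc (T / D) (D * T), ‖I0 ψ (Fk k) (Fk k) (Real.log T) t - DC a ⌊T ^ ξ1⌋₊ t‖ ≤ C2 / T) ∧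
      (∀ ν : Measure ℝ, IsProbabilityMeasure ν → (∀ᵐ t ∂ν, t ∈ Icc (T / D) (D * T)) →
        AEStronglyMeasurable (I0 ψ (Fk k) (Fk k) (Real.log T)) ν) := by
  obtain ⟨κ', hκ'e⟩ : ∃ κ' : ℝ, κ' = 1 / 8 := ⟨_, rfl⟩
  have hκ' : 0 < κ' := by rw [hκ'e]; norm_num
  obtain ⟨D1, hD1, h1⟩ := tau_ptw k hκ'
  obtain ⟨C1, G1⟩ := ZP_DF (fun _ : Fin k => (0:ℝ)) hκ' hD1 (h1 _) (le_refl (2 * k)) (le_refl _)
  have E1 := ZP_DD (fun _ : Fin k => (0:ℝ)) hκ' (h1 _)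
  have hc : (1:ℝ) / 2 ≤ 1 + 4 * κ' := by linarith
  obtain ⟨Ke, hKe⟩ := exists_nat_ge ξ1
  obtain ⟨Cs, hCs, hs⟩ := shift h hξ G1 G1 hc (2 * (2 * k) + Ke + 1)
  obtain ⟨Cd, hCd, hdp⟩ := Dp_le h hκ'
  obtain ⟨S, hS⟩ : ∃ S : ℝ, S = ∑' x : ℕ × ℕ, (‖tau (fun _ : Fin k => -(((0:ℝ):ℂ) * I)) x.1‖ * (x.1 : ℝ) ^ (-(1 + 4 * κ'))) *
      (‖tau (fun _ : Fin k => -(((0:ℝ):ℂ) * I)) x.2‖ * (x.2 : ℝ) ^ (-(1 + 4 * κ'))) := ⟨_, rfl⟩
  have hsumm := SS_summable hκ' E1 E1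
  have hS0 : 0 ≤ S := by rw [hS]; exact tsum_nonneg fun x => by positivity
  have hD0 : 0 < D := by linarith
  have hR := RR_pos (fun _ : Fin k => (0:ℝ))
  refine ⟨Cd * S, Cs * ((1 + D) ^ (2 * (2 * k)) * D ^ (2 * (2 * k) + Ke + 1)),
    max (Real.exp 1) (D * (2 * RR (fun _ : Fin k => (0:ℝ)))), by positivity, by positivity, le_max_left _ _, fun T hT => ?_⟩
  have hTe : Real.exp 1 ≤ T := (le_max_left _ _).trans hT
  have hTd : D * (2 * RR (fun _ : Fin k => (0:ℝ))) ≤ T := (le_max_right _ _).trans hT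
  have hT2 : 2 ≤ T := by have := Real.add_one_le_exp 1; linarith
  have hT0 : 0 < T := by linarith
  have hT1' : 1 ≤ T := by linarith
  have hL : 1 ≤ Real.log T := by rwa [Real.le_log_iff_exp_le hT0]
  obtain ⟨L, hLd⟩ : ∃ L, L = Real.log T := ⟨_, rfl⟩
  rw [← hLd] at hL ⊢
  have hL0 : 0 < L := by linarith
  have hexpL : Real.exp (ξ1 * L) = T ^ ξ1 := by
    rw [Real.rpow_def_of_pos hT0, hLd, mul_comm]
  have hE : Real.exp (ξ1 * (L * (1 + 4 * κ' - 1 / 2))) = T ^ ξ1 := by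
    rw [← hexpL, hκ'e]
    congr 1; ring
  have hTD : 0 < T / D := by positivity
  have hU : 2 * RR (fun _ : Fin k => (0:ℝ)) ≤ T / D := by
    rw [le_div_iff₀ hD0]; linarith
  refine ⟨aa ψ (tau (fun _ : Fin k => -(((0:ℝ):ℂ) * I))) (tau (fun _ : Fin k => -(((0:ℝ):ℂ) * I))) κ' L, ?_, ?_, ?_, ?_, ?_⟩
  · calc _ ≤ ∑ x ∈ SS ⌊T ^ ξ1⌋₊, Dp ψ κ' L * ((‖tau (fun _ : Fin k => -(((0:ℝ):ℂ) * I)) x.1‖ * (x.1 : ℝ) ^ (-(1 + 4 * κ'))) *
        (‖tau (fun _ : Fin k => -(((0:ℝ):ℂ) * I)) x.2‖ * (x.2 : ℝ) ^ (-(1 + 4 * κ')))) :=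
          Finset.sum_le_sum fun x _ => aa_le L x
      _ = Dp ψ κ' L * ∑ x ∈ SS ⌊T ^ ξ1⌋₊, ((‖tau (fun _ : Fin k => -(((0:ℝ):ℂ) * I)) x.1‖ * (x.1 : ℝ) ^ (-(1 + 4 * κ'))) *
        (‖tau (fun _ : Fin k => -(((0:ℝ):ℂ) * I)) x.2‖ * (x.2 : ℝ) ^ (-(1 + 4 * κ')))) := (Finset.mul_sum _ _ _).symm
      _ ≤ Dp ψ κ' L * S := by
          refine mul_le_mul_of_nonneg_left ?_ (Dp_nonneg L)
          rw [hS]
          exact hsumm.sum_le_tsum _ fun x _ => by positivity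
      _ ≤ Cd * T ^ ξ1 * S := by
          have h2 := hdp L hL
          rw [hE] at h2
          gcongr
      _ = _ := by ring
  · rintro ⟨m, n⟩ h0
    by_contra h5
    push Not at h5
    exact h0 (aa_zero h hκ' hL h5)
  · rw [← tsum_mul_left]
    have h2 : (∑' n : ℕ, ((2 * Real.pi / L : ℝ) : ℂ) * ((dk k n : ℂ) * dk k n / n * ψ (2 * Real.log n / L))) =
        ∑ n ∈ Finset.Icc 1 ⌊T ^ ξ1⌋₊, ((2 * Real.pi / L : ℝ) : ℂ) * ((dk k n : ℂ) * dk k n / n * ψ (2 * Real.log n / L)) := by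
      refine tsum_eq_sum fun n hn => ?_
      rcases Nat.eq_zero_or_pos n with h0 | h0
      · subst h0; simp
      have hn0 : (0:ℝ) < n := by exact_mod_cast h0
      have hln : 0 ≤ Real.log n := Real.log_nonneg (by exact_mod_cast h0)
      have h3 : ⌊T ^ ξ1⌋₊ < n := by
        by_contra h4
        exact hn (Finset.mem_Icc.2 ⟨h0, not_lt.1 h4⟩)
      have h4 := (Nat.floor_lt (by positivity)).1 h3
      rw [← hexpL] at h4
      have h5 := (Real.lt_log_iff_exp_lt hn0).2 h4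
      rw [h.sp _ (by rw [lt_div_iff₀ hL0]; linarith), mul_zero, mul_zero]
    rw [h2]
    refine Finset.sum_congr rfl fun n _ => ?_
    rw [aa_diag h hκ' E1 hL n, tau_neg_zero]
  · intro t ht
    have hKDP : K0 ψ (Fk k) (Fk k) (1 + 4 * κ') L t =
        DC (aa ψ (tau (fun _ : Fin k => -(((0:ℝ):ℂ) * I))) (tau (fun _ : Fin k => -(((0:ℝ):ℂ) * I))) κ' L) ⌊T ^ ξ1⌋₊ t := by
      unfold Fk
      rw [K0_fin h hκ' E1 E1 hL t, hexpL]
      rfl
    rw [← hKDP]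
    have ht0 : 0 ≤ t := by linarith [ht.1]
    have h3 := hs L (T / D) t hL (by linarith) hU ht.1
    rw [hE] at h3
    refine h3.trans ?_
    have hEK : T ^ ξ1 ≤ T ^ Ke := by
      rw [← Real.rpow_natCast]
      exact Real.rpow_le_rpow_of_exponent_le hT1' hKe
    calc Cs * (T ^ ξ1 * (1 + t) ^ (2 * (2 * k))) / (T / D) ^ (2 * (2 * k) + Ke + 1) ≤
          Cs * (T ^ Ke * ((1 + D) * T) ^ (2 * (2 * k))) / (T / D) ^ (2 * (2 * k) + Ke + 1) := by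
          have := ht.2
          gcongr
          linarith
      _ = Cs * ((1 + D) ^ (2 * (2 * k)) * D ^ (2 * (2 * k) + Ke + 1)) / T := by
          rw [div_pow, mul_pow, pow_succ T (2 * (2 * k) + Ke), pow_add T (2 * (2 * k)) Ke]
          field_simp
  · intro ν hν hsup
    exact (I0_prod h G1 G1 hL hTD.le hsup).integral_prod_left.aestronglyMeasurable

/-- the mean of the product of two finite polynomials -/
lemma DC_joint {a b : ℕ × ℕ → ℂ} {K : ℕ} {ε : ℝ} (μ : Measure (ℝ × ℝ)) [IsProbabilityMeasure μ]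
    (hsm : ∀ x ∈ SS K, ∀ y ∈ SS K, (x.1 ≠ x.2 ∨ y.1 ≠ y.2) → a x ≠ 0 → b y ≠ 0 →
      ‖ch2 μ (-(Real.log x.1 - Real.log x.2)) (-(Real.log y.1 - Real.log y.2))‖ ≤ ε) (hε : 0 ≤ ε) :
    ‖(∫ p : ℝ × ℝ, DC a K p.1 * DC b K p.2 ∂μ) -
      (∑ n ∈ Finset.Icc 1 K, a (n, n)) * (∑ n ∈ Finset.Icc 1 K, b (n, n))‖ ≤
      ε * ((∑ x ∈ SS K, ‖a x‖) * (∑ x ∈ SS K, ‖b x‖)) := by
  have hdiag : ∀ c : ℕ × ℕ → ℂ, (∑ n ∈ Finset.Icc 1 K, c (n, n)) = ∑ x ∈ SS K, if x.1 = x.2 then c x else 0 := by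
    intro c
    unfold SS
    rw [Finset.sum_product]
    refine Finset.sum_congr rfl fun n hn => ?_
    simp only
    rw [Finset.sum_ite_eq, if_pos hn]
  have h1 : (∫ p : ℝ × ℝ, DC a K p.1 * DC b K p.2 ∂μ) = ∑ x ∈ SS K, ∑ y ∈ SS K, a x * b y *
      ch2 μ (-(Real.log x.1 - Real.log x.2)) (-(Real.log y.1 - Real.log y.2)) := by
    unfold DC
    simp only [Finset.sum_mul_sum]
    rw [integral_finsetSum]
    · refine Finset.sum_congr rfl fun x _ => ?_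
      rw [integral_finsetSum]
      · refine Finset.sum_congr rfl fun y _ => ?_
        unfold ch2
        rw [← integral_const_mul]
        congr 1; funext p
        have e1 : exp ((-(Real.log x.1 - Real.log x.2) * p.1 + -(Real.log y.1 - Real.log y.2) * p.2 : ℝ) * I) =
            exp ((-(Real.log x.1 - Real.log x.2) * p.1 : ℝ) * I) *
              exp ((-(Real.log y.1 - Real.log y.2) * p.2 : ℝ) * I) := by
          rw [← Complex.exp_add]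
          congr 1
          push_cast
          ring
        rw [e1]
        ring
      · intro y _
        refine (integrable_const ‖a x * b y‖).mono'
          (Continuous.aestronglyMeasurable (by fun_prop)) (Eventually.of_forall fun p => ?_)
        rw [norm_mul, norm_mul, norm_mul, Complex.norm_exp_ofReal_mul_I, Complex.norm_exp_ofReal_mul_I, mul_one, mul_one,
          norm_mul]
    · intro x _
      refine integrable_finsetSum _ fun y _ => ?_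
      refine (integrable_const ‖a x * b y‖).mono'
          (Continuous.aestronglyMeasurable (by fun_prop)) (Eventually.of_forall fun p => ?_)
      rw [norm_mul, norm_mul, norm_mul, Complex.norm_exp_ofReal_mul_I, Complex.norm_exp_ofReal_mul_I, mul_one, mul_one,
          norm_mul]
  rw [h1, hdiag a, hdiag b, Finset.sum_mul_sum, Finset.sum_mul_sum, ← Finset.sum_sub_distrib, Finset.mul_sum]
  refine (norm_sum_le _ _).trans (Finset.sum_le_sum fun x hx => ?_)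
  rw [← Finset.sum_sub_distrib, Finset.mul_sum]
  refine (norm_sum_le _ _).trans (Finset.sum_le_sum fun y hy => ?_)
  by_cases hd : x.1 = x.2 ∧ y.1 = y.2
  · have e1 : ch2 μ (-(Real.log x.1 - Real.log x.2)) (-(Real.log y.1 - Real.log y.2)) = 1 := by
      unfold ch2
      simp [hd.1, hd.2]
    rw [e1, if_pos hd.1, if_pos hd.2, mul_one, sub_self, norm_zero]
    positivity
  · have e1 : (if x.1 = x.2 then a x else 0) * (if y.1 = y.2 then b y else 0) = 0 := by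
      rw [not_and_or] at hd
      rcases hd with hd | hd
      · rw [if_neg hd]; simp
      · rw [if_neg hd]; simp
    rw [e1, sub_zero, norm_mul, norm_mul]
    by_cases h0 : a x = 0
    · rw [h0, norm_zero]; simp
    by_cases h0' : b y = 0
    · rw [h0', norm_zero]; simp
    have h4 := hsm x hx y hy (by rw [not_and_or] at hd; exact hd) h0 h0'
    calc ‖a x‖ * ‖b y‖ * ‖ch2 μ (-(Real.log x.1 - Real.log x.2)) (-(Real.log y.1 - Real.log y.2))‖ ≤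
          ‖a x‖ * ‖b y‖ * ε := by gcongr
      _ = _ := by ring

/-- the band-limited average over the shift at one height -/
def Gk (k : ℕ) (ψ : ℝ → ℂ) (T t : ℝ) : ℂ :=
  ∫ α : ℝ, P ψ (α * I) * (((Real.log T : ℂ) ^ (k ^ 2))⁻¹ *
    (riemannZeta (1 / 2 + I * α / Real.log T + I * t) ^ k * riemannZeta (1 / 2 + I * α / Real.log T - I * t) ^ k))

lemma Gk_eq (k : ℕ) (ψ : ℝ → ℂ) {T : ℝ} (hL0 : 0 < Real.log T) (t : ℝ) :
    Gk k ψ T t = ((Real.log T : ℂ) ^ (k ^ 2))⁻¹ * Real.log T * I0 ψ (Fk k) (Fk k) (Real.log T) t := by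
  obtain ⟨L, hLd⟩ : ∃ L, L = Real.log T := ⟨_, rfl⟩
  rw [← hLd] at hL0 ⊢
  have hLc : (L : ℂ) ≠ 0 := by exact_mod_cast hL0.ne'
  unfold Gk
  rw [← hLd]
  have h4 := Measure.integral_comp_mul_left (fun α : ℝ => P ψ (α * I) * (((L : ℂ) ^ (k ^ 2))⁻¹ *
    (riemannZeta (1 / 2 + I * α / L + I * t) ^ k * riemannZeta (1 / 2 + I * α / L - I * t) ^ k))) L
  have h6 : (∫ α : ℝ, P ψ (α * I) * (((L : ℂ) ^ (k ^ 2))⁻¹ *
    (riemannZeta (1 / 2 + I * α / L + I * t) ^ k * riemannZeta (1 / 2 + I * α / L - I * t) ^ k))) =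
      (L : ℂ) * ∫ y : ℝ, (P ψ ((L * y : ℝ) * I) * (((L : ℂ) ^ (k ^ 2))⁻¹ *
    (riemannZeta (1 / 2 + I * (L * y : ℝ) / L + I * t) ^ k * riemannZeta (1 / 2 + I * (L * y : ℝ) / L - I * t) ^ k))) := by
    rw [h4, abs_of_pos (by positivity), Complex.real_smul, ← mul_assoc, ← Complex.ofReal_mul, mul_inv_cancel₀ hL0.ne',
      Complex.ofReal_one, one_mul]
  rw [h6]
  unfold I0 Fk
  rw [mul_comm (((L : ℂ) ^ (k ^ 2))⁻¹) (L : ℂ), mul_assoc, ← integral_const_mul (((L : ℂ) ^ (k ^ 2))⁻¹)]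
  congr 2; funext y
  have e1 : (1 / 2 + I * (L * y : ℝ) / L + I * t : ℂ) = 1 / 2 + (y + t : ℝ) * I := by
    push_cast
    field_simp
    ring
  have e2 : (1 / 2 + I * (L * y : ℝ) / L - I * t : ℂ) = 1 / 2 + (y - t : ℝ) * I := by
    push_cast
    field_simp
    ring
  rw [e1, e2, ZP_zero, ZP_zero]
  push_cast
  ring

end

end Pool.Agent.R461.HM
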