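import Pool.Agent.R461.HM.JAs

set_option autoImplicit false

/-! The factorisation of the band-limited shifted moments at two heights. -/

namespace Pool.Agent.R461.HM

open Complex Filter Topology MeasureTheory Set
open scoped ContDiff ENNReal
open Pool.Agent.W182.KO

noncomputable section

/-- the limit at one height -/
def lim1 (k : ℕ) (ψ : ℝ → ℂ) : ℂ :=
  2 * Real.pi * ak k * ∫ u in Set.Ioi (0:ℝ), (u : ℂ) ^ (k ^ 2 - 1) / (k ^ 2 - 1).factorial * ψ (2 * u)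

lemma tendsto_lim1 {k : ℕ} (hk : 1 ≤ k) {ξ1 : ℝ} (hξ : 0 ≤ ξ1) {ψ : ℝ → ℂ} (h : TF ξ1 ψ) :
    Tendsto (fun T : ℝ => 2 * (Real.pi : ℂ) * ((∑' n : ℕ, (dk k n : ℂ) * dk k n / n * ψ (2 * Real.log n / Real.log T)) /
      (Real.log T : ℂ) ^ (k ^ 2))) atTop (𝓝 (lim1 k ψ)) := by
  have hdiag := diag_limit hk ψ h.cont (ξ1 + 1) (by linarith) (fun u hu => h.sp u (by linarith))
  rw [H306R2.aF_nat k hk] at hdiag
  have hd1 := (hdiag.comp Real.tendsto_log_atTop).const_mul (2 * Real.pi : ℂ)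
  have e : lim1 k ψ = 2 * (Real.pi : ℂ) * ((((∏' p : Nat.Primes, ((1 - 1 / (p : ℝ)) ^ (k ^ 2) *
      ∑' m : ℕ, ((m + k - 1).choose m : ℝ) ^ 2 * (1 / (p : ℝ)) ^ m) : ℝ) : ℂ) *
        ∫ u in Set.Ioi (0:ℝ), (u : ℂ) ^ (k ^ 2 - 1) / (k ^ 2 - 1).factorial * ψ (2 * u))) := by
    unfold lim1 ak
    ring
  rw [e]
  exact hd1

/-- the factorisation -/
theorem joint_asym {k l : ℕ} (hk : 1 ≤ k) (hl : 1 ≤ l) {κ : ℝ} (hκ : 0 < κ) (hκ1 : κ ≤ 1) {ψ1 ψ2 : ℝ → ℂ}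
    (h1 : TF (κ / 4) ψ1) (h2 : TF (κ / 4) ψ2) {D : ℝ} (hD : 1 ≤ D) (η : ℝ) (hη : 0 < η) :
    ∃ T₀ : ℝ, Real.exp 1 ≤ T₀ ∧ ∀ T : ℝ, T₀ ≤ T → ∀ μ : Measure (ℝ × ℝ),
      IsProbabilityMeasure μ → (∀ᵐ p ∂μ, p.1 ∈ Icc (T / D) (D * T) ∧ p.2 ∈ Icc (T / D) (D * T)) →
      (∀ m n m' n' : ℕ, 1 ≤ m → 1 ≤ n → 1 ≤ m' → 1 ≤ n' → (m ≠ n ∨ m' ≠ n') → (m : ℝ) * n ≤ T ^ κ → (m' : ℝ) * n' ≤ T ^ κ →
        ‖∫ p : ℝ × ℝ, exp (I * (p.1 * Real.log (m / n) + p.2 * Real.log (m' / n'))) ∂μ‖ ≤ T ^ (-κ)) →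
      ‖(∫ p : ℝ × ℝ, Gk k ψ1 T p.1 * Gk l ψ2 T p.2 ∂μ) - lim1 k ψ1 * lim1 l ψ2‖ ≤ η := by
  have hκ4 : (0:ℝ) ≤ κ / 4 := by positivity
  obtain ⟨W1, C1, T1, hW1, hC1, hT1, hf1⟩ := one_factor k hκ4 h1 hD
  obtain ⟨W2, C2, T2, hW2, hC2, hT2, hf2⟩ := one_factor l hκ4 h2 hD
  have hprod := (tendsto_lim1 hk hκ4 h1).mul (tendsto_lim1 hl hκ4 h2)
  have herr : Tendsto (fun T : ℝ => (C1 * (W2 + C2) + W1 * C2) * T ^ (-(3 / 4) : ℝ) + W1 * W2 * T ^ (-(κ / 2))) atTop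
      (𝓝 ((C1 * (W2 + C2) + W1 * C2) * 0 + W1 * W2 * 0)) :=
    ((tendsto_rpow_neg_atTop (by norm_num)).const_mul _).add ((tendsto_rpow_neg_atTop (by positivity)).const_mul _)
  rw [mul_zero, mul_zero, add_zero] at herr
  obtain ⟨T3, hT3⟩ := eventually_atTop.mp ((Metric.tendsto_nhds.mp hprod (η / 2) (by positivity)).and
    (herr.eventually (gt_mem_nhds (show 0 < η / 2 by positivity))))
  refine ⟨max T1 (max T2 T3), hT1.trans (le_max_left _ _), fun T hT μ hμ hsup hsmall => ?_⟩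
  have hTa : T1 ≤ T := (le_max_left _ _).trans hT
  have hTb : T2 ≤ T := ((le_max_left _ _).trans (le_max_right _ _)).trans hT
  have hTc : T3 ≤ T := ((le_max_right _ _).trans (le_max_right _ _)).trans hT
  have hTe : Real.exp 1 ≤ T := hT1.trans hTa
  have hT2' : 2 ≤ T := by have := Real.add_one_le_exp 1; linarith
  have hT0 : 0 < T := by linarith
  have hT1'' : 1 ≤ T := by linarith
  have hL : 1 ≤ Real.log T := by rwa [Real.le_log_iff_exp_le hT0]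
  have hL0 : 0 < Real.log T := by linarith
  obtain ⟨hfin, herrT⟩ := hT3 T hTc
  rw [dist_eq_norm] at hfin
  obtain ⟨a, ha1, ha2, ha3, ha4, ha5⟩ := hf1 T hTa
  obtain ⟨b, hb1, hb2, hb3, hb4, hb5⟩ := hf2 T hTb
  obtain ⟨K, hK⟩ : ∃ K, K = ⌊T ^ (κ / 4)⌋₊ := ⟨_, rfl⟩
  rw [← hK] at ha1 ha3 ha4 hb1 hb3 hb4
  set F1 := I0 ψ1 (Fk k) (Fk k) (Real.log T) with hF1
  set F2 := I0 ψ2 (Fk l) (Fk l) (Real.log T) with hF2
  have hw1 : 0 ≤ W1 * T ^ (κ / 4) := by positivity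
  have hw2 : 0 ≤ W2 * T ^ (κ / 4) := by positivity
  have he1 : 0 ≤ C1 / T := by positivity
  have he2 : 0 ≤ C2 / T := by positivity
  have hDa : ∀ t, ‖DC a K t‖ ≤ W1 * T ^ (κ / 4) := fun t => (DC_le a K t).trans ha1
  have hDb : ∀ t, ‖DC b K t‖ ≤ W2 * T ^ (κ / 4) := fun t => (DC_le b K t).trans hb1
  have hFb : ∀ t ∈ Icc (T / D) (D * T), ‖F2 t‖ ≤ W2 * T ^ (κ / 4) + C2 / T := by
    intro t ht
    have h3 := norm_add_le (DC b K t) (F2 t - DC b K t)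
    rw [add_sub_cancel] at h3
    linarith [hDb t, hb4 t ht]
  have hFa : ∀ t ∈ Icc (T / D) (D * T), ‖F1 t‖ ≤ W1 * T ^ (κ / 4) + C1 / T := by
    intro t ht
    have h3 := norm_add_le (DC a K t) (F1 t - DC a K t)
    rw [add_sub_cancel] at h3
    linarith [hDa t, ha4 t ht]
  -- measurability
  have hmF1 : AEStronglyMeasurable (fun p : ℝ × ℝ => F1 p.1) μ := by
    have h3 := ha5 (μ.map Prod.fst) (Measure.isProbabilityMeasure_map measurable_fst.aemeasurable) (by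
      refine (ae_map_iff (p := fun t => t ∈ Icc (T / D) (D * T)) measurable_fst.aemeasurable measurableSet_Icc).2 ?_
      filter_upwards [hsup] with p hp
      exact hp.1)
    exact h3.comp_measurable measurable_fst
  have hmF2 : AEStronglyMeasurable (fun p : ℝ × ℝ => F2 p.2) μ := by
    have h3 := hb5 (μ.map Prod.snd) (Measure.isProbabilityMeasure_map measurable_snd.aemeasurable) (by
      refine (ae_map_iff (p := fun t => t ∈ Icc (T / D) (D * T)) measurable_snd.aemeasurable measurableSet_Icc).2 ?_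
      filter_upwards [hsup] with p hp
      exact hp.2)
    exact h3.comp_measurable measurable_snd
  have hiF : Integrable (fun p : ℝ × ℝ => F1 p.1 * F2 p.2) μ := by
    refine (integrable_const ((W1 * T ^ (κ / 4) + C1 / T) * (W2 * T ^ (κ / 4) + C2 / T))).mono' (hmF1.mul hmF2) ?_
    filter_upwards [hsup] with p hp
    rw [norm_mul]
    exact mul_le_mul (hFa p.1 hp.1) (hFb p.2 hp.2) (norm_nonneg _) (by positivity)
  have hiD : Integrable (fun p : ℝ × ℝ => DC a K p.1 * DC b K p.2) μ := by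
    have hc : Continuous fun p : ℝ × ℝ => DC a K p.1 * DC b K p.2 :=
      ((DC_cont a K).comp continuous_fst).mul ((DC_cont b K).comp continuous_snd)
    refine (integrable_const ((W1 * T ^ (κ / 4)) * (W2 * T ^ (κ / 4)))).mono' hc.aestronglyMeasurable
      (Eventually.of_forall fun p => ?_)
    rw [norm_mul]
    exact mul_le_mul (hDa p.1) (hDb p.2) (norm_nonneg _) (by positivity)
  have hAB : ‖(∫ p : ℝ × ℝ, F1 p.1 * F2 p.2 ∂μ) - ∫ p : ℝ × ℝ, DC a K p.1 * DC b K p.2 ∂μ‖ ≤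
      C1 / T * (W2 * T ^ (κ / 4) + C2 / T) + W1 * T ^ (κ / 4) * (C2 / T) := by
    rw [← integral_sub hiF hiD]
    have h3 := norm_integral_le_of_norm_le_const (μ := μ)
      (f := fun p : ℝ × ℝ => F1 p.1 * F2 p.2 - DC a K p.1 * DC b K p.2)
      (C := C1 / T * (W2 * T ^ (κ / 4) + C2 / T) + W1 * T ^ (κ / 4) * (C2 / T)) (by
        filter_upwards [hsup] with p hp
        have e1 : F1 p.1 * F2 p.2 - DC a K p.1 * DC b K p.2 = (F1 p.1 - DC a K p.1) * F2 p.2 +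
            DC a K p.1 * (F2 p.2 - DC b K p.2) := by ring
        rw [e1]
        refine (norm_add_le _ _).trans ?_
        rw [norm_mul, norm_mul]
        exact add_le_add (mul_le_mul (ha4 p.1 hp.1) (hFb p.2 hp.2) (norm_nonneg _) he1)
          (mul_le_mul (hDa p.1) (hb4 p.2 hp.2) (norm_nonneg _) hw1))
    rwa [probReal_univ, mul_one] at h3
  have hsm : ∀ x ∈ SS K, ∀ y ∈ SS K, (x.1 ≠ x.2 ∨ y.1 ≠ y.2) → a x ≠ 0 → b y ≠ 0 →
      ‖ch2 μ (-(Real.log x.1 - Real.log x.2)) (-(Real.log y.1 - Real.log y.2))‖ ≤ T ^ (-κ) := by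
    rintro ⟨m, n⟩ hx ⟨m', n'⟩ hy hne h0 h0'
    unfold SS at hx hy
    rw [Finset.mem_product, Finset.mem_Icc, Finset.mem_Icc] at hx hy
    simp only at hx hy hne
    have hm0 : (0:ℝ) < m := by exact_mod_cast hx.1.1
    have hn0 : (0:ℝ) < n := by exact_mod_cast hx.2.1
    have hm0' : (0:ℝ) < m' := by exact_mod_cast hy.1.1
    have hn0' : (0:ℝ) < n' := by exact_mod_cast hy.2.1
    have hle : κ / 4 * Real.log T ≤ κ * Real.log T := by nlinarith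
    have h3 : (n:ℝ) * m ≤ T ^ κ := by
      rw [Real.rpow_def_of_pos hT0, ← Real.log_le_iff_le_exp (by positivity), Real.log_mul hn0.ne' hm0.ne']
      have := ha2 (m, n) h0
      simp only at this
      linarith
    have h4 : (n':ℝ) * m' ≤ T ^ κ := by
      rw [Real.rpow_def_of_pos hT0, ← Real.log_le_iff_le_exp (by positivity), Real.log_mul hn0'.ne' hm0'.ne']
      have := hb2 (m', n') h0'
      simp only at this
      linarith
    have h5 := hsmall n m n' m' hx.2.1 hx.1.1 hy.2.1 hy.1.1 (hne.imp Ne.symm Ne.symm) h3 h4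
    refine le_trans (le_of_eq ?_) h5
    unfold ch2
    congr 2; funext p
    congr 1
    rw [Real.log_div hn0.ne' hm0.ne', Real.log_div hn0'.ne' hm0'.ne']
    push_cast
    ring
  have hB := DC_joint (a := a) (b := b) (K := K) μ hsm (by positivity : (0:ℝ) ≤ T ^ (-κ))
  have hB2 : T ^ (-κ) * ((∑ x ∈ SS K, ‖a x‖) * (∑ x ∈ SS K, ‖b x‖)) ≤ W1 * W2 * T ^ (-(κ / 2)) := by
    have hbn : 0 ≤ ∑ x ∈ SS K, ‖b x‖ := Finset.sum_nonneg fun x _ => norm_nonneg _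
    calc T ^ (-κ) * ((∑ x ∈ SS K, ‖a x‖) * (∑ x ∈ SS K, ‖b x‖)) ≤
          T ^ (-κ) * ((W1 * T ^ (κ / 4)) * (W2 * T ^ (κ / 4))) := by gcongr
      _ = W1 * W2 * (T ^ (-κ) * T ^ (κ / 4) * T ^ (κ / 4)) := by ring
      _ = _ := by rw [← Real.rpow_add hT0, ← Real.rpow_add hT0]; congr 2; ring
  have hA2 : C1 / T * (W2 * T ^ (κ / 4) + C2 / T) + W1 * T ^ (κ / 4) * (C2 / T) ≤
      (C1 * (W2 + C2) + W1 * C2) * T ^ (-(3 / 4) : ℝ) := by
    have e34 : T ^ (-(3 / 4) : ℝ) = T ^ (1 / 4 : ℝ) / T := by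
      rw [← Real.rpow_sub_one hT0.ne']; norm_num
    have hk4 : T ^ (κ / 4) ≤ T ^ (1 / 4 : ℝ) := Real.rpow_le_rpow_of_exponent_le hT1'' (by linarith)
    have h14 : (1:ℝ) ≤ T ^ (1 / 4 : ℝ) := Real.one_le_rpow hT1'' (by norm_num)
    have hC2T : C2 / T ≤ C2 * T ^ (1 / 4 : ℝ) := by
      have : C2 / T ≤ C2 := div_le_self hC2 hT1''
      nlinarith
    rw [e34]
    calc C1 / T * (W2 * T ^ (κ / 4) + C2 / T) + W1 * T ^ (κ / 4) * (C2 / T) ≤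
          C1 / T * (W2 * T ^ (1 / 4 : ℝ) + C2 * T ^ (1 / 4 : ℝ)) + W1 * T ^ (1 / 4 : ℝ) * (C2 / T) := by gcongr
      _ = _ := by ring
  set A := ∫ p : ℝ × ℝ, F1 p.1 * F2 p.2 ∂μ with hA
  set d1 := ∑ n ∈ Finset.Icc 1 K, a (n, n) with hd1
  set d2 := ∑ n ∈ Finset.Icc 1 K, b (n, n) with hd2
  have hAd : ‖A - d1 * d2‖ ≤ (C1 * (W2 + C2) + W1 * C2) * T ^ (-(3 / 4) : ℝ) + W1 * W2 * T ^ (-(κ / 2)) := by
    have e1 : A - d1 * d2 = (A - ∫ p : ℝ × ℝ, DC a K p.1 * DC b K p.2 ∂μ) +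
        ((∫ p : ℝ × ℝ, DC a K p.1 * DC b K p.2 ∂μ) - d1 * d2) := by ring
    rw [e1]
    exact (norm_add_le _ _).trans (add_le_add (hAB.trans hA2) (hB.trans hB2))
  have hLc : (Real.log T : ℂ) ≠ 0 := by exact_mod_cast hL0.ne'
  have hGG : (∫ p : ℝ × ℝ, Gk k ψ1 T p.1 * Gk l ψ2 T p.2 ∂μ) =
      ((((Real.log T : ℂ) ^ (k ^ 2))⁻¹ * Real.log T) * (((Real.log T : ℂ) ^ (l ^ 2))⁻¹ * Real.log T)) * A := by
    rw [hA, ← integral_const_mul]
    congr 1; funext p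
    rw [Gk_eq k ψ1 hL0, Gk_eq l ψ2 hL0]
    ring
  have hcn : ∀ j : ℕ, 1 ≤ j → ‖((Real.log T : ℂ) ^ (j ^ 2))⁻¹ * Real.log T‖ ≤ 1 := by
    intro j hj
    rw [norm_mul, norm_inv, norm_pow, Complex.norm_real, Real.norm_of_nonneg hL0.le, inv_mul_le_iff₀ (by positivity), mul_one]
    exact le_self_pow₀ hL (by positivity)
  have hfT : ((((Real.log T : ℂ) ^ (k ^ 2))⁻¹ * Real.log T) * (((Real.log T : ℂ) ^ (l ^ 2))⁻¹ * Real.log T)) * (d1 * d2) =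
      2 * (Real.pi : ℂ) * ((∑' n : ℕ, (dk k n : ℂ) * dk k n / n * ψ1 (2 * Real.log n / Real.log T)) /
      (Real.log T : ℂ) ^ (k ^ 2)) *
      (2 * (Real.pi : ℂ) * ((∑' n : ℕ, (dk l n : ℂ) * dk l n / n * ψ2 (2 * Real.log n / Real.log T)) /
      (Real.log T : ℂ) ^ (l ^ 2))) := by
    rw [ha3, hb3]
    push_cast
    field_simp
  have e2 : (∫ p : ℝ × ℝ, Gk k ψ1 T p.1 * Gk l ψ2 T p.2 ∂μ) - lim1 k ψ1 * lim1 l ψ2 =
      ((((Real.log T : ℂ) ^ (k ^ 2))⁻¹ * Real.log T) * (((Real.log T : ℂ) ^ (l ^ 2))⁻¹ * Real.log T)) * (A - d1 * d2) +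
      (((((Real.log T : ℂ) ^ (k ^ 2))⁻¹ * Real.log T) * (((Real.log T : ℂ) ^ (l ^ 2))⁻¹ * Real.log T)) * (d1 * d2) -
        lim1 k ψ1 * lim1 l ψ2) := by
    rw [hGG]; ring
  rw [e2]
  refine (norm_add_le _ _).trans ?_
  rw [hfT]
  have h10 : ‖((((Real.log T : ℂ) ^ (k ^ 2))⁻¹ * Real.log T) * (((Real.log T : ℂ) ^ (l ^ 2))⁻¹ * Real.log T)) *
      (A - d1 * d2)‖ ≤ (C1 * (W2 + C2) + W1 * C2) * T ^ (-(3 / 4) : ℝ) + W1 * W2 * T ^ (-(κ / 2)) := by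
    rw [norm_mul, norm_mul]
    calc _ ≤ 1 * 1 * ‖A - d1 * d2‖ := by
          gcongr
          · exact hcn k hk
          · exact hcn l hl
      _ ≤ _ := by rw [one_mul, one_mul]; exact hAd
  linarith

end

end Pool.Agent.R461.HM
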