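import Pool.Agent.R461.HM.Pow3
import Pool.Agent.R461.HM.Dil2

set_option autoImplicit false

/-! Joint moments at two heights. -/

namespace Pool.Agent.R461.HM

open Complex Filter Topology MeasureTheory Set
open scoped ContDiff ENNReal
open Pool.Agent.W182.KO

noncomputable section

/-- the polynomial below the local mean square -/
lemma poly_core (N : ℕ) {ξ1 : ℝ} (hξ : 0 < ξ1) : ∃ B : ℝ, 0 < B ∧ ∀ D : ℝ, 1 ≤ D → ∃ C2 T₀ : ℝ, 0 ≤ C2 ∧ Real.exp 1 ≤ T₀ ∧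
    ∀ T : ℝ, T₀ ≤ T → ∃ α : ℕ × ℕ → ℝ, (∀ x, 0 ≤ α x) ∧ (∀ x ∈ SS ⌊T ^ ξ1⌋₊, α x ≤ 2 * Real.pi) ∧
      (∀ x : ℕ × ℕ, α x ≠ 0 → Real.log x.1 + Real.log x.2 ≤ ξ1 * Real.log T) ∧
      (∀ m n : ℕ, 1 ≤ m → 1 ≤ n → m ≤ ⌊T ^ (ξ1 / 4)⌋₊ → n ≤ ⌊T ^ (ξ1 / 4)⌋₊ →
        α (m, n) = 2 * Real.pi / Real.log T * ((m:ℝ) * n) ^ (-(1/2) : ℝ)) ∧
      ∀ t ∈ Icc (T / D) (D * T), ‖DP α ⌊T ^ ξ1⌋₊ t‖ₑ ≤
        ENNReal.ofReal (B * (Real.log T)⁻¹) * loc 1 N T t + ENNReal.ofReal (C2 / T) := by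
  set f : ContDiffBump (0:ℝ) := ⟨ξ1 / 2, ξ1, by positivity, by linarith⟩ with hf
  have hfs : ∀ ξ : ℝ, ξ1 ≤ ξ → f ξ = 0 := fun ξ h =>
    f.zero_of_le_dist (by rw [Real.dist_eq, sub_zero]; exact h.trans (le_abs_self _))
  have hf1 : ∀ ξ : ℝ, |ξ| ≤ ξ1 / 2 → f ξ = 1 := fun ξ h =>
    f.one_of_mem_closedBall (by rw [Metric.mem_closedBall, Real.dist_eq, sub_zero]; exact h)
  obtain ⟨ψ, hψ⟩ : ∃ ψ : ℝ → ℂ, ψ = fun ξ => (f ξ : ℂ) := ⟨_, rfl⟩
  have hTF : TF ξ1 ψ := by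
    rw [hψ]
    exact ⟨Complex.ofRealCLM.contDiff.comp f.contDiff,
      f.hasCompactSupport.comp_left (g := fun x : ℝ => (x : ℂ)) (by simp), fun ξ h => by
        show ((f ξ : ℝ) : ℂ) = 0
        rw [hfs ξ h.le]; simp⟩
  obtain ⟨Cφ, hCφ, hP⟩ := P_bound hTF N
  have hφ : ∀ α : ℝ, ‖P ψ (α * I)‖ ≤ (Cφ + 1) / (1 + |α|) ^ N := by
    intro α
    have h1 := hP (α * I) (by simp)
    have e1 : ((α:ℂ) * I).re = 0 := by simp
    have e2 : ‖(α:ℂ) * I‖ = |α| := by simp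
    rw [e1, e2, mul_zero, Real.exp_zero, mul_one] at h1
    rw [le_div_iff₀ (by positivity)]
    linarith
  obtain ⟨κ', hκ'⟩ : ∃ κ' : ℝ, 0 < κ' := ⟨1, one_pos⟩
  obtain ⟨D1, hD1, h1⟩ := tau_ptw 1 hκ'
  obtain ⟨C1, G1⟩ := ZP_DF (fun _ : Fin 1 => (0:ℝ)) hκ' hD1 (h1 _) (show 2 * 1 ≤ 2 by omega) (le_refl _)
  have E1 := ZP_DD (fun _ : Fin 1 => (0:ℝ)) hκ' (h1 _)
  have hc : (1:ℝ) / 2 ≤ 1 + 4 * κ' := by linarith
  obtain ⟨Ke, hKe⟩ := exists_nat_ge (ξ1 * (1 / 2 + 4 * κ'))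
  obtain ⟨Cs, hCs, hs⟩ := shift hTF hξ.le G1 G1 hc (2 * 2 + Ke + 1)
  refine ⟨Cφ + 1, by positivity, fun D hD => ?_⟩
  have hD0 : 0 < D := by linarith
  have hR := RR_pos (fun _ : Fin 1 => (0:ℝ))
  refine ⟨Cs * ((1 + D) ^ (2 * 2) * D ^ (2 * 2 + Ke + 1)), max (Real.exp 1) (D * (2 * RR (fun _ : Fin 1 => (0:ℝ)))),
    by positivity, le_max_left _ _, fun T hT => ?_⟩
  have hTe : Real.exp 1 ≤ T := (le_max_left _ _).trans hT
  have hTd : D * (2 * RR (fun _ : Fin 1 => (0:ℝ))) ≤ T := (le_max_right _ _).trans hT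
  have hT2 : 2 ≤ T := by have := Real.add_one_le_exp 1; linarith
  have hT0 : 0 < T := by linarith
  have hT1' : 1 ≤ T := by linarith
  have hL : 1 ≤ Real.log T := by rwa [Real.le_log_iff_exp_le hT0]
  obtain ⟨L, hLd⟩ : ∃ L, L = Real.log T := ⟨_, rfl⟩
  rw [← hLd] at hL
  have hL0 : 0 < L := by linarith
  have hexpL : Real.exp (ξ1 * L) = T ^ ξ1 := by
    rw [Real.rpow_def_of_pos hT0, hLd, mul_comm]
  have hU : 2 * RR (fun _ : Fin 1 => (0:ℝ)) ≤ T / D := by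
    rw [le_div_iff₀ hD0]; linarith
  refine ⟨fun x => 2 * Real.pi / L * ((((x.1:ℝ) * x.2) ^ (-(1 / 2) : ℝ)) *
    f ((Real.log x.1 + Real.log x.2) / L)), ?_, ?_, ?_, ?_, ?_⟩
  · intro x
    have := f.nonneg (x := (Real.log x.1 + Real.log x.2) / L)
    have hpi := Real.pi_pos
    positivity
  · rintro ⟨m, n⟩ hx
    have hpi := Real.pi_pos
    unfold SS at hx
    rw [Finset.mem_product, Finset.mem_Icc, Finset.mem_Icc] at hx
    have hm1 : (1:ℝ) ≤ m := by exact_mod_cast hx.1.1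
    have hn1 : (1:ℝ) ≤ n := by exact_mod_cast hx.2.1
    simp only
    have h2 : ((m:ℝ) * n) ^ (-(1 / 2) : ℝ) ≤ 1 :=
      Real.rpow_le_one_of_one_le_of_nonpos (by nlinarith) (by norm_num)
    have h3 := f.le_one (x := (Real.log m + Real.log n) / L)
    have h4 := f.nonneg (x := (Real.log m + Real.log n) / L)
    have h5 : 2 * Real.pi / L ≤ 2 * Real.pi := div_le_self (by positivity) hL
    have h6 : 0 ≤ ((m:ℝ) * n) ^ (-(1 / 2) : ℝ) := by positivity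
    calc _ ≤ 2 * Real.pi * (1 * 1) := by gcongr
      _ = _ := by ring
  · intro x h0
    by_contra h5
    push Not at h5
    apply h0
    simp only
    rw [hfs _ (by rw [le_div_iff₀ hL0, hLd]; exact h5.le), mul_zero, mul_zero]
  · intro m n hm hn hm' hn'
    have hm0 : (0:ℝ) < m := by exact_mod_cast hm
    have hn0 : (0:ℝ) < n := by exact_mod_cast hn
    have hlm : 0 ≤ Real.log m := Real.log_nonneg (by exact_mod_cast hm)
    have hln : 0 ≤ Real.log n := Real.log_nonneg (by exact_mod_cast hn)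
    have hK'le : ((⌊T ^ (ξ1 / 4)⌋₊ : ℕ) : ℝ) ≤ T ^ (ξ1 / 4) := Nat.floor_le (by positivity)
    have h2 : Real.log m ≤ ξ1 / 4 * L := by
      rw [Real.log_le_iff_le_exp hm0, mul_comm, hLd, ← Real.rpow_def_of_pos hT0]
      exact le_trans (by exact_mod_cast hm') hK'le
    have h3 : Real.log n ≤ ξ1 / 4 * L := by
      rw [Real.log_le_iff_le_exp hn0, mul_comm, hLd, ← Real.rpow_def_of_pos hT0]
      exact le_trans (by exact_mod_cast hn') hK'le
    simp only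
    rw [hf1 _ (by
      rw [abs_of_nonneg (by positivity), div_le_iff₀ hL0]
      linarith), mul_one, hLd]
  · intro t ht
    have hKDP : K0 ψ (ZP (fun _ : Fin 1 => (0:ℝ))) (ZP (fun _ : Fin 1 => (0:ℝ))) (1 + 4 * κ') L t =
        DP (fun x => 2 * Real.pi / L * ((((x.1:ℝ) * x.2) ^ (-(1 / 2) : ℝ)) *
    f ((Real.log x.1 + Real.log x.2) / L))) ⌊T ^ ξ1⌋₊ t := by
      rw [K0_fin hTF hκ' E1 E1 hL t, hexpL]
      unfold DP
      refine Finset.sum_congr rfl ?_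
      rintro ⟨m, n⟩ hx
      unfold SS at hx
      rw [Finset.mem_product, Finset.mem_Icc, Finset.mem_Icc] at hx
      rw [aa_val hTF hκ' hL hx.1.1 hx.2.1, tau_neg_zero, tau_neg_zero, dk_one hx.1.1, dk_one hx.2.1, hψ]
      push_cast
      ring
    have h2 := I0_le N hTe (by positivity : 0 ≤ Cφ + 1) hφ t
    rw [← hLd] at h2 ⊢
    have hTD : 0 < T / D := by positivity
    have ht0 : 0 ≤ t := by linarith [ht.1]
    have h3 := hs L (T / D) t hL (by linarith) hU ht.1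
    have hE : Real.exp (ξ1 * (L * (1 + 4 * κ' - 1 / 2))) ≤ T ^ Ke := by
      have h4 : Real.exp (ξ1 * (L * (1 + 4 * κ' - 1 / 2))) = T ^ (ξ1 * (1 / 2 + 4 * κ')) := by
        rw [Real.rpow_def_of_pos hT0]
        congr 1; rw [hLd]; ring
      rw [h4, ← Real.rpow_natCast]
      exact Real.rpow_le_rpow_of_exponent_le hT1' hKe
    have h5 : ‖I0 ψ (ZP (fun _ : Fin 1 => (0:ℝ))) (ZP (fun _ : Fin 1 => (0:ℝ))) L t -
        K0 ψ (ZP (fun _ : Fin 1 => (0:ℝ))) (ZP (fun _ : Fin 1 => (0:ℝ))) (1 + 4 * κ') L t‖ ≤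
        Cs * ((1 + D) ^ (2 * 2) * D ^ (2 * 2 + Ke + 1)) / T := by
      refine h3.trans ?_
      calc Cs * (Real.exp (ξ1 * (L * (1 + 4 * κ' - 1 / 2))) * (1 + t) ^ (2 * 2)) / (T / D) ^ (2 * 2 + Ke + 1) ≤
            Cs * (T ^ Ke * ((1 + D) * T) ^ (2 * 2)) / (T / D) ^ (2 * 2 + Ke + 1) := by
            have := ht.2
            gcongr
            linarith
        _ = Cs * ((1 + D) ^ (2 * 2) * D ^ (2 * 2 + Ke + 1)) / T := by
            rw [div_pow, mul_pow, pow_succ T (2 * 2 + Ke), pow_add T (2 * 2) Ke]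
            field_simp
    rw [← hKDP]
    set a := I0 ψ (ZP (fun _ : Fin 1 => (0:ℝ))) (ZP (fun _ : Fin 1 => (0:ℝ))) L t with ha
    set b := K0 ψ (ZP (fun _ : Fin 1 => (0:ℝ))) (ZP (fun _ : Fin 1 => (0:ℝ))) (1 + 4 * κ') L t with hb
    have h6 : ‖b‖ₑ ≤ ‖a‖ₑ + ‖a - b‖ₑ := by
      have : b = a - (a - b) := by ring
      nth_rewrite 1 [this]
      exact enorm_sub_le
    refine h6.trans (add_le_add h2 ?_)
    rw [← ofReal_norm]
    exact ENNReal.ofReal_le_ofReal h5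

/-- the joint character -/
def ch2 (μ : Measure (ℝ × ℝ)) (a b : ℝ) : ℂ := ∫ p : ℝ × ℝ, exp ((a * p.1 + b * p.2 : ℝ) * I) ∂μ

variable {q r K : ℕ}

/-- the diagonal sum -/
def Dg (α : ℕ × ℕ → ℝ) (q K : ℕ) : ℝ :=
  ∑ g ∈ (Fintype.piFinset (fun _ : Fin q => SS K)).filter (fun g => P1 g = P2 g), ∏ i, α (g i)

lemma joint_lower {α : ℕ × ℕ → ℝ} {A0 ε : ℝ} (hA0 : 0 ≤ A0) (hα0 : ∀ x, 0 ≤ α x) (hα1 : ∀ x ∈ SS K, α x ≤ A0) (hε : 0 ≤ ε)
    (μ : Measure (ℝ × ℝ)) [IsProbabilityMeasure μ]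
    (hsm : ∀ g ∈ Fintype.piFinset (fun _ : Fin q => SS K), ∀ g' ∈ Fintype.piFinset (fun _ : Fin r => SS K),
      (P1 g ≠ P2 g ∨ P1 g' ≠ P2 g') → (∀ i, α (g i) ≠ 0) → (∀ i, α (g' i) ≠ 0) →
      ‖ch2 μ (-(Real.log (P1 g) - Real.log (P2 g))) (-(Real.log (P1 g') - Real.log (P2 g')))‖ ≤ ε) :
    Dg α q K * Dg α r K - ((K:ℝ) ^ 2) ^ q * ((K:ℝ) ^ 2) ^ r * (A0 ^ q * A0 ^ r * ε) ≤
      ‖∫ p : ℝ × ℝ, DP α K p.1 ^ q * DP α K p.2 ^ r ∂μ‖ := by
  set Sq := Fintype.piFinset (fun _ : Fin q => SS K) with hSq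
  set Sr := Fintype.piFinset (fun _ : Fin r => SS K) with hSr
  set F : (Fin q → ℕ × ℕ) × (Fin r → ℕ × ℕ) → ℂ := fun y =>
    ((∏ i, α (y.1 i) : ℝ) : ℂ) * ((∏ i, α (y.2 i) : ℝ) : ℂ) *
      ch2 μ (-(Real.log (P1 y.1) - Real.log (P2 y.1))) (-(Real.log (P1 y.2) - Real.log (P2 y.2))) with hF
  set G : (Fin q → ℕ × ℕ) × (Fin r → ℕ × ℕ) → ℝ := fun y =>
    (if P1 y.1 = P2 y.1 then ∏ i, α (y.1 i) else 0) * (if P1 y.2 = P2 y.2 then ∏ i, α (y.2 i) else 0) with hG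
  have h1 : ∫ p : ℝ × ℝ, DP α K p.1 ^ q * DP α K p.2 ^ r ∂μ = ∑ y ∈ Sq ×ˢ Sr, F y := by
    simp only [DP_pow, Finset.sum_mul_sum]
    rw [Finset.sum_product, integral_finsetSum]
    · refine Finset.sum_congr rfl fun g _ => ?_
      rw [integral_finsetSum]
      · refine Finset.sum_congr rfl fun g' _ => ?_
        simp only [hF]
        unfold ch2
        rw [← integral_const_mul]
        congr 1; funext p
        have e1 : exp ((-(Real.log (P1 g) - Real.log (P2 g)) * p.1 + -(Real.log (P1 g') - Real.log (P2 g')) * p.2 : ℝ) * I) =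
            exp ((-(Real.log (P1 g) - Real.log (P2 g)) * p.1 : ℝ) * I) *
              exp ((-(Real.log (P1 g') - Real.log (P2 g')) * p.2 : ℝ) * I) := by
          rw [← Complex.exp_add]
          congr 1
          push_cast
          ring
        rw [e1]
        ring
      · intro g' _
        refine (integrable_const ‖((∏ i, α (g i) : ℝ) : ℂ) * ((∏ i, α (g' i) : ℝ) : ℂ)‖).mono'
          (Continuous.aestronglyMeasurable (by fun_prop)) (Eventually.of_forall fun p => ?_)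
        rw [norm_mul, norm_mul, norm_mul, Complex.norm_exp_ofReal_mul_I, Complex.norm_exp_ofReal_mul_I, mul_one, mul_one,
          norm_mul]
    · intro g _
      refine integrable_finsetSum _ fun g' _ => ?_
      refine (integrable_const ‖((∏ i, α (g i) : ℝ) : ℂ) * ((∏ i, α (g' i) : ℝ) : ℂ)‖).mono'
          (Continuous.aestronglyMeasurable (by fun_prop)) (Eventually.of_forall fun p => ?_)
      rw [norm_mul, norm_mul, norm_mul, Complex.norm_exp_ofReal_mul_I, Complex.norm_exp_ofReal_mul_I, mul_one, mul_one,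
          norm_mul]
  have h2 : ∑ y ∈ Sq ×ˢ Sr, G y = Dg α q K * Dg α r K := by
    unfold Dg
    rw [Finset.sum_filter, Finset.sum_filter, Finset.sum_mul_sum, Finset.sum_product]
  have hprod : ∀ {j : ℕ} (g : Fin j → ℕ × ℕ), g ∈ Fintype.piFinset (fun _ : Fin j => SS K) → ∏ i, α (g i) ≤ A0 ^ j := by
    intro j g hg
    refine (Finset.prod_le_prod (fun i _ => hα0 _) (fun i _ => hα1 (g i) ((Fintype.mem_piFinset.1 hg) i))).trans ?_
    rw [Finset.prod_const, Finset.card_univ, Fintype.card_fin]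
  have hpn : ∀ {j : ℕ} (g : Fin j → ℕ × ℕ), 0 ≤ ∏ i, α (g i) := fun g => Finset.prod_nonneg fun i _ => hα0 _
  have h3 : ∀ y ∈ Sq ×ˢ Sr, ‖F y - (G y : ℂ)‖ ≤ A0 ^ q * A0 ^ r * ε := by
    rintro ⟨g, g'⟩ hy
    obtain ⟨hg, hg'⟩ := Finset.mem_product.1 hy
    simp only [hF, hG]
    simp only at hg hg'
    by_cases hd : P1 g = P2 g ∧ P1 g' = P2 g'
    · have e1 : ch2 μ (-(Real.log (P1 g) - Real.log (P2 g))) (-(Real.log (P1 g') - Real.log (P2 g'))) = 1 := by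
        unfold ch2
        simp [hd.1, hd.2]
      rw [e1, if_pos hd.1, if_pos hd.2, mul_one]
      push_cast
      rw [sub_self, norm_zero]
      positivity
    · have e1 : (((if P1 g = P2 g then ∏ i, α (g i) else 0) * (if P1 g' = P2 g' then ∏ i, α (g' i) else 0) : ℝ) : ℂ) = 0 := by
        rw [not_and_or] at hd
        rcases hd with hd | hd
        · rw [if_neg hd]; simp
        · rw [if_neg hd]; simp
      rw [e1, sub_zero, norm_mul, norm_mul, Complex.norm_real, Complex.norm_real, Real.norm_of_nonneg (hpn g),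
        Real.norm_of_nonneg (hpn g')]
      by_cases h0 : ∀ i, α (g i) ≠ 0
      · by_cases h0' : ∀ i, α (g' i) ≠ 0
        · have h4 := hsm g hg g' hg' (by
            rw [not_and_or] at hd; exact hd) h0 h0'
          have h5 := hprod g hg
          have h6 := hprod g' hg'
          have h7 := hpn g
          have h8 := hpn g'
          gcongr
        · push Not at h0'
          obtain ⟨i, hi⟩ := h0'
          rw [Finset.prod_eq_zero (f := fun i => α (g' i)) (Finset.mem_univ i) hi, mul_zero, zero_mul]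
          positivity
      · push Not at h0
        obtain ⟨i, hi⟩ := h0
        rw [Finset.prod_eq_zero (f := fun i => α (g i)) (Finset.mem_univ i) hi, zero_mul, zero_mul]
        positivity
  have h4 : ‖∑ y ∈ Sq ×ˢ Sr, (F y - (G y : ℂ))‖ ≤ ((K:ℝ) ^ 2) ^ q * ((K:ℝ) ^ 2) ^ r * (A0 ^ q * A0 ^ r * ε) := by
    refine (norm_sum_le _ _).trans ((Finset.sum_le_card_nsmul _ _ _ h3).trans (le_of_eq ?_))
    rw [nsmul_eq_mul, Finset.card_product, hSq, hSr, Fintype.card_piFinset_const, Fintype.card_piFinset_const]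
    unfold SS
    rw [Finset.card_product, Nat.card_Icc, Nat.add_sub_cancel]
    push_cast
    ring
  rw [Finset.sum_sub_distrib, ← h1, ← Complex.ofReal_sum, h2] at h4
  have hDn : ∀ j : ℕ, 0 ≤ Dg α j K := fun j => Finset.sum_nonneg fun g _ => hpn g
  have h9 := norm_sub_norm_le (((Dg α q K * Dg α r K : ℝ)) : ℂ) (∫ p : ℝ × ℝ, DP α K p.1 ^ q * DP α K p.2 ^ r ∂μ)
  rw [norm_sub_rev, Complex.norm_real, Real.norm_of_nonneg (mul_nonneg (hDn q) (hDn r))] at h9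
  linarith

end

end Pool.Agent.R461.HM
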