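import Pool.Agent.R461.HM.Jnt

set_option autoImplicit false

/-! Joint moments at two heights: the lower bound. -/

namespace Pool.Agent.R461.HM

open Complex Filter Topology MeasureTheory Set
open scoped ContDiff ENNReal
open Pool.Agent.W182.KO

noncomputable section

lemma case_bound (q r : ℕ) {X Y x y e W : ℝ≥0∞} (hX : X ≤ x + e) (hY : Y ≤ y + e) (hXW : X ≤ W) (hYW : Y ≤ W) :
    X ^ q * Y ^ r ≤ 2 ^ (q + r) * (x ^ q * y ^ r) + ((2 * e) ^ q * W ^ r + (2 * e) ^ r * W ^ q) := by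
  rcases le_total x e with h | h
  · have h1 : X ≤ 2 * e := hX.trans (by rw [two_mul]; gcongr)
    calc X ^ q * Y ^ r ≤ (2 * e) ^ q * W ^ r := by gcongr
      _ ≤ _ := by
          rw [← add_assoc, add_comm (2 ^ (q + r) * (x ^ q * y ^ r)), add_assoc]
          exact le_self_add
  rcases le_total y e with h' | h'
  · have h1 : Y ≤ 2 * e := hY.trans (by rw [two_mul]; gcongr)
    calc X ^ q * Y ^ r ≤ W ^ q * (2 * e) ^ r := by gcongr
      _ = (2 * e) ^ r * W ^ q := mul_comm _ _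
      _ ≤ _ := by
          rw [← add_assoc]
          exact le_add_self
  have h1 : X ≤ 2 * x := hX.trans (by rw [two_mul]; gcongr)
  have h2 : Y ≤ 2 * y := hY.trans (by rw [two_mul]; gcongr)
  calc X ^ q * Y ^ r ≤ (2 * x) ^ q * (2 * y) ^ r := by gcongr
    _ = 2 ^ (q + r) * (x ^ q * y ^ r) := by rw [mul_pow, mul_pow, pow_add]; ring
    _ ≤ _ := le_self_add

lemma DP_le {α : ℕ × ℕ → ℝ} {K : ℕ} {A0 : ℝ} (hα0 : ∀ x, 0 ≤ α x) (hα1 : ∀ x ∈ SS K, α x ≤ A0) (t : ℝ) :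
    ‖DP α K t‖ ≤ (K:ℝ) ^ 2 * A0 := by
  unfold DP
  refine (norm_sum_le _ _).trans ((Finset.sum_le_card_nsmul _ _ A0 fun x hx => ?_).trans (le_of_eq ?_))
  · rw [norm_mul, Complex.norm_exp_ofReal_mul_I, mul_one, Complex.norm_real, Real.norm_of_nonneg (hα0 x)]
    exact hα1 x hx
  · rw [nsmul_eq_mul]
    unfold SS
    rw [Finset.card_product, Nat.card_Icc, Nat.add_sub_cancel]
    push_cast
    ring

lemma log_P {q K : ℕ} {g : Fin q → ℕ × ℕ} (hg : g ∈ Fintype.piFinset (fun _ : Fin q => SS K)) :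
    1 ≤ P1 g ∧ 1 ≤ P2 g ∧ Real.log (P1 g) + Real.log (P2 g) = ∑ i, (Real.log (g i).1 + Real.log (g i).2) := by
  refine ⟨?_, ?_, ?_⟩
  · unfold P1
    exact Nat.one_le_iff_ne_zero.2 (Finset.prod_ne_zero_iff.2 fun i _ => by have := (mem_tuple hg i).1; omega)
  · unfold P2
    exact Nat.one_le_iff_ne_zero.2 (Finset.prod_ne_zero_iff.2 fun i _ => by have := (mem_tuple hg i).2.2.1; omega)
  · have h2 : Real.log (P1 g) = ∑ i, Real.log (g i).1 := by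
      unfold P1
      rw [Nat.cast_prod, Real.log_prod]
      intro i _
      have := (mem_tuple hg i).1
      exact_mod_cast (by omega : (g i).1 ≠ 0)
    have h3 : Real.log (P2 g) = ∑ i, Real.log (g i).2 := by
      unfold P2
      rw [Nat.cast_prod, Real.log_prod]
      intro i _
      have := (mem_tuple hg i).2.2.1
      exact_mod_cast (by omega : (g i).2 ≠ 0)
    rw [h2, h3, ← Finset.sum_add_distrib]

/-- the joint lower bound -/
theorem joint_main {q r : ℕ} (hq : 1 ≤ q) (hr : 1 ≤ r) (N : ℕ) {κ : ℝ} (hκ : 0 < κ) (hκ1 : κ ≤ 1) :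
    ∃ c : ℝ, 0 < c ∧ ∀ D : ℝ, 1 ≤ D → ∃ T₀ : ℝ, Real.exp 1 ≤ T₀ ∧ ∀ T : ℝ, T₀ ≤ T → ∀ μ : Measure (ℝ × ℝ),
      IsProbabilityMeasure μ → (∀ᵐ p ∂μ, p.1 ∈ Icc (T / D) (D * T) ∧ p.2 ∈ Icc (T / D) (D * T)) →
      (∀ m n m' n' : ℕ, 1 ≤ m → 1 ≤ n → 1 ≤ m' → 1 ≤ n' → (m ≠ n ∨ m' ≠ n') → (m : ℝ) * n ≤ T ^ κ → (m' : ℝ) * n' ≤ T ^ κ →
        ‖∫ p : ℝ × ℝ, exp (I * (p.1 * Real.log (m / n) + p.2 * Real.log (m' / n'))) ∂μ‖ ≤ T ^ (-κ)) →
      ENNReal.ofReal (c * Real.log T ^ (q ^ 2 + r ^ 2)) ≤ ∫⁻ p, (loc 1 N T p.1) ^ q * (loc 1 N T p.2) ^ r ∂μ := by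
  have hpi := Real.pi_pos
  obtain ⟨s, hs⟩ : ∃ s : ℕ, s = q + r := ⟨_, rfl⟩
  have hs1 : (1:ℝ) ≤ s := by rw [hs]; push_cast; have : (1:ℝ) ≤ q := by exact_mod_cast hq
                             have : (0:ℝ) ≤ r := Nat.cast_nonneg r
                             linarith
  obtain ⟨ξ1, hξ1⟩ : ∃ ξ1 : ℝ, ξ1 = κ / (8 * s) := ⟨_, rfl⟩
  have hξ : 0 < ξ1 := by rw [hξ1]; positivity
  have hsξ : s * ξ1 = κ / 8 := by rw [hξ1]; field_simp
  obtain ⟨B, hB, hcore⟩ := poly_core N hξ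
  obtain ⟨c1, T1, hc1, hT1, hdl1⟩ := diag_lower hq (show 0 < ξ1 / 4 by positivity)
  obtain ⟨c1', T1', hc1', hT1', hdl1'⟩ := diag_lower hr (show 0 < ξ1 / 4 by positivity)
  set c2 : ℝ := (2 * Real.pi) ^ s * (c1 * c1') with hc2
  have hc20 : 0 < c2 := by positivity
  refine ⟨c2 / (2 * (2 * B) ^ s), by positivity, fun D hD => ?_⟩
  obtain ⟨C2, T2, hC2, hT2, hcore2⟩ := hcore D hD
  have hlim : Tendsto (fun T : ℝ => (2 * Real.pi) ^ s * T ^ (-(3 / 4 * κ)) + 4 * C2 * (2 * Real.pi) ^ s * T ^ (-(3 / 4) : ℝ)) atTop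
      (𝓝 ((2 * Real.pi) ^ s * 0 + 4 * C2 * (2 * Real.pi) ^ s * 0)) :=
    ((tendsto_rpow_neg_atTop (by positivity)).const_mul _).add ((tendsto_rpow_neg_atTop (by norm_num)).const_mul _)
  rw [mul_zero, mul_zero, add_zero] at hlim
  obtain ⟨T3, hT3⟩ := eventually_atTop.mp (hlim.eventually (gt_mem_nhds (show 0 < c2 / 2 by positivity)))
  refine ⟨max (max T1 T1') (max T2 (max T3 (2 * C2))), hT1.trans ((le_max_left _ _).trans (le_max_left _ _)),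
    fun T hT μ hμ hsup hsmall => ?_⟩
  have hTa : T1 ≤ T := ((le_max_left _ _).trans (le_max_left _ _)).trans hT
  have hTb : T1' ≤ T := ((le_max_right _ _).trans (le_max_left _ _)).trans hT
  have hTc : T2 ≤ T := ((le_max_left _ _).trans (le_max_right _ _)).trans hT
  have hTd : T3 ≤ T := ((le_max_left _ _).trans ((le_max_right _ _).trans (le_max_right _ _))).trans hT
  have hTf : 2 * C2 ≤ T := ((le_max_right _ _).trans ((le_max_right _ _).trans (le_max_right _ _))).trans hT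
  have hTe : Real.exp 1 ≤ T := hT1.trans hTa
  have hT2' : 2 ≤ T := by have := Real.add_one_le_exp 1; linarith
  have hT0 : 0 < T := by linarith
  have hT1'' : 1 ≤ T := by linarith
  have hL : 1 ≤ Real.log T := by rwa [Real.le_log_iff_exp_le hT0]
  have hd1 := hdl1 T hTa
  have hd2 := hdl1' T hTb
  have hlim' := hT3 T hTd
  obtain ⟨α, hα0, hα1, hα2, hα3, hpt⟩ := hcore2 T hTc
  obtain ⟨L, hLd⟩ : ∃ L, L = Real.log T := ⟨_, rfl⟩
  rw [← hLd] at hL hd1 hd2 hpt hα3 hα2 ⊢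
  have hL0 : 0 < L := by linarith
  obtain ⟨K, hK⟩ : ∃ K, K = ⌊T ^ ξ1⌋₊ := ⟨_, rfl⟩
  rw [← hK] at hα1 hpt
  have hKle : (K:ℝ) ≤ T ^ ξ1 := by
    rw [hK]
    exact Nat.floor_le (by positivity)
  have hKpow : ∀ j : ℕ, j ≤ s → ((K:ℝ) ^ 2) ^ j ≤ T ^ (1 / 4 * κ) := by
    intro j hj
    have hj' : (j:ℝ) ≤ s := by exact_mod_cast hj
    calc ((K:ℝ) ^ 2) ^ j ≤ ((T ^ ξ1) ^ 2) ^ j := by gcongr
      _ = T ^ (2 * (j * ξ1)) := by
          rw [← pow_mul, ← Real.rpow_natCast, ← Real.rpow_mul hT0.le]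
          congr 1
          push_cast
          ring
      _ ≤ T ^ (1 / 4 * κ) := by
          refine Real.rpow_le_rpow_of_exponent_le hT1'' ?_
          have : j * ξ1 ≤ s * ξ1 := by gcongr
          linarith
  -- smallness
  have hlogP : ∀ {j : ℕ}, j ≤ s → ∀ g ∈ Fintype.piFinset (fun _ : Fin j => SS K), (∀ i, α (g i) ≠ 0) →
      ((P1 g : ℕ) : ℝ) * (P2 g : ℕ) ≤ T ^ κ := by
    intro j hj g hg h0
    obtain ⟨hp1, hp2, hlg⟩ := log_P hg
    have hp1' : (0:ℝ) < P1 g := by exact_mod_cast hp1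
    have hp2' : (0:ℝ) < P2 g := by exact_mod_cast hp2
    have hj' : (j:ℝ) ≤ s := by exact_mod_cast hj
    rw [Real.rpow_def_of_pos hT0, ← Real.log_le_iff_le_exp (by positivity), Real.log_mul hp1'.ne' hp2'.ne', hlg, ← hLd]
    refine (Finset.sum_le_sum fun i _ => hα2 (g i) (h0 i)).trans ?_
    rw [Finset.sum_const, Finset.card_univ, Fintype.card_fin, nsmul_eq_mul]
    have h1 : j * (ξ1 * L) ≤ s * (ξ1 * L) := by gcongr
    nlinarith
  have hsm : ∀ g ∈ Fintype.piFinset (fun _ : Fin q => SS K), ∀ g' ∈ Fintype.piFinset (fun _ : Fin r => SS K),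
      (P1 g ≠ P2 g ∨ P1 g' ≠ P2 g') → (∀ i, α (g i) ≠ 0) → (∀ i, α (g' i) ≠ 0) →
      ‖ch2 μ (-(Real.log (P1 g) - Real.log (P2 g))) (-(Real.log (P1 g') - Real.log (P2 g')))‖ ≤ T ^ (-κ) := by
    intro g hg g' hg' hne h0 h0'
    have h1 := hlogP (by omega) g hg h0
    have h2 := hlogP (by omega) g' hg' h0'
    obtain ⟨hp1, hp2, -⟩ := log_P hg
    obtain ⟨hp3, hp4, -⟩ := log_P hg'
    have h3 := hsmall (P2 g) (P1 g) (P2 g') (P1 g') hp2 hp1 hp4 hp3 (hne.imp Ne.symm Ne.symm)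
      (by rw [mul_comm]; exact h1) (by rw [mul_comm]; exact h2)
    refine le_trans (le_of_eq ?_) h3
    unfold ch2
    congr 2; funext p
    congr 1
    have hp1' : (0:ℝ) < P1 g := by exact_mod_cast hp1
    have hp2' : (0:ℝ) < P2 g := by exact_mod_cast hp2
    have hp3' : (0:ℝ) < P1 g' := by exact_mod_cast hp3
    have hp4' : (0:ℝ) < P2 g' := by exact_mod_cast hp4
    rw [Real.log_div hp2'.ne' hp1'.ne', Real.log_div hp4'.ne' hp3'.ne']
    push_cast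
    ring
  have hA := joint_lower (q := q) (r := r) (K := K) (by positivity : (0:ℝ) ≤ 2 * Real.pi) hα0 hα1
    (by positivity : (0:ℝ) ≤ T ^ (-κ)) μ hsm
  have hoff : ((K:ℝ) ^ 2) ^ q * ((K:ℝ) ^ 2) ^ r * ((2 * Real.pi) ^ q * (2 * Real.pi) ^ r * T ^ (-κ)) ≤
      (2 * Real.pi) ^ s * T ^ (-(3 / 4 * κ)) := by
    rw [← pow_add, ← pow_add, ← hs]
    calc ((K:ℝ) ^ 2) ^ s * ((2 * Real.pi) ^ s * T ^ (-κ)) ≤ T ^ (1 / 4 * κ) * ((2 * Real.pi) ^ s * T ^ (-κ)) := by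
          gcongr
          exact hKpow s le_rfl
      _ = (2 * Real.pi) ^ s * (T ^ (1 / 4 * κ) * T ^ (-κ)) := by ring
      _ = _ := by rw [← Real.rpow_add hT0]; congr 2; ring
  have hK'K : ⌊T ^ (ξ1 / 4)⌋₊ ≤ K := by
    rw [hK]
    exact Nat.floor_mono (Real.rpow_le_rpow_of_exponent_le hT1'' (by linarith))
  have hdg1 := tuples_lower (q := q) (K := K) (K' := ⌊T ^ (ξ1 / 4)⌋₊) (α := α) (a0 := 2 * Real.pi / L) hα0 hK'K hα3
  have hdg2 := tuples_lower (q := r) (K := K) (K' := ⌊T ^ (ξ1 / 4)⌋₊) (α := α) (a0 := 2 * Real.pi / L) hα0 hK'K hα3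
  have hmain1 : (2 * Real.pi / L) ^ q * (c1 * L ^ (q ^ 2)) ≤ Dg α q K := le_trans (by gcongr) hdg1
  have hmain2 : (2 * Real.pi / L) ^ r * (c1' * L ^ (r ^ 2)) ≤ Dg α r K := le_trans (by gcongr) hdg2
  have hmain : c2 * (L ^ (q ^ 2 + r ^ 2) / L ^ s) ≤ Dg α q K * Dg α r K := by
    calc c2 * (L ^ (q ^ 2 + r ^ 2) / L ^ s) =
          ((2 * Real.pi / L) ^ q * (c1 * L ^ (q ^ 2))) * ((2 * Real.pi / L) ^ r * (c1' * L ^ (r ^ 2))) := by
          rw [hc2, hs, div_pow, div_pow, pow_add, pow_add, pow_add]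
          field_simp
      _ ≤ _ := mul_le_mul hmain1 hmain2 (by positivity) (le_trans (by positivity) hmain1)
  have hLq : 1 ≤ L ^ (q ^ 2 + r ^ 2) / L ^ s := by
    rw [one_le_div (by positivity)]
    refine pow_le_pow_right₀ hL ?_
    rw [hs]
    nlinarith
  -- the upper bound
  obtain ⟨W, hW⟩ : ∃ W : ℝ, W = (K:ℝ) ^ 2 * (2 * Real.pi) := ⟨_, rfl⟩
  have hW0 : 0 ≤ W := by rw [hW]; positivity
  have hDPW : ∀ t : ℝ, ‖DP α K t‖ₑ ≤ ENNReal.ofReal W := by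
    intro t
    rw [← ofReal_norm, hW]
    exact ENNReal.ofReal_le_ofReal (DP_le hα0 hα1 t)
  set Z := ∫⁻ p, (loc 1 N T p.1) ^ q * (loc 1 N T p.2) ^ r ∂μ with hZ
  set a := ENNReal.ofReal (B * L⁻¹) with ha
  set e := ENNReal.ofReal (C2 / T) with he
  have hup : ENNReal.ofReal ‖∫ p : ℝ × ℝ, DP α K p.1 ^ q * DP α K p.2 ^ r ∂μ‖ ≤ (2 ^ s * (a ^ q * a ^ r)) * Z +
      ((2 * e) ^ q * ENNReal.ofReal W ^ r + (2 * e) ^ r * ENNReal.ofReal W ^ q) := by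
    rw [ofReal_norm]
    refine (enorm_integral_le_lintegral_enorm _).trans ?_
    have h2 : ∫⁻ p : ℝ × ℝ, ‖DP α K p.1 ^ q * DP α K p.2 ^ r‖ₑ ∂μ ≤
        ∫⁻ p : ℝ × ℝ, (2 ^ s * (a ^ q * a ^ r)) * ((loc 1 N T p.1) ^ q * (loc 1 N T p.2) ^ r) +
      ((2 * e) ^ q * ENNReal.ofReal W ^ r + (2 * e) ^ r * ENNReal.ofReal W ^ q) ∂μ := by
      refine lintegral_mono_ae ?_
      filter_upwards [hsup] with p hp
      rw [enorm_mul, enorm_pow, enorm_pow]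
      refine (case_bound q r (hpt p.1 hp.1) (hpt p.2 hp.2) (hDPW p.1) (hDPW p.2)).trans (le_of_eq ?_)
      rw [mul_pow, mul_pow, ← hs]
      ring
    refine h2.trans (le_of_eq ?_)
    have hfin : (2:ℝ≥0∞) ^ s * (a ^ q * a ^ r) ≠ ⊤ := by
      refine ENNReal.mul_ne_top (by simp) (ENNReal.mul_ne_top (ENNReal.pow_ne_top ENNReal.ofReal_ne_top)
        (ENNReal.pow_ne_top ENNReal.ofReal_ne_top))
    rw [lintegral_add_right _ measurable_const, lintegral_const, measure_univ, mul_one, lintegral_const_mul' _ _ hfin]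
  rcases eq_or_ne Z ⊤ with htop | htop
  · rw [htop]; exact le_top
  obtain ⟨z, hz0, hz⟩ : ∃ z : ℝ, 0 ≤ z ∧ Z = ENNReal.ofReal z :=
    ⟨Z.toReal, ENNReal.toReal_nonneg, (ENNReal.ofReal_toReal htop).symm⟩
  rw [hz] at hup ⊢
  have hBL : 0 ≤ B * L⁻¹ := by positivity
  have hCT : 0 ≤ C2 / T := by positivity
  have hup2 : ‖∫ p : ℝ × ℝ, DP α K p.1 ^ q * DP α K p.2 ^ r ∂μ‖ ≤
      (2 ^ s * ((B * L⁻¹) ^ q * (B * L⁻¹) ^ r)) * z +
      ((2 * (C2 / T)) ^ q * W ^ r + (2 * (C2 / T)) ^ r * W ^ q) := by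
    have e2 : (2:ℝ≥0∞) = ENNReal.ofReal 2 := by norm_num
    have e1 : (2 ^ s * (a ^ q * a ^ r)) * ENNReal.ofReal z +
        ((2 * e) ^ q * ENNReal.ofReal W ^ r + (2 * e) ^ r * ENNReal.ofReal W ^ q) =
        ENNReal.ofReal ((2 ^ s * ((B * L⁻¹) ^ q * (B * L⁻¹) ^ r)) * z +
      ((2 * (C2 / T)) ^ q * W ^ r + (2 * (C2 / T)) ^ r * W ^ q)) := by
      rw [ENNReal.ofReal_add (by positivity) (by positivity), ENNReal.ofReal_add (by positivity) (by positivity),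
        ENNReal.ofReal_mul (by positivity), ENNReal.ofReal_mul (by positivity), ENNReal.ofReal_mul (by positivity),
        ENNReal.ofReal_mul (by positivity), ENNReal.ofReal_mul (by positivity), ENNReal.ofReal_pow (by positivity),
        ENNReal.ofReal_pow hBL, ENNReal.ofReal_pow hBL, ENNReal.ofReal_pow (by positivity) q,
        ENNReal.ofReal_pow (by positivity) r, ENNReal.ofReal_pow hW0, ENNReal.ofReal_pow (by positivity) r,
        ENNReal.ofReal_mul (by positivity : (0:ℝ) ≤ 2), ← e2]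
    rw [e1] at hup
    exact (ENNReal.ofReal_le_ofReal_iff (by positivity)).1 hup
  refine ENNReal.ofReal_le_ofReal ?_
  have hsm1 : ∀ i j : ℕ, 1 ≤ i → j ≤ s → (2 * (C2 / T)) ^ i * W ^ j ≤ 2 * C2 * (2 * Real.pi) ^ s * T ^ (-(3 / 4) : ℝ) := by
    intro i j hi hj
    have h2 : 2 * (C2 / T) ≤ 1 := by
      rw [← mul_div_assoc, div_le_one hT0]; exact hTf
    have h3 : (2 * (C2 / T)) ^ i ≤ (2 * (C2 / T)) ^ 1 := pow_le_pow_of_le_one (by positivity) h2 hi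
    have h4 : W ^ j ≤ T ^ (1 / 4 : ℝ) * (2 * Real.pi) ^ s := by
      rw [hW, mul_pow]
      have h5 : ((K:ℝ) ^ 2) ^ j ≤ T ^ (1 / 4 : ℝ) :=
        (hKpow j hj).trans (Real.rpow_le_rpow_of_exponent_le hT1'' (by linarith))
      have h6 : (2 * Real.pi) ^ j ≤ (2 * Real.pi) ^ s := pow_le_pow_right₀ (by linarith [Real.pi_gt_three]) hj
      gcongr
    calc (2 * (C2 / T)) ^ i * W ^ j ≤ (2 * (C2 / T)) ^ 1 * (T ^ (1 / 4 : ℝ) * (2 * Real.pi) ^ s) := by gcongr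
      _ = 2 * C2 * (2 * Real.pi) ^ s * (T ^ (1 / 4 : ℝ) * T⁻¹) := by rw [pow_one]; ring
      _ = _ := by
          rw [← Real.rpow_neg_one T, ← Real.rpow_add hT0]
          congr 2; norm_num
  have hsA := hsm1 q r hq (by omega)
  have hsB := hsm1 r q hr (by omega)
  have h9 : c2 * (L ^ (q ^ 2 + r ^ 2) / L ^ s) / 2 ≤ (2 ^ s * ((B * L⁻¹) ^ q * (B * L⁻¹) ^ r)) * z := by
    have h10 : c2 ≤ c2 * (L ^ (q ^ 2 + r ^ 2) / L ^ s) := by
      nlinarith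
    linarith
  have h12 : (2 ^ s * ((B * L⁻¹) ^ q * (B * L⁻¹) ^ r)) * z = (2 * B) ^ s * z / L ^ s := by
    rw [← pow_add, ← hs, mul_pow B, inv_pow, mul_pow]; field_simp
  rw [h12] at h9
  have h13 : c2 * (L ^ (q ^ 2 + r ^ 2) / L ^ s) / 2 = (c2 * L ^ (q ^ 2 + r ^ 2) / 2) / L ^ s := by ring
  rw [h13, div_le_div_iff_of_pos_right (by positivity)] at h9
  rw [div_mul_eq_mul_div, div_le_iff₀ (by positivity)]
  linarith

end

end Pool.Agent.R461.HM
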