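import Pool.Agent.R461.HM.Dil2

set_option autoImplicit false

/-! Two heights `t` and `λ t` with `t` uniform on `[T, 2T]`: for almost every `λ` the joint characters are small. -/

namespace Pool.Agent.R461.HM

open Complex Filter Topology MeasureTheory Set
open scoped ENNReal

noncomputable section

/-- the exceptional `λ` at level `X` -/
def BdL (b : ℝ) (X : ℕ) : Set ℝ :=
  ⋃ p ∈ ((Finset.Icc 1 X ×ˢ Finset.Icc 1 X) ×ˢ (Finset.Icc 1 X ×ˢ Finset.Icc 1 X)).filter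
    (fun p : (ℕ × ℕ) × (ℕ × ℕ) => p.2.1 ≠ p.2.2),
    {l : ℝ | |Real.log ((p.1.1:ℝ) / p.1.2) + l * Real.log ((p.2.1:ℝ) / p.2.2)| ≤ ((X:ℝ) ^ 7)⁻¹}

lemma BdL_vol (b : ℝ) {X : ℕ} (hX : 1 ≤ X) : volume (BdL b X) ≤ ENNReal.ofReal (2 * ((X:ℝ) ^ 2)⁻¹) := by
  have hX0 : (0:ℝ) < X := by exact_mod_cast hX
  have h1 : ∀ p ∈ ((Finset.Icc 1 X ×ˢ Finset.Icc 1 X) ×ˢ (Finset.Icc 1 X ×ˢ Finset.Icc 1 X)).filter
      (fun p : (ℕ × ℕ) × (ℕ × ℕ) => p.2.1 ≠ p.2.2),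
      volume {l : ℝ | |Real.log ((p.1.1:ℝ) / p.1.2) + l * Real.log ((p.2.1:ℝ) / p.2.2)| ≤ ((X:ℝ) ^ 7)⁻¹} ≤
        ENNReal.ofReal (2 * ((X:ℝ) ^ 6)⁻¹) := by
    intro p hp
    rw [Finset.mem_filter, Finset.mem_product, Finset.mem_product, Finset.mem_product, Finset.mem_Icc, Finset.mem_Icc,
      Finset.mem_Icc, Finset.mem_Icc] at hp
    have h2 := log_lower hp.1.2.1.1 hp.1.2.2.1 hp.2 hp.1.2.1.2 hp.1.2.2.2
    set mu := Real.log ((p.2.1:ℝ) / p.2.2) with hmu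
    set lam := Real.log ((p.1.1:ℝ) / p.1.2) with hlam
    have h3 : 0 < |mu| := lt_of_lt_of_le (by positivity) h2
    have hmu0 : mu ≠ 0 := abs_pos.1 h3
    have hsub : {l : ℝ | |lam + l * mu| ≤ ((X:ℝ) ^ 7)⁻¹} ⊆ Metric.closedBall (-lam / mu) (((X:ℝ) ^ 7)⁻¹ * X) := by
      intro l hl
      rw [Metric.mem_closedBall, Real.dist_eq]
      have e1 : l - -lam / mu = (lam + l * mu) / mu := by field_simp; ring
      rw [e1, abs_div, div_le_iff₀ h3]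
      have hl' : |lam + l * mu| ≤ ((X:ℝ) ^ 7)⁻¹ := hl
      rw [div_le_iff₀ hX0] at h2
      calc |lam + l * mu| ≤ ((X:ℝ) ^ 7)⁻¹ * 1 := by rw [mul_one]; exact hl'
        _ ≤ ((X:ℝ) ^ 7)⁻¹ * (|mu| * X) := by gcongr
        _ = _ := by ring
    refine (measure_mono hsub).trans ?_
    rw [Real.volume_closedBall]
    refine ENNReal.ofReal_le_ofReal (le_of_eq ?_)
    field_simp
  unfold BdL
  refine (measure_biUnion_finset_le _ _).trans ((Finset.sum_le_sum h1).trans ?_)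
  rw [Finset.sum_const, nsmul_eq_mul, ← ENNReal.ofReal_natCast, ← ENNReal.ofReal_mul (by positivity)]
  refine ENNReal.ofReal_le_ofReal ?_
  have hc2 : ((((((Finset.Icc 1 X ×ˢ Finset.Icc 1 X) ×ˢ (Finset.Icc 1 X ×ˢ Finset.Icc 1 X)).filter
      (fun p : (ℕ × ℕ) × (ℕ × ℕ) => p.2.1 ≠ p.2.2)).card : ℕ)) : ℝ) ≤ (X:ℝ) ^ 4 := by
    have h5 : ((((Finset.Icc 1 X ×ˢ Finset.Icc 1 X) ×ˢ (Finset.Icc 1 X ×ˢ Finset.Icc 1 X)).filter
      (fun p : (ℕ × ℕ) × (ℕ × ℕ) => p.2.1 ≠ p.2.2)).card : ℕ) ≤ X ^ 4 := by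
      refine (Finset.card_filter_le _ _).trans (le_of_eq ?_)
      rw [Finset.card_product, Finset.card_product, Nat.card_Icc, Nat.add_sub_cancel]
      ring
    exact_mod_cast h5
  calc _ ≤ (X:ℝ) ^ 4 * (2 * ((X:ℝ) ^ 6)⁻¹) := by gcongr
    _ = _ := by field_simp

theorem lam_ae : ∀ᵐ l : ℝ, ∃ X₀ : ℕ, ∀ X : ℕ, X₀ ≤ X → ∀ m n m' n' : ℕ, 1 ≤ m → 1 ≤ n → 1 ≤ m' → 1 ≤ n' → m' ≠ n' →
    m ≤ X → n ≤ X → m' ≤ X → n' ≤ X → ((X:ℝ) ^ 7)⁻¹ ≤ |Real.log ((m:ℝ) / n) + l * Real.log ((m':ℝ) / n')| := by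
  have hs : Summable fun X : ℕ => 2 * ((((X + 1 : ℕ) : ℝ)) ^ 2)⁻¹ := by
    refine Summable.mul_left _ ?_
    exact (summable_nat_add_iff 1).2 (Real.summable_nat_pow_inv.2 (show 1 < 2 by norm_num))
  have hfin : ∑' X : ℕ, volume (BdL 0 (X + 1)) ≠ ∞ := by
    have h2 : ∑' X : ℕ, volume (BdL 0 (X + 1)) ≤ ∑' X : ℕ, ENNReal.ofReal (2 * ((((X + 1 : ℕ) : ℝ)) ^ 2)⁻¹) :=
      ENNReal.tsum_le_tsum fun X => BdL_vol 0 (by omega)
    refine ne_top_of_le_ne_top ?_ h2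
    rw [← ENNReal.ofReal_tsum_of_nonneg (fun X => by positivity) hs]
    exact ENNReal.ofReal_ne_top
  filter_upwards [ae_eventually_notMem hfin] with l hl
  obtain ⟨X₁, hX₁⟩ := eventually_atTop.1 hl
  refine ⟨X₁ + 1, fun X hX m n m' n' hm hn hm' hn' hne hmX hnX hmX' hnX' => ?_⟩
  have hX2 := hX₁ (X - 1) (by omega)
  rw [Nat.sub_add_cancel (by omega)] at hX2
  by_contra hcon
  push Not at hcon
  refine hX2 ?_
  unfold BdL
  simp only [mem_iUnion, exists_prop]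
  refine ⟨((m, n), (m', n')), ?_, hcon.le⟩
  simp only [Finset.mem_filter, Finset.mem_product, Finset.mem_Icc]
  exact ⟨⟨⟨⟨hm, hmX⟩, ⟨hn, hnX⟩⟩, ⟨⟨hm', hmX'⟩, ⟨hn', hnX'⟩⟩⟩, hne⟩

/-- the law of `(t, λ t)`, `t` uniform on `[T, 2T]` -/
def pairLaw (T l : ℝ) : Measure (ℝ × ℝ) :=
  ((ENNReal.ofReal T)⁻¹ • (volume.restrict (Icc T (2 * T)))).map (fun t => (t, l * t))

lemma pairLaw_meas (l : ℝ) : Measurable (fun t : ℝ => (t, l * t)) := by fun_prop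

lemma pairLaw_prob {T : ℝ} (hT : 0 < T) (l : ℝ) : IsProbabilityMeasure (pairLaw T l) := by
  unfold pairLaw
  haveI : IsProbabilityMeasure ((ENNReal.ofReal T)⁻¹ • (volume.restrict (Icc T (2 * T)) : Measure ℝ)) := by
    refine ⟨?_⟩
    rw [Measure.smul_apply, Measure.restrict_apply_univ, Real.volume_Icc, smul_eq_mul, show 2 * T - T = T by ring]
    exact ENNReal.inv_mul_cancel (by simpa using hT) ENNReal.ofReal_ne_top
  exact Measure.isProbabilityMeasure_map (pairLaw_meas l).aemeasurable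

lemma pairLaw_int {T : ℝ} (hT : 0 < T) (l a b : ℝ) (hab : a + l * b ≠ 0) :
    ‖∫ p : ℝ × ℝ, exp (I * (p.1 * a + p.2 * b)) ∂(pairLaw T l)‖ ≤ 2 / (T * |a + l * b|) := by
  unfold pairLaw
  rw [integral_map (pairLaw_meas l).aemeasurable (by fun_prop), integral_smul_measure, norm_smul]
  have e1 : ∀ t : ℝ, exp (I * (((t, l * t) : ℝ × ℝ).1 * a + ((t, l * t) : ℝ × ℝ).2 * b)) = exp (((a + l * b : ℝ) : ℂ) * I * t) := by
    intro t
    congr 1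
    push_cast
    ring
  simp only at e1
  have e3 : (∫ t in Icc T (2 * T), exp (I * (((t:ℝ):ℂ) * a + ((l * t : ℝ) : ℂ) * b))) =
      ∫ t in T..(2 * T), exp (((a + l * b : ℝ) : ℂ) * I * t) := by
    rw [intervalIntegral.integral_of_le (by linarith), integral_Icc_eq_integral_Ioc]
    refine setIntegral_congr_fun measurableSet_Ioc fun t _ => ?_
    exact e1 t
  have hc : (((a + l * b : ℝ) : ℂ)) * I ≠ 0 := mul_ne_zero (by exact_mod_cast hab) I_ne_zero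
  have h1 : ∀ x : ℝ, ‖exp (((a + l * b : ℝ) : ℂ) * I * (x:ℂ))‖ = 1 := by
    intro x
    have : ((a + l * b : ℝ) : ℂ) * I * (x:ℂ) = (((a + l * b) * x : ℝ) : ℂ) * I := by push_cast; ring
    rw [this, Complex.norm_exp_ofReal_mul_I]
  have h2 : ‖∫ t in T..(2 * T), exp (((a + l * b : ℝ) : ℂ) * I * t)‖ ≤ 2 / |a + l * b| := by
    rw [integral_exp_mul_complex hc, norm_div, norm_mul, Complex.norm_I, mul_one, Complex.norm_real, Real.norm_eq_abs]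
    have h3 : ‖exp (((a + l * b : ℝ) : ℂ) * I * ((2 * T : ℝ) : ℂ)) - exp (((a + l * b : ℝ) : ℂ) * I * ((T:ℝ):ℂ))‖ ≤ 2 := by
      refine (norm_sub_le _ _).trans ?_
      rw [h1, h1]; norm_num
    have : 0 < |a + l * b| := abs_pos.2 hab
    gcongr
  have e4 : ‖((ENNReal.ofReal T)⁻¹).toReal‖ = T⁻¹ := by
    rw [ENNReal.toReal_inv, ENNReal.toReal_ofReal hT.le, Real.norm_of_nonneg (by positivity)]
  rw [e4]
  have e5 : (∫ t in Icc T (2 * T), exp (I * ((((t, l * t) : ℝ × ℝ).1 : ℂ) * a + ((((t, l * t) : ℝ × ℝ).2 : ℝ) : ℂ) * b))) =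
      ∫ t in T..(2 * T), exp (((a + l * b : ℝ) : ℂ) * I * t) := e3
  rw [e5]
  calc T⁻¹ * ‖∫ t in T..(2 * T), exp (((a + l * b : ℝ) : ℂ) * I * t)‖ ≤ T⁻¹ * (2 / |a + l * b|) := by gcongr
    _ = _ := by
        have : 0 < |a + l * b| := abs_pos.2 hab
        field_simp

/-- the joint characters are small -/
theorem lam_small {κ : ℝ} (hκ : 0 < κ) (hκ1 : κ ≤ 1 / 10) : ∀ᵐ l : ℝ, ∃ T₀ : ℝ, 1 ≤ T₀ ∧ ∀ T : ℝ, T₀ ≤ T →
    ∀ m n m' n' : ℕ, 1 ≤ m → 1 ≤ n → 1 ≤ m' → 1 ≤ n' → (m ≠ n ∨ m' ≠ n') → (m : ℝ) * n ≤ T ^ κ → (m' : ℝ) * n' ≤ T ^ κ →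
        ‖∫ p : ℝ × ℝ, exp (I * (p.1 * Real.log (m / n) + p.2 * Real.log (m' / n'))) ∂(pairLaw T l)‖ ≤ T ^ (-κ) := by
  filter_upwards [lam_ae] with l hl
  obtain ⟨X₀, hX₀⟩ := hl
  have ht1 := tendsto_rpow_atTop (y := κ) hκ
  have ht2 := tendsto_rpow_atTop (y := (1 / 10 : ℝ)) (by norm_num)
  obtain ⟨T₁, hT₁⟩ := eventually_atTop.1 ((ht1.eventually_ge_atTop (X₀:ℝ)).and (ht2.eventually_ge_atTop 256))
  refine ⟨max 1 T₁, le_max_left _ _, fun T hT m n m' n' hm hn hm' hn' hne hY hY' => ?_⟩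
  have hT1 : 1 ≤ T := (le_max_left _ _).trans hT
  have hT0 : 0 < T := by linarith
  obtain ⟨a1, a2⟩ := hT₁ T ((le_max_right _ _).trans hT)
  have hm1 : (1:ℝ) ≤ m := by exact_mod_cast hm
  have hn1 : (1:ℝ) ≤ n := by exact_mod_cast hn
  have hm1' : (1:ℝ) ≤ m' := by exact_mod_cast hm'
  have hn1' : (1:ℝ) ≤ n' := by exact_mod_cast hn'
  obtain ⟨X, hX⟩ : ∃ X : ℕ, X = ⌈T ^ κ⌉₊ := ⟨_, rfl⟩
  have hX1 : T ^ κ ≤ X := by rw [hX]; exact Nat.le_ceil _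
  have hXle : (X:ℝ) ≤ 2 * T ^ κ := by
    have h1 := Nat.ceil_lt_add_one (show 0 ≤ T ^ κ by positivity)
    have h2 : 1 ≤ T ^ κ := Real.one_le_rpow hT1 (by positivity)
    rw [← hX] at h1
    linarith
  have hXX : X₀ ≤ X := by
    have : (X₀:ℝ) ≤ X := a1.trans hX1
    exact_mod_cast this
  have hle : ∀ a b : ℕ, (1:ℝ) ≤ a → (1:ℝ) ≤ b → (a:ℝ) * b ≤ T ^ κ → a ≤ X ∧ b ≤ X := by
    intro a b ha hb hab
    constructor
    · have : (a:ℝ) ≤ X := by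
        refine le_trans ?_ (hab.trans hX1)
        nlinarith
      exact_mod_cast this
    · have : (b:ℝ) ≤ X := by
        refine le_trans ?_ (hab.trans hX1)
        nlinarith
      exact_mod_cast this
  obtain ⟨hmX, hnX⟩ := hle m n hm1 hn1 hY
  obtain ⟨hmX', hnX'⟩ := hle m' n' hm1' hn1' hY'
  have hX0 : (1:ℝ) ≤ X := by exact_mod_cast (hm.trans hmX)
  have key : ((X:ℝ) ^ 7)⁻¹ ≤ |Real.log ((m:ℝ) / n) + l * Real.log ((m':ℝ) / n')| := by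
    by_cases h0 : m' = n'
    · have hmn : m ≠ n := by
        rcases hne with h | h
        · exact h
        · exact absurd h0 h
      have h3 := log_lower hm hn hmn hmX hnX
      have hn0' : (n':ℝ) ≠ 0 := by positivity
      rw [h0, div_self hn0', Real.log_one, mul_zero, add_zero]
      refine le_trans ?_ h3
      rw [one_div]
      exact inv_anti₀ (by linarith) (by
        calc (X:ℝ) = X ^ 1 := (pow_one _).symm
          _ ≤ X ^ 7 := pow_le_pow_right₀ hX0 (by norm_num))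
    · exact hX₀ X hXX m n m' n' hm hn hm' hn' h0 hmX hnX hmX' hnX'
  have hpos : 0 < |Real.log ((m:ℝ) / n) + l * Real.log ((m':ℝ) / n')| := lt_of_lt_of_le (by positivity) key
  refine (pairLaw_int hT0 l _ _ (abs_pos.1 hpos)).trans ?_
  have h4 : 2 / (T * |Real.log ((m:ℝ) / n) + l * Real.log ((m':ℝ) / n')|) ≤ 2 * (X:ℝ) ^ 7 / T := by
    rw [div_le_div_iff₀ (by positivity) hT0]
    have h5 : 1 ≤ (X:ℝ) ^ 7 * |Real.log ((m:ℝ) / n) + l * Real.log ((m':ℝ) / n')| := by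
      have h6 := mul_le_mul_of_nonneg_left key (show (0:ℝ) ≤ (X:ℝ) ^ 7 by positivity)
      rwa [mul_inv_cancel₀ (by positivity)] at h6
    nlinarith
  refine h4.trans ?_
  have h7 : 2 * (X:ℝ) ^ 7 ≤ 256 * T ^ (7 * κ) := by
    calc 2 * (X:ℝ) ^ 7 ≤ 2 * (2 * T ^ κ) ^ 7 := by gcongr
      _ = 256 * T ^ (7 * κ) := by
          rw [mul_pow, ← Real.rpow_natCast (T ^ κ) 7, ← Real.rpow_mul hT0.le]
          norm_num
          rw [← mul_assoc]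
          norm_num
          congr 1; ring
  calc 2 * (X:ℝ) ^ 7 / T ≤ 256 * T ^ (7 * κ) / T := by gcongr
    _ ≤ T ^ (1 / 10 : ℝ) * T ^ (7 * κ) / T := by gcongr
    _ = T ^ (1 / 10 + 7 * κ - 1) := by
        rw [← Real.rpow_add hT0, ← Real.rpow_sub_one hT0.ne']
    _ ≤ T ^ (-κ) := Real.rpow_le_rpow_of_exponent_le hT1 (by linarith)

end

end Pool.Agent.R461.HM
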