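import Pool.Agent.R461.HM.Meas
import Pool.Agent.W182.KO.Fin1
import Pool.Agent.H306R2.EvenConst

set_option autoImplicit false

/-! The normalised shifted moments with heights distributed by a probability measure: explicit form, limit,
heights `T x` with `x` distributed by a measure whose Fourier transform decays. -/

namespace Pool.Agent.R461.HM

open Complex Filter Topology MeasureTheory Set
open scoped ContDiff
open Pool.Agent.W182.KO

noncomputable section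

/-- the arithmetic factor -/
def ak (k : ℕ) : ℝ :=
  ∏' p : Nat.Primes, ((1 - 1 / (p : ℝ)) ^ (k ^ 2) * ∑' m : ℕ, ((m + k - 1).choose m : ℝ) ^ 2 * (1 / (p : ℝ)) ^ m)

/-- the normalised shifted moment, heights distributed by `ν` -/
def Qn (k : ℕ) (ν : Measure ℝ) (α T : ℝ) : ℂ :=
  ((Real.log T : ℂ) ^ (k ^ 2))⁻¹ *
    ∫ t, riemannZeta (1 / 2 + I * α / Real.log T + I * t) ^ k *
      riemannZeta (1 / 2 + I * α / Real.log T - I * t) ^ k ∂ν

/-- probability measures of heights in `[T, 2T]` for which the characters with `m n ≤ Y` have small integrals -/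
structure Heights (T Y δ : ℝ) (ν : Measure ℝ) : Prop where
  prob : IsProbabilityMeasure ν
  supp : ∀ᵐ t ∂ν, t ∈ Icc T (2 * T)
  small : ∀ m n : ℕ, 1 ≤ m → 1 ≤ n → m ≠ n → (m : ℝ) * n ≤ Y →
    ‖∫ t : ℝ, exp (I * (t * Real.log (m / n))) ∂ν‖ ≤ δ * (1 + 1 / |Real.log (m / n)|)

lemma Heights.mono {T Y δ δ' : ℝ} {ν : Measure ℝ} (h : Heights T Y δ ν) (hδ : δ ≤ δ') : Heights T Y δ' ν :=
  ⟨h.prob, h.supp, fun m n hm hn hmn hY => (h.small m n hm hn hmn hY).trans (by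
    have : 0 ≤ 1 + 1 / |Real.log ((m:ℝ) / n)| := by positivity
    exact mul_le_mul_of_nonneg_right hδ this)⟩

lemma Heights.toSmall {T θ δ : ℝ} (hT : 0 < T) {ν : Measure ℝ} (h : Heights T (T ^ (2 * θ)) δ ν) :
    Small ν δ (2 * θ * Real.log T) := by
  intro m n hm hn hmn hY
  have hm0 : (0:ℝ) < m := by exact_mod_cast hm
  have hn0 : (0:ℝ) < n := by exact_mod_cast hn
  have h1 : (n:ℝ) * m ≤ T ^ (2 * θ) := by
    rw [Real.rpow_def_of_pos hT, ← Real.log_le_iff_le_exp (by positivity), Real.log_mul hn0.ne' hm0.ne']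
    linarith
  have h2 := h.small n m hn hm (Ne.symm hmn) h1
  have e1 : Real.log ((n:ℝ) / m) = -(Real.log m - Real.log n) := by
    rw [Real.log_div hn0.ne' hm0.ne']; ring
  rw [e1, abs_neg] at h2
  refine le_trans (le_of_eq ?_) h2
  unfold ch
  congr 2
  funext t
  congr 1
  push_cast
  ring

lemma Qn_scale (k : ℕ) {T : ℝ} (hT : Real.log T ≠ 0) (ν : Measure ℝ) (y : ℝ) :
    Qn k ν (Real.log T * y) T = ((Real.log T : ℂ) ^ (k ^ 2))⁻¹ *
    ∫ t, ZP (fun _ : Fin k => (0:ℝ)) (1 / 2 + (y + t : ℝ) * I) *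
      ZP (fun _ : Fin k => (0:ℝ)) (1 / 2 + (y - t : ℝ) * I) ∂ν := by
  unfold Qn
  congr 1
  congr 1; funext t
  simp only [ZP_zero]
  have hT' : (Real.log T : ℂ) ≠ 0 := by exact_mod_cast hT
  have e1 : (1 / 2 + I * (Real.log T * y : ℝ) / Real.log T + I * t : ℂ) = 1 / 2 + (y + t : ℝ) * I := by
    push_cast
    field_simp
    ring
  have e2 : (1 / 2 + I * (Real.log T * y : ℝ) / Real.log T - I * t : ℂ) = 1 / 2 + (y - t : ℝ) * I := by
    push_cast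
    field_simp
    ring
  rw [e1, e2]

/-- the explicit form -/
theorem explicit_form {k : ℕ} {θ θ' : ℝ} (hθ : 0 ≤ θ) (hθ' : θ < θ') {ψ : ℝ → ℂ}
    (hψ : ContDiff ℝ ∞ ψ) (hc : HasCompactSupport ψ) (hs : ∀ ξ : ℝ, 2 * θ < ξ → ψ ξ = 0) (hk : 1 ≤ k) (N : ℕ) :
    ∃ C T₀ : ℝ, 0 ≤ C ∧ Real.exp 1 ≤ T₀ ∧ ∀ T : ℝ, T₀ ≤ T → ∀ (ν : Measure ℝ) (δ : ℝ), 0 ≤ δ →
      Heights T (T ^ (2 * θ)) δ ν →
      Integrable (fun α : ℝ => P ψ (α * I) * Qn k ν α T) ∧
      ‖(∫ α : ℝ, P ψ (α * I) * Qn k ν α T) - 2 * Real.pi / (Real.log T : ℂ) ^ (k ^ 2) *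
        ∑' n : ℕ, (dk k n : ℂ) * dk k n / n * ψ (2 * Real.log n / Real.log T)‖ ≤ C * (δ * T ^ θ' + (T ^ N)⁻¹) := by
  obtain ⟨C, T1, hC, hT1, hc'⟩ := meas (ξ1 := 2 * θ) (ψ := ψ) ⟨hψ, hc, hs⟩ (by linarith) (θ := θ') (by linarith)
    (fun _ : Fin k => (0:ℝ)) (fun _ : Fin k => (0:ℝ)) N
  refine ⟨C, T1, hC, hT1, fun T hT ν δ hδ hν => ?_⟩
  have hTe : Real.exp 1 ≤ T := hT1.trans hT
  have hT1' : 1 ≤ T := by have := Real.add_one_le_exp 1; linarith
  have hT0 : 0 < T := by linarith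
  obtain ⟨i3, h3⟩ := hc' T hT ν hν.prob hν.supp δ hδ (hν.toSmall hT0)
  have hL : 1 ≤ Real.log T := by
    rw [Real.le_log_iff_exp_le hT0]; exact hTe
  set L := Real.log T with hLd
  have hL0 : 0 < L := by linarith
  have hLc : (L : ℂ) ≠ 0 := by exact_mod_cast hL0.ne'
  simp only [tau_neg_zero] at h3
  have hpt : ∀ y : ℝ, P ψ ((L * y : ℝ) * I) * Qn k ν (L * y) T = (((L : ℂ) ^ (k ^ 2))⁻¹) *
      (P ψ (L * y * I) * (∫ t,
        ZP (fun _ : Fin k => (0:ℝ)) (1 / 2 + (y + t : ℝ) * I) *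
          ZP (fun _ : Fin k => (0:ℝ)) (1 / 2 + (y - t : ℝ) * I) ∂ν)) := by
    intro y
    rw [Qn_scale k (by rw [← hLd]; exact hL0.ne') ν y, ← hLd]
    push_cast
    ring
  have e1 : (∫ α : ℝ, P ψ (α * I) * Qn k ν α T) = ((L : ℂ) ^ (k ^ 2))⁻¹ * L *
      ∫ y : ℝ, P ψ (L * y * I) * (∫ t,
        ZP (fun _ : Fin k => (0:ℝ)) (1 / 2 + (y + t : ℝ) * I) *
          ZP (fun _ : Fin k => (0:ℝ)) (1 / 2 + (y - t : ℝ) * I) ∂ν) := by
    have h4 := Measure.integral_comp_mul_left (fun α : ℝ => P ψ (α * I) * Qn k ν α T) L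
    have h5 : ∫ α : ℝ, P ψ (α * I) * Qn k ν α T = (L : ℂ) * ∫ y : ℝ, P ψ ((L * y : ℝ) * I) * Qn k ν (L * y) T := by
      rw [h4, abs_of_pos (by positivity)]
      rw [Complex.real_smul, ← mul_assoc, ← Complex.ofReal_mul, mul_inv_cancel₀ hL0.ne',
        Complex.ofReal_one, one_mul]
    rw [h5, integral_congr_ae (Eventually.of_forall hpt), integral_const_mul]
    ring
  refine ⟨?_, ?_⟩
  · have i4 : Integrable fun y : ℝ => P ψ ((L * y : ℝ) * I) * Qn k ν (L * y) T := by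
      rw [funext hpt]
      exact i3.const_mul _
    have i5 := i4.comp_mul_left' (inv_ne_zero hL0.ne')
    refine i5.congr (Eventually.of_forall fun α => ?_)
    show P ψ ((L * (L⁻¹ * α) : ℝ) * I) * Qn k ν (L * (L⁻¹ * α)) T = _
    rw [← mul_assoc, mul_inv_cancel₀ hL0.ne', one_mul]
  rw [e1]
  set J := ∫ y : ℝ, P ψ (L * y * I) * (∫ t,
        ZP (fun _ : Fin k => (0:ℝ)) (1 / 2 + (y + t : ℝ) * I) *
          ZP (fun _ : Fin k => (0:ℝ)) (1 / 2 + (y - t : ℝ) * I) ∂ν) with hJ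
  set S := ∑' n : ℕ, (dk k n : ℂ) * dk k n / n * ψ (2 * Real.log n / L) with hS
  have e2 : ((L : ℂ) ^ (k ^ 2))⁻¹ * L * J - 2 * Real.pi / (L : ℂ) ^ (k ^ 2) * S =
      ((L : ℂ) ^ (k ^ 2))⁻¹ * L * (J - ((2 * Real.pi / L : ℝ) : ℂ) * S) := by
    push_cast
    field_simp
  rw [e2, norm_mul, norm_mul, norm_inv, norm_pow, Complex.norm_real, Real.norm_of_nonneg hL0.le]
  have h6 : (L ^ (k ^ 2))⁻¹ * L ≤ 1 := by
    rw [inv_mul_le_iff₀ (by positivity), mul_one]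
    exact le_self_pow₀ hL (by positivity)
  calc _ ≤ 1 * (C * (δ * T ^ θ' + (T ^ N)⁻¹)) := by gcongr
    _ = _ := one_mul _

/-- the limit -/
theorem limit_form {k : ℕ} {θ θ' : ℝ} (hθ : 0 ≤ θ) (hθ' : θ < θ') {ψ : ℝ → ℂ}
    (hψ : ContDiff ℝ ∞ ψ) (hc : HasCompactSupport ψ) (hs : ∀ ξ : ℝ, 2 * θ < ξ → ψ ξ = 0) (hk : 1 ≤ k) (η : ℝ) (hη : 0 < η) :
    ∃ T₀ : ℝ, Real.exp 1 ≤ T₀ ∧ ∀ T : ℝ, T₀ ≤ T → ∀ ν : Measure ℝ, Heights T (T ^ (2 * θ)) (T ^ (-θ')) ν →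
      Integrable (fun α : ℝ => P ψ (α * I) * Qn k ν α T) ∧
      ‖(∫ α : ℝ, P ψ (α * I) * Qn k ν α T) - 2 * Real.pi * ak k *
        ∫ u in Set.Ioi (0:ℝ), (u : ℂ) ^ (k ^ 2 - 1) / (k ^ 2 - 1).factorial * ψ (2 * u)‖ ≤ η := by
  obtain ⟨θ₁, h1, h2⟩ := exists_between hθ'
  obtain ⟨C, T₁, hC, hT₁, h⟩ := explicit_form hθ h1 hψ hc hs hk 1
  have hdiag := diag_limit hk ψ hψ.continuous (2 * θ + 1) (by linarith) (fun u hu => hs u (by linarith))
  rw [H306R2.aF_nat k hk] at hdiag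
  have hd1 := (hdiag.comp Real.tendsto_log_atTop).const_mul (2 * Real.pi : ℂ)
  have hpow : Tendsto (fun T : ℝ => C * (T ^ (θ₁ - θ') + T⁻¹)) atTop (𝓝 (C * (0 + 0))) := by
    refine Tendsto.const_mul _ (Tendsto.add ?_ tendsto_inv_atTop_zero)
    have := tendsto_rpow_neg_atTop (show 0 < θ' - θ₁ by linarith)
    simpa using this
  rw [add_zero, mul_zero] at hpow
  obtain ⟨T₂, hT₂⟩ := eventually_atTop.mp ((Metric.tendsto_nhds.mp hd1 (η / 2) (by positivity)).and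
    (hpow.eventually (gt_mem_nhds (show 0 < η / 2 by positivity))))
  refine ⟨max T₁ T₂, hT₁.trans (le_max_left _ _), fun T hT ν hν => ?_⟩
  have hTe : Real.exp 1 ≤ T := hT₁.trans ((le_max_left _ _).trans hT)
  have hT1' : 1 ≤ T := by have := Real.add_one_le_exp 1; linarith
  have hT0 : 0 < T := by linarith
  obtain ⟨b0, b1⟩ := h T ((le_max_left _ _).trans hT) ν (T ^ (-θ')) (by positivity) hν
  refine ⟨b0, ?_⟩
  obtain ⟨b2, b3⟩ := hT₂ T ((le_max_right _ _).trans hT)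
  rw [dist_eq_norm] at b2
  have b4 : C * (T ^ (-θ') * T ^ θ₁ + (T ^ 1)⁻¹) = C * (T ^ (θ₁ - θ') + T⁻¹) := by
    rw [← Real.rpow_add hT0, pow_one]
    congr 3; ring
  rw [b4] at b1
  have e1 : 2 * (Real.pi : ℂ) / (Real.log T : ℂ) ^ (k ^ 2) *
        ∑' n : ℕ, (dk k n : ℂ) * dk k n / n * ψ (2 * Real.log n / Real.log T) =
      2 * Real.pi * ((∑' n : ℕ, (dk k n : ℂ) * dk k n / n * ψ (2 * Real.log n / Real.log T)) /
        (Real.log T : ℂ) ^ (k ^ 2)) := by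
    ring
  rw [e1] at b1
  have b5 := norm_add_le ((∫ α : ℝ, P ψ (α * I) * Qn k ν α T) - 2 * Real.pi *
      ((∑' n : ℕ, (dk k n : ℂ) * dk k n / n * ψ (2 * Real.log n / Real.log T)) /
        (Real.log T : ℂ) ^ (k ^ 2)))
    (2 * Real.pi *
      ((∑' n : ℕ, (dk k n : ℂ) * dk k n / n * ψ (2 * Real.log n / Real.log T)) /
        (Real.log T : ℂ) ^ (k ^ 2)) - 2 * Real.pi * (((∏' p : Nat.Primes, ((1 - 1 / (p : ℝ)) ^ (k ^ 2) *
          ∑' m : ℕ, ((m + k - 1).choose m : ℝ) ^ 2 * (1 / (p : ℝ)) ^ m) : ℝ) : ℂ) *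
        ∫ u in Set.Ioi (0:ℝ), (u : ℂ) ^ (k ^ 2 - 1) / (k ^ 2 - 1).factorial * ψ (2 * u)))
  refine le_trans (le_of_eq ?_) (b5.trans (by
    have b6 : ‖2 * (Real.pi : ℂ) *
      ((∑' n : ℕ, (dk k n : ℂ) * dk k n / n * ψ (2 * Real.log n / Real.log T)) /
        (Real.log T : ℂ) ^ (k ^ 2)) - 2 * Real.pi * (((∏' p : Nat.Primes, ((1 - 1 / (p : ℝ)) ^ (k ^ 2) *
          ∑' m : ℕ, ((m + k - 1).choose m : ℝ) ^ 2 * (1 / (p : ℝ)) ^ m) : ℝ) : ℂ) *
        ∫ u in Set.Ioi (0:ℝ), (u : ℂ) ^ (k ^ 2 - 1) / (k ^ 2 - 1).factorial * ψ (2 * u))‖ < η / 2 := b2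
    linarith))
  congr 1
  unfold ak
  ring

/-- the heights `T x`, `x` distributed by a measure with decaying Fourier transform -/
theorem dilated {s K : ℝ} (hs0 : 0 < s) (hs1 : s ≤ 1) (hK : 0 ≤ K) {θ' : ℝ} (hθ' : θ' < s) :
    ∃ T₀ : ℝ, 1 ≤ T₀ ∧ ∀ T : ℝ, T₀ ≤ T → ∀ μ : Measure ℝ, IsProbabilityMeasure μ → (∀ᵐ x ∂μ, x ∈ Icc (1:ℝ) 2) →
      (∀ u : ℝ, 1 ≤ |u| → ‖∫ x : ℝ, exp (I * (u * x)) ∂μ‖ ≤ K * |u| ^ (-s)) → ∀ Y : ℝ, 0 ≤ Y →
      Heights T Y (T ^ (-θ')) (μ.map (fun x => T * x)) := by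
  have ht : Tendsto (fun T : ℝ => (K + 1) * T ^ (-(s - θ'))) atTop (𝓝 ((K + 1) * 0)) :=
    (tendsto_rpow_neg_atTop (by linarith : 0 < s - θ')).const_mul _
  rw [mul_zero] at ht
  obtain ⟨T₁, hT₁⟩ := eventually_atTop.mp (ht.eventually (gt_mem_nhds (show (0:ℝ) < 1 by norm_num)))
  refine ⟨max 1 T₁, le_max_left _ _, fun T hT μ hμ hsup hdec Y hY => ?_⟩
  have hT1 : 1 ≤ T := (le_max_left _ _).trans hT
  have hT0 : 0 < T := by linarith
  have hKT := hT₁ T ((le_max_right _ _).trans hT)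
  have hme : Measurable (fun x : ℝ => T * x) := by fun_prop
  have hbd : (K + 1) * T ^ (-s) ≤ T ^ (-θ') := by
    have e1 : (K + 1) * T ^ (-s) = ((K + 1) * T ^ (-(s - θ'))) * T ^ (-θ') := by
      rw [mul_assoc, ← Real.rpow_add hT0]
      congr 2; ring
    rw [e1]
    have : 0 ≤ T ^ (-θ') := by positivity
    nlinarith
  refine ⟨Measure.isProbabilityMeasure_map hme.aemeasurable, ?_, ?_⟩
  · refine (ae_map_iff (p := fun t => t ∈ Icc T (2 * T)) hme.aemeasurable measurableSet_Icc).2 ?_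
    filter_upwards [hsup] with x hx
    exact ⟨by nlinarith [hx.1], by nlinarith [hx.2]⟩
  · intro m n hm hn hmn hY'
    have hm0 : (0:ℝ) < m := by exact_mod_cast hm
    have hn0 : (0:ℝ) < n := by exact_mod_cast hn
    set lam := Real.log ((m:ℝ) / n) with hlam
    have hl0 : lam ≠ 0 := by
      rw [hlam]
      refine Real.log_ne_zero_of_pos_of_ne_one (by positivity) ?_
      intro h1
      rw [div_eq_one_iff_eq hn0.ne'] at h1
      exact hmn (by exact_mod_cast h1)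
    have hal : 0 < |lam| := abs_pos.2 hl0
    rw [integral_map hme.aemeasurable (by fun_prop)]
    have e2 : (∫ x : ℝ, exp (I * (((T * x : ℝ) : ℂ) * lam)) ∂μ) = ∫ x : ℝ, exp (I * (((T * lam : ℝ) : ℂ) * x)) ∂μ := by
      congr 1; funext x
      congr 1
      push_cast; ring
    rw [e2]
    have hab : |T * lam| = T * |lam| := by rw [abs_mul, abs_of_pos hT0]
    have hpos : 0 ≤ T ^ (-s) := by positivity
    rcases le_or_gt 1 |T * lam| with h1 | h1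
    · refine (hdec (T * lam) h1).trans ?_
      rw [hab, Real.mul_rpow hT0.le hal.le]
      have h3 : |lam| ^ (-s) ≤ 1 + 1 / |lam| := by
        rcases le_or_gt 1 |lam| with h4 | h4
        · have := Real.rpow_le_one_of_one_le_of_nonpos h4 (by linarith : -s ≤ 0)
          have : 0 ≤ 1 / |lam| := by positivity
          linarith
        · have h5 : |lam| ^ (-s) ≤ |lam| ^ (-1 : ℝ) :=
            Real.rpow_le_rpow_of_exponent_ge hal h4.le (by linarith)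
          rw [Real.rpow_neg_one] at h5
          rw [one_div]
          linarith
      calc K * (T ^ (-s) * |lam| ^ (-s)) ≤ K * (T ^ (-s) * (1 + 1 / |lam|)) := by gcongr
        _ = (K * T ^ (-s)) * (1 + 1 / |lam|) := by ring
        _ ≤ ((K + 1) * T ^ (-s)) * (1 + 1 / |lam|) := by
            gcongr
            linarith
        _ ≤ _ := by gcongr
    · have h2 : ‖∫ x : ℝ, exp (I * (((T * lam : ℝ) : ℂ) * x)) ∂μ‖ ≤ 1 := by
        refine (norm_integral_le_of_norm_le_const (C := 1) (Eventually.of_forall fun x => ?_)).trans ?_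
        · have : (I * (((T * lam : ℝ) : ℂ) * x)) = ((T * lam * x : ℝ) : ℂ) * I := by push_cast; ring
          rw [this, Complex.norm_exp_ofReal_mul_I]
        · simp
      refine h2.trans ?_
      rw [hab] at h1
      have h3 : 1 / |lam| > T := by
        rw [gt_iff_lt, lt_div_iff₀ hal]
        linarith
      have h4 : 1 ≤ T ^ (-s) * T := by
        nth_rewrite 2 [← Real.rpow_one T]
        rw [← Real.rpow_add hT0]
        exact Real.one_le_rpow hT1 (by linarith)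
      calc (1:ℝ) ≤ T ^ (-s) * T := h4
        _ ≤ T ^ (-s) * (1 + 1 / |lam|) := by
            refine mul_le_mul_of_nonneg_left ?_ hpos
            linarith
        _ ≤ ((K + 1) * T ^ (-s)) * (1 + 1 / |lam|) := by
            have : 0 ≤ 1 + 1 / |lam| := by positivity
            have : 0 ≤ K * T ^ (-s) * (1 + 1 / |lam|) := by positivity
            nlinarith
        _ ≤ _ := by gcongr

end

end Pool.Agent.R461.HM
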