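import Pool.Agent.R461.HM.Lim

set_option autoImplicit false

/-! Lower bounds of the conjectured order for the moments, heights distributed by a measure, at the scale `1 / log T`. -/

namespace Pool.Agent.R461.HM

open Complex Filter Topology MeasureTheory Set
open scoped ContDiff ComplexConjugate ENNReal
open Pool.Agent.W182.KO

noncomputable section

/-- `|ζ(1/2 + it)|^(2k)` -/
def zz (k : ℕ) (t : ℝ) : ℝ := ‖riemannZeta (1 / 2 + I * t)‖ ^ (2 * k)

lemma zz_nonneg (k : ℕ) (t : ℝ) : 0 ≤ zz k t := by unfold zz; positivity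

lemma zz_cont (k : ℕ) : Continuous (zz k) := by
  unfold zz
  have h := H306R2.zeta_line_continuous
  have h2 : Continuous fun t : ℝ => riemannZeta (1 / 2 + I * t) := by
    refine h.congr fun t => ?_
    congr 1; ring
  exact h2.norm.pow _

/-- the weight at the scale `1 / L` -/
def wt (N : ℕ) (L u : ℝ) : ℝ := L / (1 + L * |u|) ^ N

lemma wt_nonneg (N : ℕ) {L : ℝ} (hL : 0 < L) (u : ℝ) : 0 ≤ wt N L u := by
  unfold wt
  have : 0 ≤ L * |u| := by positivity
  positivity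

lemma wt_cont (N : ℕ) {L : ℝ} (hL : 0 < L) : Continuous (wt N L) := by
  unfold wt
  refine Continuous.div (by fun_prop) (by fun_prop) fun u => ?_
  have : 0 ≤ L * |u| := by positivity
  positivity

lemma wt_neg (N : ℕ) (L u : ℝ) : wt N L (-u) = wt N L u := by
  unfold wt; rw [abs_neg]

lemma prod_le (k : ℕ) (t y : ℝ) :
    ‖ZP (fun _ : Fin k => (0:ℝ)) (1 / 2 + (y + t : ℝ) * I) * ZP (fun _ : Fin k => (0:ℝ)) (1 / 2 + (y - t : ℝ) * I)‖ ≤
      1 / 2 * (zz k (t + y) + zz k (t + -y)) := by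
  rw [ZP_zero, ZP_zero, norm_mul, norm_pow, norm_pow]
  have e1 : (1 / 2 + ((y + t : ℝ) : ℂ) * I) = 1 / 2 + I * ((t + y : ℝ) : ℂ) := by push_cast; ring
  have e2 : (1 / 2 + ((y - t : ℝ) : ℂ) * I) = conj (1 / 2 + I * ((t + -y : ℝ) : ℂ)) := by
    rw [map_add, map_mul, conj_I, Complex.conj_ofReal, map_div₀, map_one, map_ofNat]
    push_cast; ring
  rw [e1, e2, riemannZeta_conj, RCLike.norm_conj]
  unfold zz
  set a := ‖riemannZeta (1 / 2 + I * ((t + y : ℝ) : ℂ))‖ ^ k with ha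
  set b := ‖riemannZeta (1 / 2 + I * ((t + -y : ℝ) : ℂ))‖ ^ k with hb
  have e3 : ‖riemannZeta (1 / 2 + I * ((t + y : ℝ) : ℂ))‖ ^ (2 * k) = a ^ 2 := by rw [ha, ← pow_mul]; ring
  have e4 : ‖riemannZeta (1 / 2 + I * ((t + -y : ℝ) : ℂ))‖ ^ (2 * k) = b ^ 2 := by rw [hb, ← pow_mul]; ring
  rw [e3, e4]
  nlinarith [sq_nonneg (a - b)]

/-- the test function: a bump inside `(0, 2θ)` -/
lemma exists_test {k : ℕ} (hk : 1 ≤ k) {θ : ℝ} (hθ : 0 < θ) : ∃ ψ : ℝ → ℂ, ContDiff ℝ ∞ ψ ∧ HasCompactSupport ψ ∧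
    (∀ ξ : ℝ, 2 * θ < ξ → ψ ξ = 0) ∧
    0 < ‖2 * (Real.pi : ℂ) * ak k * ∫ u in Set.Ioi (0:ℝ), (u : ℂ) ^ (k ^ 2 - 1) / (k ^ 2 - 1).factorial * ψ (2 * u)‖ := by
  set f : ContDiffBump θ := ⟨θ / 4, θ / 2, by positivity, by linarith⟩ with hf
  have hsupp : ∀ ξ : ℝ, f ξ ≠ 0 → θ / 2 < ξ ∧ ξ < 3 * θ / 2 := by
    intro ξ hξ
    have h1 : ξ ∈ Function.support f := hξ
    rw [f.support_eq, Metric.mem_ball, Real.dist_eq, abs_lt] at h1
    have e : f.rOut = θ / 2 := rfl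
    rw [e] at h1
    constructor <;> linarith [h1.1, h1.2]
  set g : ℝ → ℝ := fun u => u ^ (k ^ 2 - 1) / (k ^ 2 - 1).factorial * f (2 * u) with hg
  have hg0 : 0 < ∫ u, g u := by
    refine Continuous.integral_pos_of_hasCompactSupport_nonneg_nonzero (x := θ / 2) ?_ ?_ ?_ ?_
    · have := f.continuous
      fun_prop
    · have h1 : HasCompactSupport fun u : ℝ => f (2 * u) := by
        have := f.hasCompactSupport.comp_homeomorph (Homeomorph.mulLeft₀ (2:ℝ) two_ne_zero)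
        exact this
      exact h1.mul_left
    · intro u
      simp only [Pi.zero_apply, hg]
      by_cases h0 : f (2 * u) = 0
      · rw [h0, mul_zero]
      · have := (hsupp _ h0).1
        have hu : 0 ≤ u := by linarith
        have := f.nonneg (x := 2 * u)
        positivity
    · simp only [hg]
      have e : (2:ℝ) * (θ / 2) = θ := by ring
      have e1 : f θ = 1 := f.one_of_mem_closedBall (by
        rw [Metric.mem_closedBall, dist_self]; exact f.rIn_pos.le)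
      rw [e, e1]
      positivity
  have hset : ∫ u in Set.Ioi (0:ℝ), g u = ∫ u, g u := by
    refine setIntegral_eq_integral_of_forall_compl_eq_zero fun u hu => ?_
    simp only [hg]
    by_cases h0 : f (2 * u) = 0
    · rw [h0, mul_zero]
    · exfalso
      apply hu
      have := (hsupp _ h0).1
      show 0 < u
      linarith
  refine ⟨fun ξ => (f ξ : ℂ), ?_, ?_, fun ξ hξ => ?_, ?_⟩
  · exact Complex.ofRealCLM.contDiff.comp f.contDiff
  · exact f.hasCompactSupport.comp_left (g := fun x : ℝ => (x : ℂ)) (by simp)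
  · by_contra h0
    have : f ξ ≠ 0 := fun h => h0 (by show ((f ξ : ℝ) : ℂ) = 0; rw [h]; simp)
    have := (hsupp ξ this).2
    linarith
  · have e1 : (∫ u in Set.Ioi (0:ℝ), (u : ℂ) ^ (k ^ 2 - 1) / (k ^ 2 - 1).factorial * ((f (2 * u) : ℝ) : ℂ)) =
        ((∫ u, g u : ℝ) : ℂ) := by
      rw [← hset, ← integral_complex_ofReal]
      refine setIntegral_congr_fun measurableSet_Ioi fun u hu => ?_
      simp only [hg]
      push_cast
      ring
    rw [e1]
    have hak : 0 < ak k := by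
      have h1 := H306R2.aF_pos (κ := (k:ℝ)) (by exact_mod_cast hk)
      rw [H306R2.aF_nat k hk] at h1
      exact h1
    rw [norm_mul, norm_mul, norm_mul, Complex.norm_real, Complex.norm_real, Complex.norm_real]
    have h2 : (0:ℝ) < ‖(2:ℂ)‖ := by simp
    have h3 : (0:ℝ) < ‖Real.pi‖ := norm_pos_iff.2 Real.pi_pos.ne'
    have h4 : (0:ℝ) < ‖ak k‖ := norm_pos_iff.2 hak.ne'
    have h5 : (0:ℝ) < ‖∫ u, g u‖ := norm_pos_iff.2 hg0.ne'
    positivity

/-- the upper bound of the weighted shifted moment by the moments at the heights -/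
lemma upper (k N : ℕ) {ψ : ℝ → ℂ} {T Cφ : ℝ} (hT : Real.exp 1 ≤ T) (hC : 0 ≤ Cφ)
    (hφ : ∀ α : ℝ, ‖P ψ (α * I)‖ ≤ Cφ / (1 + |α|) ^ N) (ν : Measure ℝ) [IsProbabilityMeasure ν] :
    ‖∫ α : ℝ, P ψ (α * I) * Qn k ν α T‖ₑ ≤ ENNReal.ofReal (Cφ * (Real.log T ^ (k ^ 2))⁻¹) *
      ∫⁻ t, ∫⁻ u, ENNReal.ofReal (zz k (t + u) * wt N (Real.log T) u) ∂volume ∂ν := by
  have hT0 : 0 < T := (Real.exp_pos 1).trans_le hT
  have hL : 1 ≤ Real.log T := by rwa [Real.le_log_iff_exp_le hT0]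
  set L := Real.log T with hLd
  have hL0 : 0 < L := by linarith
  have h5 : ∫ α : ℝ, P ψ (α * I) * Qn k ν α T = ∫ y : ℝ, (L : ℂ) * (P ψ ((L * y : ℝ) * I) * Qn k ν (L * y) T) := by
    have h4 := Measure.integral_comp_mul_left (fun α : ℝ => P ψ (α * I) * Qn k ν α T) L
    rw [integral_const_mul, h4, abs_of_pos (by positivity)]
    rw [Complex.real_smul, ← mul_assoc, ← Complex.ofReal_mul, mul_inv_cancel₀ hL0.ne',
      Complex.ofReal_one, one_mul]
  rw [h5]
  refine (enorm_integral_le_lintegral_enorm _).trans ?_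
  set c1 : ℝ := Cφ * (L ^ (k ^ 2))⁻¹ with hc1
  have hc10 : 0 ≤ c1 := by positivity
  -- pointwise bound
  have hpt : ∀ y : ℝ, ‖(L : ℂ) * (P ψ ((L * y : ℝ) * I) * Qn k ν (L * y) T)‖ₑ ≤
      ENNReal.ofReal (c1 / 2) * (∫⁻ t, ENNReal.ofReal (zz k (t + y) * wt N L y) ∂ν) +
      ENNReal.ofReal (c1 / 2) * (∫⁻ t, ENNReal.ofReal (zz k (t + -y) * wt N L (-y)) ∂ν) := by
    intro y
    have hq : ‖Qn k ν (L * y) T‖ₑ ≤ ENNReal.ofReal ((L ^ (k ^ 2))⁻¹) *
        ∫⁻ t, ENNReal.ofReal (1 / 2 * (zz k (t + y) + zz k (t + -y))) ∂ν := by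
      rw [Qn_scale k (by rw [← hLd]; exact hL0.ne') ν y, ← hLd, enorm_mul]
      gcongr
      · rw [← ofReal_norm, norm_inv, norm_pow, Complex.norm_real, Real.norm_of_nonneg hL0.le]
      · refine (enorm_integral_le_lintegral_enorm _).trans (lintegral_mono fun t => ?_)
        rw [← ofReal_norm]
        exact ENNReal.ofReal_le_ofReal (prod_le k t y)
    have hp : ‖(L : ℂ)‖ₑ * ‖P ψ ((L * y : ℝ) * I)‖ₑ ≤ ENNReal.ofReal (Cφ * wt N L y) := by
      rw [← ofReal_norm, ← ofReal_norm, ← ENNReal.ofReal_mul (norm_nonneg _)]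
      refine ENNReal.ofReal_le_ofReal ?_
      rw [Complex.norm_real, Real.norm_of_nonneg hL0.le]
      have h6 := hφ (L * y)
      rw [abs_mul, abs_of_pos hL0] at h6
      unfold wt
      calc L * ‖P ψ ((L * y : ℝ) * I)‖ ≤ L * (Cφ / (1 + L * |y|) ^ N) := by gcongr
        _ = _ := by ring
    have hm1 : Measurable fun t : ℝ => ENNReal.ofReal (zz k (t + y) * wt N L y) := by
      have := zz_cont k
      have : Continuous fun t : ℝ => zz k (t + y) * wt N L y := by fun_prop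
      exact this.measurable.ennreal_ofReal
    have hm2 : Measurable fun t : ℝ => ENNReal.ofReal (zz k (t + -y) * wt N L (-y)) := by
      have := zz_cont k
      have : Continuous fun t : ℝ => zz k (t + -y) * wt N L (-y) := by fun_prop
      exact this.measurable.ennreal_ofReal
    rw [enorm_mul, enorm_mul, ← mul_assoc]
    calc ‖(L : ℂ)‖ₑ * ‖P ψ ((L * y : ℝ) * I)‖ₑ * ‖Qn k ν (L * y) T‖ₑ ≤ ENNReal.ofReal (Cφ * wt N L y) *
          (ENNReal.ofReal ((L ^ (k ^ 2))⁻¹) * ∫⁻ t, ENNReal.ofReal (1 / 2 * (zz k (t + y) + zz k (t + -y))) ∂ν) := by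
          gcongr
      _ = ∫⁻ t, ENNReal.ofReal (c1 / 2 * (zz k (t + y) * wt N L y) + c1 / 2 * (zz k (t + -y) * wt N L (-y))) ∂ν := by
          rw [← mul_assoc, ← ENNReal.ofReal_mul (mul_nonneg hC (wt_nonneg N hL0 y)), ← lintegral_const_mul' _ _ (by simp)]
          congr 1; funext t
          rw [← ENNReal.ofReal_mul (mul_nonneg (mul_nonneg hC (wt_nonneg N hL0 y)) (by positivity))]
          congr 1
          rw [wt_neg, hc1]
          ring
      _ = _ := by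
          rw [← lintegral_const_mul _ hm1, ← lintegral_const_mul _ hm2, ← lintegral_add_left (hm1.const_mul _)]
          congr 1; funext t
          rw [← ENNReal.ofReal_mul (by positivity), ← ENNReal.ofReal_mul (by positivity),
            ← ENNReal.ofReal_add (by
              have := zz_nonneg k (t + y)
              have := wt_nonneg N hL0 y
              positivity) (by
              have := zz_nonneg k (t + -y)
              have := wt_nonneg N hL0 (-y)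
              positivity)]
  refine (lintegral_mono hpt).trans ?_
  have hjoint : Continuous fun p : ℝ × ℝ => zz k (p.2 + p.1) * wt N L p.1 :=
    ((zz_cont k).comp (by fun_prop : Continuous fun p : ℝ × ℝ => p.2 + p.1)).mul ((wt_cont N hL0).comp continuous_fst)
  have hmj : Measurable fun p : ℝ × ℝ => ENNReal.ofReal (zz k (p.2 + p.1) * wt N L p.1) := hjoint.measurable.ennreal_ofReal
  have hF : Measurable fun y : ℝ => ∫⁻ t, ENNReal.ofReal (zz k (t + y) * wt N L y) ∂ν :=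
    hmj.lintegral_prod_right'
  have hneg : ∫⁻ y : ℝ, (∫⁻ t, ENNReal.ofReal (zz k (t + -y) * wt N L (-y)) ∂ν) =
      ∫⁻ y : ℝ, (∫⁻ t, ENNReal.ofReal (zz k (t + y) * wt N L y) ∂ν) :=
    lintegral_neg_eq_self (fun y : ℝ => ∫⁻ t, ENNReal.ofReal (zz k (t + y) * wt N L y) ∂ν)
  rw [lintegral_add_left (hF.const_mul _), lintegral_const_mul _ hF, lintegral_const_mul' _ _ (by simp), hneg, ← add_mul,
    ← ENNReal.ofReal_add (by positivity) (by positivity), add_halves]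
  refine mul_le_mul_right (le_of_eq ?_) _
  exact lintegral_lintegral_swap hmj.aemeasurable

/-- the lower bound -/
theorem lower {k : ℕ} (hk : 1 ≤ k) (N : ℕ) {θ θ' : ℝ} (hθ : 0 < θ) (hθ' : θ < θ') :
    ∃ c T₀ : ℝ, 0 < c ∧ Real.exp 1 ≤ T₀ ∧ ∀ T : ℝ, T₀ ≤ T → ∀ ν : Measure ℝ, Heights T (T ^ (2 * θ)) (T ^ (-θ')) ν →
      ENNReal.ofReal (c * Real.log T ^ (k ^ 2)) ≤
        ∫⁻ t, ∫⁻ u, ENNReal.ofReal (zz k (t + u) * wt N (Real.log T) u) ∂volume ∂ν := by
  obtain ⟨ψ, hψ, hc, hs, hpos⟩ := exists_test hk hθ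
  set c0 := ‖2 * (Real.pi : ℂ) * ak k * ∫ u in Set.Ioi (0:ℝ), (u : ℂ) ^ (k ^ 2 - 1) / (k ^ 2 - 1).factorial * ψ (2 * u)‖
    with hc0
  obtain ⟨T₀, hT₀, h⟩ := limit_form hθ.le hθ' hψ hc hs hk (c0 / 2) (by positivity)
  have hTF : TF (2 * θ) ψ := ⟨hψ, hc, hs⟩
  obtain ⟨Cφ, hCφ, hP⟩ := P_bound hTF N
  have hφ : ∀ α : ℝ, ‖P ψ (α * I)‖ ≤ (Cφ + 1) / (1 + |α|) ^ N := by
    intro α
    have h1 := hP (α * I) (by simp)
    have e1 : ((α:ℂ) * I).re = 0 := by simp
    have e2 : ‖(α:ℂ) * I‖ = |α| := by simp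
    rw [e1, e2, mul_zero, Real.exp_zero, mul_one] at h1
    rw [le_div_iff₀ (by positivity)]
    linarith
  refine ⟨c0 / (2 * (Cφ + 1)), T₀, by positivity, hT₀, fun T hT ν hν => ?_⟩
  have hTe := hT₀.trans hT
  have hT0 : 0 < T := (Real.exp_pos 1).trans_le hTe
  have hL : 1 ≤ Real.log T := by rwa [Real.le_log_iff_exp_le hT0]
  have hL0 : 0 < Real.log T := by linarith
  obtain ⟨-, h1⟩ := h T hT ν hν
  haveI := hν.prob
  have h2 := upper k N hTe (by positivity : 0 ≤ Cφ + 1) hφ ν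
  have h3 : c0 / 2 ≤ ‖∫ α : ℝ, P ψ (α * I) * Qn k ν α T‖ := by
    have h4 := norm_sub_norm_le (2 * (Real.pi : ℂ) * ak k * ∫ u in Set.Ioi (0:ℝ), (u : ℂ) ^ (k ^ 2 - 1) /
      (k ^ 2 - 1).factorial * ψ (2 * u)) (∫ α : ℝ, P ψ (α * I) * Qn k ν α T)
    rw [norm_sub_rev, ← hc0] at h4
    linarith
  have h5 : ENNReal.ofReal (c0 / 2) ≤ ‖∫ α : ℝ, P ψ (α * I) * Qn k ν α T‖ₑ := by
    rw [← ofReal_norm]
    exact ENNReal.ofReal_le_ofReal h3
  have h6 := h5.trans h2
  have h7 : ENNReal.ofReal (c0 / (2 * (Cφ + 1)) * Real.log T ^ (k ^ 2)) =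
      ENNReal.ofReal (((Cφ + 1) * (Real.log T ^ (k ^ 2))⁻¹)⁻¹) * ENNReal.ofReal (c0 / 2) := by
    rw [← ENNReal.ofReal_mul (by positivity)]
    congr 1
    field_simp
  rw [h7]
  refine (mul_le_mul_right h6 _).trans (le_of_eq ?_)
  rw [← mul_assoc, ← ENNReal.ofReal_mul (by positivity), inv_mul_cancel₀ (by positivity), ENNReal.ofReal_one, one_mul]

end

end Pool.Agent.R461.HM
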