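import Pool.Agent.W182.KO.Main

set_option autoImplicit false

/-! Band-limited averages of shifted moments, the heights being distributed by an arbitrary probability measure. -/

namespace Pool.Agent.R461.HM

open Complex Filter Topology MeasureTheory Set
open scoped ContDiff
open Pool.Agent.W182.KO

noncomputable section

variable {ξ1 κ R C1 C2 D1 D2 : ℝ} {ψ : ℝ → ℂ} {F1 F2 : ℂ → ℂ} {M : ℕ} {A B : ℕ → ℂ} {ν : Measure ℝ}

/-- the integral of the character attached to a pair -/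
def ch (ν : Measure ℝ) (x : ℕ × ℕ) : ℂ := ∫ t : ℝ, exp ((-(Real.log x.1 - Real.log x.2) * t : ℝ) * I) ∂ν

lemma prod_int' [IsFiniteMeasure ν] {g : ℝ → ℝ → ℂ} (hc : Continuous (fun p : ℝ × ℝ => g p.1 p.2)) {S : Set ℝ} {B : ℝ}
    (hS : ∀ᵐ t ∂ν, t ∈ S) (hB : ∀ t ∈ S, ∀ y, ‖g t y‖ ≤ B * ((1 + |y|) ^ 2)⁻¹) :
    Integrable (fun p : ℝ × ℝ => g p.1 p.2) (ν.prod volume) := by
  have h1 : Integrable (fun p : ℝ × ℝ => B * ((1 + |p.2|) ^ 2)⁻¹) (ν.prod volume) :=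
    (integrable_const B).mul_prod one_add_inv_sq_int
  refine h1.mono' hc.aestronglyMeasurable ?_
  have h2 := (Measure.quasiMeasurePreserving_fst (μ := ν) (ν := (volume : Measure ℝ))).ae hS
  filter_upwards [h2] with p hp
  exact hB p.1 hp p.2

lemma I0_prod [IsFiniteMeasure ν] {c : ℝ} (h : TF ξ1 ψ) (G1 : DF F1 c R M C1) (G2 : DF F2 c R M C2) {L : ℝ} (hL : 1 ≤ L)
    {T T' : ℝ} (hT : 0 ≤ T) (hν : ∀ᵐ t ∂ν, t ∈ Icc T T') :
    Integrable (fun p : ℝ × ℝ => P ψ (L * p.2 * I) *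
      (F1 (1 / 2 + (p.2 + p.1 : ℝ) * I) * F2 (1 / 2 + (p.2 - p.1 : ℝ) * I))) (ν.prod volume) := by
  obtain ⟨CN, hCN, hP⟩ := P_bound h (0 + 2 + 2 * M)
  refine prod_int' (g := fun t y => P ψ (L * y * I) *
      (F1 (1 / 2 + (y + t : ℝ) * I) * F2 (1 / 2 + (y - t : ℝ) * I))) (I0_joint h G1 G2 L)
      (B := CN * (C1 * C2 * (1 + |T'|) ^ (2 * M))) hν ?_
  intro t ht y
  have hC1 := G1.hC
  have hC2 := G2.hC
  have ht0 : 0 ≤ t := hT.trans ht.1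
  refine decay_le (n := 0) (B := CN * (C1 * C2 * (1 + |T'|) ^ (2 * M)))
    (by positivity) (g := fun y => P ψ (L * y * I) *
      (F1 (1 / 2 + (y + t : ℝ) * I) * F2 (1 / 2 + (y - t : ℝ) * I))) (fun y => ?_) y
  refine (I0_decay G1 G2 hCN hP hL ht0 y).trans ?_
  have h2 : t ≤ |T'| := ht.2.trans (le_abs_self _)
  gcongr

lemma K0_prod [IsFiniteMeasure ν] {c : ℝ} (h : TF ξ1 ψ) (hc : 1 / 2 ≤ c) (G1 : DF F1 c R M C1) (G2 : DF F2 c R M C2)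
    {L : ℝ} (hL : 1 ≤ L) :
    Integrable (fun p : ℝ × ℝ => P ψ ((L * (c - 1 / 2) : ℝ) + L * p.2 * I) *
      (F1 (c + (p.2 + p.1 : ℝ) * I) * F2 (c + (p.2 - p.1 : ℝ) * I))) (ν.prod volume) := by
  obtain ⟨CN, hCN, hP⟩ := P_bound h (0 + 2 + 2 * M)
  have hC1 := G1.hC
  have hC2 := G2.hC
  refine prod_int' (g := fun t y => P ψ ((L * (c - 1 / 2) : ℝ) + L * y * I) *
      (F1 (c + (y + t : ℝ) * I) * F2 (c + (y - t : ℝ) * I))) (K0_joint h G1 G2 L)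
      (S := univ) (B := (CN * (C1 * C2 * Real.exp (ξ1 * (L * (c - 1 / 2)))))) (by simp) ?_
  intro t ht y
  exact decay_le (n := 0) (by positivity) (g := fun y => P ψ ((L * (c - 1 / 2) : ℝ) + L * y * I) *
      (F1 (c + (y + t : ℝ) * I) * F2 (c + (y - t : ℝ) * I)))
      (fun y => K0_decay G1 G2 hc hCN hP hL t y) y

/-- Fubini -/
lemma swap_meas [IsFiniteMeasure ν] {c : ℝ} (h : TF ξ1 ψ) (G1 : DF F1 c R M C1) (G2 : DF F2 c R M C2) {L : ℝ} (hL : 1 ≤ L)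
    {T T' : ℝ} (hT : 0 ≤ T) (hν : ∀ᵐ t ∂ν, t ∈ Icc T T') :
    Integrable (fun y : ℝ => P ψ (L * y * I) * (∫ t,
      F1 (1 / 2 + (y + t : ℝ) * I) * F2 (1 / 2 + (y - t : ℝ) * I) ∂ν)) ∧
    ∫ y : ℝ, P ψ (L * y * I) * (∫ t, F1 (1 / 2 + (y + t : ℝ) * I) * F2 (1 / 2 + (y - t : ℝ) * I) ∂ν) =
      ∫ t, I0 ψ F1 F2 L t ∂ν := by
  have hi := I0_prod h G1 G2 hL hT hν
  refine ⟨?_, ?_⟩
  · refine hi.integral_prod_right.congr (Eventually.of_forall fun u => ?_)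
    show (∫ t : ℝ, P ψ (L * u * I) * (F1 (1 / 2 + (u + t : ℝ) * I) *
      F2 (1 / 2 + (u - t : ℝ) * I)) ∂ν) = _
    rw [integral_const_mul]
  · have hs := integral_integral_swap (f := fun (t y : ℝ) => P ψ (L * y * I) *
      (F1 (1 / 2 + (y + t : ℝ) * I) * F2 (1 / 2 + (y - t : ℝ) * I))) hi
    unfold I0
    rw [hs]
    congr 1; funext y
    rw [integral_const_mul]

/-- the expansion of the integral over the heights -/
theorem meas_hasSum [IsFiniteMeasure ν] (h : TF ξ1 ψ) (hκ : 0 < κ) (E1 : DD F1 A κ D1) (E2 : DD F2 B κ D2) {L : ℝ}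
    (hL : 1 ≤ L) :
    HasSum (fun x : ℕ × ℕ => aa ψ A B κ L x * ch ν x) (∫ t, K0 ψ F1 F2 (1 + 4 * κ) L t ∂ν) := by
  have hn : ∀ (x : ℕ × ℕ) (t : ℝ), ‖aa ψ A B κ L x *
      exp ((-(Real.log x.1 - Real.log x.2) * t : ℝ) * I)‖ = ‖aa ψ A B κ L x‖ := by
    intro x t
    rw [norm_mul, norm_expI, mul_one]
  have hint : ∀ x : ℕ × ℕ, Integrable (fun t : ℝ => aa ψ A B κ L x *
      exp ((-(Real.log x.1 - Real.log x.2) * t : ℝ) * I)) ν := by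
    intro x
    refine (integrable_const ‖aa ψ A B κ L x‖).mono' ?_ (Eventually.of_forall fun t => (hn x t).le)
    exact Continuous.aestronglyMeasurable (by fun_prop)
  have hs : Summable fun x : ℕ × ℕ => ∫ t, ‖aa ψ A B κ L x *
      exp ((-(Real.log x.1 - Real.log x.2) * t : ℝ) * I)‖ ∂ν := by
    simp only [hn]
    refine ((aa_summable (ψ := ψ) hκ E1 E2 L).mul_left (ν.real univ)).congr fun x => ?_
    rw [integral_const, smul_eq_mul]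
  have key := hasSum_integral_of_summable_integral_norm hint hs
  have e1 : (∫ t, ∑' x : ℕ × ℕ, aa ψ A B κ L x *
      exp ((-(Real.log x.1 - Real.log x.2) * t : ℝ) * I) ∂ν) = ∫ t, K0 ψ F1 F2 (1 + 4 * κ) L t ∂ν := by
    congr 1; funext t
    exact (K0_hasSum h hκ E1 E2 hL t).tsum_eq
  rw [e1] at key
  have e2 : (fun x : ℕ × ℕ => ∫ t, aa ψ A B κ L x *
      exp ((-(Real.log x.1 - Real.log x.2) * t : ℝ) * I) ∂ν) = fun x : ℕ × ℕ => aa ψ A B κ L x * ch ν x := by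
    funext x
    unfold ch
    rw [integral_const_mul]
  rw [e2] at key
  exact key

/-- the coefficient of a pair vanishes beyond the support -/
lemma aa_zero (h : TF ξ1 ψ) (hκ : 0 < κ) {L : ℝ} (hL : 1 ≤ L) {m n : ℕ}
    (hmn : ξ1 * L < Real.log m + Real.log n) : aa ψ A B κ L (m, n) = 0 := by
  have hL0 : 0 < L := by linarith
  have hq : qq ψ κ L (m, n) = 0 := by
    have hi := P_inv h (σ := L * (1 + 4 * κ - 1 / 2)) (L := L)
      (mul_nonneg hL0.le (by linarith)) hL0 ((Real.log m + Real.log n) / L)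
    rw [h.sp _ (by rw [lt_div_iff₀ hL0]; exact hmn), zero_mul, mul_zero] at hi
    rw [← hi]
    unfold qq Pc
    congr 1; funext y
    congr 2
    simp only
    have hLc : (L : ℂ) ≠ 0 := by exact_mod_cast hL0.ne'
    push_cast
    field_simp
  unfold aa
  rw [hq, mul_zero]

/-- the hypothesis on the heights: the characters `(m/n)^(it)`, `m n ≤ T^ξ1`, have small integrals -/
def Small (ν : Measure ℝ) (δ Y : ℝ) : Prop :=
  ∀ m n : ℕ, 1 ≤ m → 1 ≤ n → m ≠ n → Real.log m + Real.log n ≤ Y →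
    ‖ch ν (m, n)‖ ≤ δ * (1 + 1 / |Real.log m - Real.log n|)

theorem series_meas (h : TF ξ1 ψ) (hκ : 0 < κ) (E1 : DD F1 A κ D1) (E2 : DD F2 B κ D2) :
    ∃ W : ℝ, 0 ≤ W ∧ ∀ L : ℝ, 1 ≤ L → ∀ ν : Measure ℝ, IsProbabilityMeasure ν → ∀ δ : ℝ, 0 ≤ δ → Small ν δ (ξ1 * L) →
      ‖(∫ t, K0 ψ F1 F2 (1 + 4 * κ) L t ∂ν) - ((2 * Real.pi / L : ℝ) : ℂ) *
        ∑' n : ℕ, A n * B n / n * ψ (2 * Real.log n / L)‖ ≤ W * δ * Dp ψ κ L := by
  have hsm : Summable (fun x : ℕ × ℕ => uu κ x.1 * uu κ x.2 + (uu κ x.2 * uu κ (x.1 - x.2) + uu κ x.1 * uu κ (x.2 - x.1))) :=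
    (uu_prod_summable hκ).add ((uu_sub_summable hκ).add (uu_sub_summable' hκ))
  have hD1 := E1.D_nonneg
  have hD2 := E2.D_nonneg
  have hnn : ∀ x : ℕ × ℕ, 0 ≤ uu κ x.1 * uu κ x.2 + (uu κ x.2 * uu κ (x.1 - x.2) + uu κ x.1 * uu κ (x.2 - x.1)) :=
    fun x => add_nonneg (mul_nonneg (uu_nonneg _ _) (uu_nonneg _ _)) (add_nonneg (mul_nonneg (uu_nonneg _ _) (uu_nonneg _ _))
      (mul_nonneg (uu_nonneg _ _) (uu_nonneg _ _)))
  refine ⟨D1 * D2 * ∑' x : ℕ × ℕ, (uu κ x.1 * uu κ x.2 + (uu κ x.2 * uu κ (x.1 - x.2) + uu κ x.1 * uu κ (x.2 - x.1))),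
    mul_nonneg (by positivity) (tsum_nonneg hnn), ?_⟩
  intro L hL ν hν δ hδ hsmall
  have hDp : 0 ≤ Dp ψ κ L := Dp_nonneg L
  have hmain := meas_hasSum (ν := ν) h hκ E1 E2 hL
  set g : ℕ × ℕ → ℂ := fun x => if x.1 = x.2 then aa ψ A B κ L x else 0 with hg
  have hdi : Function.Injective (fun n : ℕ => ((n, n) : ℕ × ℕ)) := fun m n hmn => by
    simp only [Prod.mk.injEq] at hmn; exact hmn.1
  have hsd : Summable (fun n : ℕ => aa ψ A B κ L (n, n)) :=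
    ((aa_summable hκ E1 E2 L).comp_injective hdi).of_norm
  have hgs : HasSum g (((2 * Real.pi / L : ℝ) : ℂ) *
        ∑' n : ℕ, A n * B n / n * ψ (2 * Real.log n / L)) := by
    refine (hdi.hasSum_iff ?_).1 ?_
    · rintro ⟨m, n⟩ hx
      have : m ≠ n := by
        rintro rfl
        exact hx ⟨m, rfl⟩
      simp only [hg, this, if_false]
    · have e1 : g ∘ (fun n : ℕ => ((n, n) : ℕ × ℕ)) = fun n => aa ψ A B κ L (n, n) := by
        funext n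
        simp only [Function.comp, hg, if_true]
      rw [e1]
      have e2 : (((2 * Real.pi / L : ℝ) : ℂ) * ∑' n : ℕ, A n * B n / n * ψ (2 * Real.log n / L)) =
          ∑' n : ℕ, aa ψ A B κ L (n, n) := by
        rw [← tsum_mul_left]
        exact tsum_congr fun n => (aa_diag h hκ E1 hL n).symm
      rw [e2]
      exact hsd.hasSum
  have hdiff := hmain.sub hgs
  have hbd : ∀ x : ℕ × ℕ, ‖aa ψ A B κ L x * ch ν x - g x‖ ≤ (Dp ψ κ L * (D1 * D2 * δ)) *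
      (uu κ x.1 * uu κ x.2 + (uu κ x.2 * uu κ (x.1 - x.2) + uu κ x.1 * uu κ (x.2 - x.1))) := by
    rintro ⟨m, n⟩
    have hr := hnn (m, n)
    simp only at hr
    have hR : 0 ≤ (Dp ψ κ L * (D1 * D2 * δ)) *
      (uu κ m * uu κ n + (uu κ n * uu κ (m - n) + uu κ m * uu κ (n - m))) := by positivity
    by_cases hmn : m = n
    · subst hmn
      have e3 : ch ν (m, m) = 1 := by
        unfold ch
        simp
      simp only [hg, if_true, e3, mul_one, sub_self, norm_zero]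
      exact hR
    · simp only [hg, hmn, if_false, sub_zero]
      rcases Nat.eq_zero_or_pos m with hm | hm
      · subst hm
        have : aa ψ A B κ L (0, n) = 0 := by unfold aa; simp [E1.A0]
        rw [this, zero_mul, norm_zero]; exact hR
      rcases Nat.eq_zero_or_pos n with hn | hn
      · subst hn
        have : aa ψ A B κ L (m, 0) = 0 := by unfold aa; simp [E2.A0]
        rw [this, zero_mul, norm_zero]; exact hR
      rcases lt_or_ge (ξ1 * L) (Real.log m + Real.log n) with hbig | hle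
      · rw [aa_zero h hκ hL hbig, zero_mul, norm_zero]; exact hR
      have hm0 : (0:ℝ) < m := by exact_mod_cast hm
      have hn0 : (0:ℝ) < n := by exact_mod_cast hn
      have hlog : Real.log m - Real.log n ≠ 0 := by
        intro h0
        have := Real.log_injOn_pos (mem_Ioi.2 hm0) (mem_Ioi.2 hn0) (by linarith)
        exact hmn (by exact_mod_cast this)
      have h1 := hsmall m n hm hn hmn hle
      have h2 := aa_le (ψ := ψ) (A := A) (B := B) (κ := κ) L (m, n)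
      have h3 := off_le hκ hm hn hmn
      have h4 := E1.ptw m
      have h5 := E2.ptw n
      have h6 : ((m : ℝ) ^ κ * (n : ℝ) ^ κ) * ((m : ℝ) ^ (-(1 + 4 * κ)) * (n : ℝ) ^ (-(1 + 4 * κ))) = uu κ m * uu κ n := by
        unfold uu
        have e1 : (m : ℝ) ^ (-(1 + 3 * κ)) = (m : ℝ) ^ κ * (m : ℝ) ^ (-(1 + 4 * κ)) := by
          rw [← Real.rpow_add hm0]; congr 1; ring
        have e2 : (n : ℝ) ^ (-(1 + 3 * κ)) = (n : ℝ) ^ κ * (n : ℝ) ^ (-(1 + 4 * κ)) := by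
          rw [← Real.rpow_add hn0]; congr 1; ring
        rw [e1, e2]; ring
      simp only at h2
      rw [norm_mul]
      set lg := |Real.log m - Real.log n| with hlg
      calc ‖aa ψ A B κ L (m, n)‖ * ‖ch ν (m, n)‖ ≤
          (Dp ψ κ L * ((‖A m‖ * (m : ℝ) ^ (-(1 + 4 * κ))) * (‖B n‖ * (n : ℝ) ^ (-(1 + 4 * κ))))) *
            (δ * (1 + 1 / lg)) := by gcongr
        _ ≤ (Dp ψ κ L * (((D1 * (m:ℝ) ^ κ) * (m : ℝ) ^ (-(1 + 4 * κ))) *
            ((D2 * (n:ℝ) ^ κ) * (n : ℝ) ^ (-(1 + 4 * κ))))) *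
            (δ * (1 + 1 / lg)) := by gcongr
        _ = (Dp ψ κ L * (D1 * D2 * δ)) * ((((m : ℝ) ^ κ * (n : ℝ) ^ κ) *
            ((m : ℝ) ^ (-(1 + 4 * κ)) * (n : ℝ) ^ (-(1 + 4 * κ)))) + (((m : ℝ) ^ κ * (n : ℝ) ^ κ) *
            ((m : ℝ) ^ (-(1 + 4 * κ)) * (n : ℝ) ^ (-(1 + 4 * κ))) *
            (2 / lg)) / 2) := by ring
        _ ≤ (Dp ψ κ L * (D1 * D2 * δ)) * (uu κ m * uu κ n + (2 * (uu κ n * uu κ (m - n) + uu κ m * uu κ (n - m))) / 2) := by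
            rw [h6] at h3 ⊢
            gcongr
        _ = _ := by ring
  have hfin := hdiff.norm_le_of_bounded (hsm.hasSum.mul_left (Dp ψ κ L * (D1 * D2 * δ))) hbd
  refine hfin.trans (le_of_eq ?_)
  ring

/-- the main analytic statement -/
theorem meas_core (h : TF ξ1 ψ) (hξ : 0 ≤ ξ1) (hκ : 0 < κ)
    (G1 : DF F1 (1 + 4 * κ) R M C1) (G2 : DF F2 (1 + 4 * κ) R M C2)
    (E1 : DD F1 A κ D1) (E2 : DD F2 B κ D2) (N : ℕ) :
    ∃ C T1 : ℝ, 0 ≤ C ∧ Real.exp 1 ≤ T1 ∧ ∀ T : ℝ, T1 ≤ T → ∀ ν : Measure ℝ, IsProbabilityMeasure ν →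
      (∀ᵐ t ∂ν, t ∈ Icc T (2 * T)) → ∀ δ : ℝ, 0 ≤ δ → Small ν δ (ξ1 * Real.log T) →
      ‖(∫ t, I0 ψ F1 F2 (Real.log T) t ∂ν) - ((2 * Real.pi / Real.log T : ℝ) : ℂ) *
          ∑' n : ℕ, A n * B n / n * ψ (2 * Real.log n / Real.log T)‖ ≤
        C * (δ * T ^ (ξ1 * (1 / 2 + 4 * κ)) + (T ^ N)⁻¹) := by
  have hc : (1:ℝ) / 2 ≤ 1 + 4 * κ := by linarith
  obtain ⟨K, hK⟩ := exists_nat_ge (ξ1 * (1 / 2 + 4 * κ))
  obtain ⟨Cs, hCs, hs⟩ := shift h hξ G1 G2 hc (2 * M + K + N)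
  obtain ⟨W, hW, hw⟩ := series_meas h hκ E1 E2
  obtain ⟨Cd, hCd, hd⟩ := Dp_le h hκ
  refine ⟨Cs * 3 ^ (2 * M) + W * Cd, max (Real.exp 1) (2 * R), by positivity, le_max_left _ _, fun T hT ν hν hsup δ hδ hsmall => ?_⟩
  have hTe : Real.exp 1 ≤ T := (le_max_left _ _).trans hT
  have hTR : 2 * R ≤ T := (le_max_right _ _).trans hT
  have hT1 : 1 ≤ T := by have := Real.add_one_le_exp 1; linarith
  have hT0 : 0 < T := by linarith
  have hL : 1 ≤ Real.log T := by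
    rw [Real.le_log_iff_exp_le hT0]; exact hTe
  obtain ⟨L, hLd⟩ : ∃ L, L = Real.log T := ⟨_, rfl⟩
  rw [← hLd] at hL hsmall ⊢
  have hE : Real.exp (ξ1 * (L * (1 + 4 * κ - 1 / 2))) = T ^ (ξ1 * (1 / 2 + 4 * κ)) := by
    rw [Real.rpow_def_of_pos hT0]
    congr 1; rw [hLd]; ring
  obtain ⟨E, hEd⟩ : ∃ E, E = T ^ (ξ1 * (1 / 2 + 4 * κ)) := ⟨_, rfl⟩
  rw [← hEd] at hE ⊢
  have hE0 : 0 ≤ E := by rw [hEd]; positivity
  have hEK : E ≤ T ^ K := by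
    rw [hEd, ← Real.rpow_natCast]
    exact Real.rpow_le_rpow_of_exponent_le hT1 hK
  have iI : Integrable (I0 ψ F1 F2 L) ν := (I0_prod h G1 G2 hL hT0.le hsup).integral_prod_left
  have iK : Integrable (K0 ψ F1 F2 (1 + 4 * κ) L) ν := (K0_prod h hc G1 G2 hL).integral_prod_left
  have p1 : ‖∫ t, (I0 ψ F1 F2 L t - K0 ψ F1 F2 (1 + 4 * κ) L t) ∂ν‖ ≤ Cs * 3 ^ (2 * M) * (T ^ N)⁻¹ := by
    have h1 := norm_integral_le_of_norm_le_const (μ := ν)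
      (f := fun t => I0 ψ F1 F2 L t - K0 ψ F1 F2 (1 + 4 * κ) L t)
      (C := Cs * (E * (3 * T) ^ (2 * M)) / T ^ (2 * M + K + N)) (by
        filter_upwards [hsup] with t ht
        have h0 : 0 ≤ t := by linarith [ht.1]
        refine (hs L T t hL hT1 hTR ht.1).trans ?_
        rw [hE]
        have := ht.2
        gcongr
        linarith)
    refine h1.trans ?_
    rw [probReal_univ, mul_one]
    calc Cs * (E * (3 * T) ^ (2 * M)) / T ^ (2 * M + K + N) ≤ Cs * (T ^ K * (3 * T) ^ (2 * M)) / T ^ (2 * M + K + N) := by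
          gcongr
      _ = Cs * 3 ^ (2 * M) * (T ^ N)⁻¹ := by
          rw [mul_pow, pow_add, pow_add]
          field_simp
  have p2 := hw L hL ν hν δ hδ hsmall
  have p3 := mul_le_mul_of_nonneg_left (hd L hL) (mul_nonneg hW hδ)
  rw [hE] at p3
  rw [integral_sub iI iK] at p1
  have hTN : 0 ≤ (T ^ N)⁻¹ := by positivity
  calc _ = ‖((∫ t, I0 ψ F1 F2 L t ∂ν) - ∫ t, K0 ψ F1 F2 (1 + 4 * κ) L t ∂ν) +
        ((∫ t, K0 ψ F1 F2 (1 + 4 * κ) L t ∂ν) - ((2 * Real.pi / L : ℝ) : ℂ) *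
          ∑' n : ℕ, A n * B n / n * ψ (2 * Real.log n / L))‖ := by
        congr 1; ring
    _ ≤ Cs * 3 ^ (2 * M) * (T ^ N)⁻¹ + W * δ * (Cd * E) := (norm_add_le _ _).trans (add_le_add p1 (p2.trans p3))
    _ ≤ (Cs * 3 ^ (2 * M) + W * Cd) * (δ * E + (T ^ N)⁻¹) := by
        have e1 : 0 ≤ Cs * 3 ^ (2 * M) * (δ * E) := by positivity
        have e2 : 0 ≤ W * Cd * (T ^ N)⁻¹ := by positivity
        nlinarith [e1, e2]

/-- shifted moments, the heights distributed by `ν` -/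
theorem meas {ξ1 : ℝ} {ψ : ℝ → ℂ} (h : TF ξ1 ψ) (hξ : 0 ≤ ξ1) {θ : ℝ} (hθ0 : ξ1 / 2 < θ) {k l : ℕ} (z : Fin k → ℝ)
    (w : Fin l → ℝ) (N : ℕ) :
    ∃ C T1 : ℝ, 0 ≤ C ∧ Real.exp 1 ≤ T1 ∧ ∀ T : ℝ, T1 ≤ T → ∀ ν : Measure ℝ, IsProbabilityMeasure ν →
      (∀ᵐ t ∂ν, t ∈ Icc T (2 * T)) → ∀ δ : ℝ, 0 ≤ δ → Small ν δ (ξ1 * Real.log T) →
      Integrable (fun y : ℝ => P ψ (Real.log T * y * I) * (∫ t,
        ZP z (1 / 2 + (y + t : ℝ) * I) * ZP w (1 / 2 + (y - t : ℝ) * I) ∂ν)) ∧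
      ‖(∫ y : ℝ, P ψ (Real.log T * y * I) * (∫ t,
        ZP z (1 / 2 + (y + t : ℝ) * I) * ZP w (1 / 2 + (y - t : ℝ) * I) ∂ν)) -
        ((2 * Real.pi / Real.log T : ℝ) : ℂ) *
          ∑' n : ℕ, tau (fun j => -(z j * I)) n * tau (fun j => -(w j * I)) n / n *
            ψ (2 * Real.log n / Real.log T)‖ ≤ C * (δ * T ^ θ + (T ^ N)⁻¹) := by
  obtain ⟨κ, hκd⟩ : ∃ κ : ℝ, κ = (θ - ξ1 / 2) / (4 * (ξ1 + 1)) := ⟨_, rfl⟩
  have hg0 : 0 < θ - ξ1 / 2 := by linarith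
  have hκ : 0 < κ := by rw [hκd]; positivity
  have hexp : ξ1 * (1 / 2 + 4 * κ) ≤ θ := by
    have e1 : ξ1 * (4 * κ) = (θ - ξ1 / 2) * (ξ1 / (ξ1 + 1)) := by
      rw [hκd]
      field_simp
    have h3 : ξ1 / (ξ1 + 1) ≤ 1 := by
      rw [div_le_one (by linarith)]; linarith
    nlinarith
  obtain ⟨D1, hD1, h1⟩ := tau_ptw k hκ
  obtain ⟨D2, hD2, h2⟩ := tau_ptw l hκ
  obtain ⟨C1, G1⟩ := ZP_DF z hκ hD1 (h1 z) (show 2 * k ≤ 2 * k + 2 * l by omega) (le_max_left (RR z) (RR w))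
  obtain ⟨C2, G2⟩ := ZP_DF w hκ hD2 (h2 w) (show 2 * l ≤ 2 * k + 2 * l by omega) (le_max_right (RR z) (RR w))
  obtain ⟨C, T1, hC, hT1, hc⟩ := meas_core h hξ hκ G1 G2 (ZP_DD z hκ (h1 z)) (ZP_DD w hκ (h2 w)) N
  refine ⟨C, T1, hC, hT1, fun T hT ν hν hsup δ hδ hsmall => ?_⟩
  have hTe : Real.exp 1 ≤ T := hT1.trans hT
  have hT1' : 1 ≤ T := by have := Real.add_one_le_exp 1; linarith
  have hT0 : 0 < T := by linarith
  have hL : 1 ≤ Real.log T := by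
    rw [Real.le_log_iff_exp_le hT0]; exact hTe
  obtain ⟨i1, i2⟩ := swap_meas (ν := ν) h G1 G2 hL hT0.le hsup
  refine ⟨i1, ?_⟩
  rw [i2]
  refine (hc T hT ν hν hsup δ hδ hsmall).trans ?_
  have := Real.rpow_le_rpow_of_exponent_le hT1' hexp
  gcongr

end

end Pool.Agent.R461.HM
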