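import Pool.Agent.R461.HM.Pow3

set_option autoImplicit false

/-! Moments of the mass of zeta squared on smooth unit windows, heights distributed by a measure. -/

namespace Pool.Agent.R461.HM

open Complex Filter Topology MeasureTheory Set
open scoped ContDiff ENNReal
open Pool.Agent.W182.KO

noncomputable section

/-- the mass of `|ζ|²` on a smooth unit window around `t` -/
def mass (N : ℕ) (t : ℝ) : ℝ≥0∞ :=
  ∫⁻ h : ℝ, ENNReal.ofReal (‖riemannZeta (1 / 2 + I * (t + h))‖ ^ 2 / (1 + |h|) ^ N)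

lemma mass_eq (N : ℕ) (t : ℝ) : mass N t = ∫⁻ h : ℝ, ENNReal.ofReal (zz 1 (t + h) / (1 + |h|) ^ N) := by
  unfold mass zz
  congr 1; funext h
  push_cast
  rfl

lemma loc_shift (N : ℕ) (T t s : ℝ) : loc 1 N T (t + s) =
    ∫⁻ h : ℝ, ENNReal.ofReal (zz 1 (t + h) * wt N (Real.log T) (h - s)) := by
  rw [loc_eq]
  have h := lintegral_sub_right_eq_self (μ := volume) (fun u : ℝ => ENNReal.ofReal (zz 1 (t + s + u) * wt N (Real.log T) u)) s
  rw [← h]
  congr 1; funext u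
  congr 3
  ring

lemma win_le {L : ℝ} (hL : 1 ≤ L) {s : ℝ} (hs : s ∈ Icc (0:ℝ) 1) (h : ℝ) : 1 + |h| ≤ 2 * (1 + L * |h - s|) := by
  have h1 : |h| ≤ |h - s| + |s| := by
    have := abs_add_le (h - s) s
    rwa [sub_add_cancel] at this
  have h2 : |s| ≤ 1 := by rw [abs_of_nonneg hs.1]; exact hs.2
  have h3 : |h - s| ≤ L * |h - s| := le_mul_of_one_le_left (abs_nonneg _) hL
  have h4 : 0 ≤ |h - s| := abs_nonneg _
  linarith

/-- the local mean squares are bounded by the mass -/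
lemma loc_le_mass (N : ℕ) {T : ℝ} (hL : 1 ≤ Real.log T) {s : ℝ} (hs : s ∈ Icc (0:ℝ) 1) (t : ℝ) :
    ENNReal.ofReal ((2 ^ N)⁻¹ * (Real.log T)⁻¹) * loc 1 (N + 2) T (t + s) ≤ mass N t := by
  rw [loc_shift, mass_eq, ← lintegral_const_mul' _ _ ENNReal.ofReal_ne_top]
  refine lintegral_mono fun h => ?_
  rw [← ENNReal.ofReal_mul (by positivity)]
  refine ENNReal.ofReal_le_ofReal ?_
  have hz := zz_nonneg 1 (t + h)
  have h1 := win_le hL hs h
  have hL0 : 0 < Real.log T := by linarith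
  unfold wt
  set a := 1 + Real.log T * |h - s| with ha
  have ha1 : 1 ≤ a := by
    have : 0 ≤ Real.log T * |h - s| := by positivity
    linarith
  have h2 : (1 + |h|) ^ N ≤ 2 ^ N * a ^ (N + 2) := by
    calc (1 + |h|) ^ N ≤ (2 * a) ^ N := by gcongr
      _ = 2 ^ N * a ^ N := mul_pow _ _ _
      _ ≤ 2 ^ N * a ^ (N + 2) := by
          gcongr
          exact Nat.le_add_right N 2
  have e1 : (2 ^ N)⁻¹ * (Real.log T)⁻¹ * (zz 1 (t + h) * (Real.log T / a ^ (N + 2))) = zz 1 (t + h) / (2 ^ N * a ^ (N + 2)) := by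
    field_simp
  rw [e1]
  gcongr

/-- the constant -/
def C0 : ℝ := ∫ y : ℝ, ((1 + |y|) ^ 2)⁻¹

lemma C0_nonneg : 0 ≤ C0 := integral_nonneg fun y => by positivity

/-- the integral over the window -/
lemma int_loc_le (N : ℕ) {T : ℝ} (hL : 1 ≤ Real.log T) (t : ℝ) :
    ∫⁻ s in Icc (0:ℝ) 1, loc 1 (N + 2) T (t + s) ≤ ENNReal.ofReal (2 ^ N * C0) * mass N t := by
  have hL0 : 0 < Real.log T := by linarith
  obtain ⟨L, hLd⟩ : ∃ L, L = Real.log T := ⟨_, rfl⟩
  have hle : ∀ s ∈ Icc (0:ℝ) 1, loc 1 (N + 2) T (t + s) ≤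
      ∫⁻ h : ℝ, ENNReal.ofReal (2 ^ N * (zz 1 (t + h) / (1 + |h|) ^ N)) * ENNReal.ofReal (wt 2 (Real.log T) (s - h)) := by
    intro s hs
    rw [loc_shift]
    refine lintegral_mono fun h => ?_
    have hz := zz_nonneg 1 (t + h)
    rw [← ENNReal.ofReal_mul (by positivity)]
    refine ENNReal.ofReal_le_ofReal ?_
    have h1 := win_le hL hs h
    rw [← hLd] at h1 hL0 ⊢
    unfold wt
    rw [abs_sub_comm s h]
    set a := 1 + L * |h - s| with ha
    have ha0 : 0 < a := by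
      have : 0 ≤ L * |h - s| := by positivity
      linarith
    have h2 : (1 + |h|) ^ N ≤ 2 ^ N * a ^ N := by
      calc (1 + |h|) ^ N ≤ (2 * a) ^ N := by gcongr
        _ = 2 ^ N * a ^ N := mul_pow _ _ _
    have h3 : 1 / a ^ N ≤ 2 ^ N / (1 + |h|) ^ N := by
      rw [div_le_div_iff₀ (by positivity) (by positivity)]
      linarith
    calc zz 1 (t + h) * (L / a ^ (N + 2)) = zz 1 (t + h) * (L / a ^ 2) * (1 / a ^ N) := by
          rw [pow_add]; field_simp
      _ ≤ zz 1 (t + h) * (L / a ^ 2) * (2 ^ N / (1 + |h|) ^ N) := by gcongr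
      _ = _ := by ring
  have hm1 : Measurable fun h : ℝ => ENNReal.ofReal (2 ^ N * (zz 1 (t + h) / (1 + |h|) ^ N)) := by
    have := zz_cont 1
    have hc : Continuous fun h : ℝ => 2 ^ N * (zz 1 (t + h) / (1 + |h|) ^ N) := by
      refine Continuous.mul continuous_const (Continuous.div (by fun_prop) (by fun_prop) fun h => ?_)
      positivity
    exact hc.measurable.ennreal_ofReal
  have hm2 : Measurable fun p : ℝ × ℝ => ENNReal.ofReal (2 ^ N * (zz 1 (t + p.2) / (1 + |p.2|) ^ N)) *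
      ENNReal.ofReal (wt 2 (Real.log T) (p.1 - p.2)) := by
    refine (hm1.comp measurable_snd).mul ?_
    have hc : Continuous fun p : ℝ × ℝ => wt 2 (Real.log T) (p.1 - p.2) := (wt_cont 2 hL0).comp (by fun_prop)
    exact hc.measurable.ennreal_ofReal
  have hw : ∀ h : ℝ, ∫⁻ s : ℝ, ENNReal.ofReal (wt 2 (Real.log T) (s - h)) = ENNReal.ofReal C0 := by
    intro h
    rw [lintegral_sub_right_eq_self (μ := volume) (fun u : ℝ => ENNReal.ofReal (wt 2 (Real.log T) u)) h,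
      ← ofReal_integral_eq_lintegral_ofReal]
    · congr 1
      have h4 := Measure.integral_comp_mul_left (fun y : ℝ => ((1 + |y|) ^ 2)⁻¹) (Real.log T)
      unfold C0
      have e1 : ∀ y : ℝ, wt 2 (Real.log T) y = Real.log T * ((1 + |Real.log T * y|) ^ 2)⁻¹ := by
        intro y
        unfold wt
        rw [abs_mul, abs_of_pos hL0]
        ring
      simp only [e1]
      rw [integral_const_mul, h4, abs_of_pos (by positivity), smul_eq_mul, ← mul_assoc, mul_inv_cancel₀ hL0.ne', one_mul]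
    · have e1 : (wt 2 (Real.log T)) = fun y => Real.log T * ((1 + |Real.log T * y|) ^ 2)⁻¹ := by
        funext y
        unfold wt
        rw [abs_mul, abs_of_pos hL0]
        ring
      rw [e1]
      exact (one_add_inv_sq_int.comp_mul_left' hL0.ne').const_mul _
    · exact Eventually.of_forall fun y => wt_nonneg 2 hL0 y
  calc ∫⁻ s in Icc (0:ℝ) 1, loc 1 (N + 2) T (t + s) ≤
        ∫⁻ s in Icc (0:ℝ) 1, ∫⁻ h : ℝ, ENNReal.ofReal (2 ^ N * (zz 1 (t + h) / (1 + |h|) ^ N)) *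
          ENNReal.ofReal (wt 2 (Real.log T) (s - h)) := setLIntegral_mono' measurableSet_Icc hle
    _ ≤ ∫⁻ s : ℝ, ∫⁻ h : ℝ, ENNReal.ofReal (2 ^ N * (zz 1 (t + h) / (1 + |h|) ^ N)) *
          ENNReal.ofReal (wt 2 (Real.log T) (s - h)) := setLIntegral_le_lintegral _ _
    _ = ∫⁻ h : ℝ, ∫⁻ s : ℝ, ENNReal.ofReal (2 ^ N * (zz 1 (t + h) / (1 + |h|) ^ N)) *
          ENNReal.ofReal (wt 2 (Real.log T) (s - h)) := lintegral_lintegral_swap hm2.aemeasurable
    _ = ∫⁻ h : ℝ, ENNReal.ofReal (2 ^ N * (zz 1 (t + h) / (1 + |h|) ^ N)) * ENNReal.ofReal C0 := by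
        congr 1; funext h
        rw [lintegral_const_mul' _ _ ENNReal.ofReal_ne_top, hw h]
    _ = ENNReal.ofReal (2 ^ N * C0) * mass N t := by
        rw [lintegral_mul_const' _ _ ENNReal.ofReal_ne_top, mass_eq, ENNReal.ofReal_mul (by positivity), mul_assoc,
          mul_comm (ENNReal.ofReal C0), ← mul_assoc, ← lintegral_const_mul' _ _ ENNReal.ofReal_ne_top]
        congr 2; funext h
        rw [← ENNReal.ofReal_mul (by positivity)]

/-- the pointwise inequality for the powers -/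
lemma mass_pow {q : ℕ} (hq : 1 ≤ q) (N : ℕ) {T : ℝ} (hL : 1 ≤ Real.log T) (t : ℝ) :
    ENNReal.ofReal ((2 ^ N)⁻¹ * (Real.log T)⁻¹) ^ (q - 1) * ∫⁻ s in Icc (0:ℝ) 1, loc 1 (N + 2) T (t + s) ^ q ≤
      ENNReal.ofReal (2 ^ N * C0) * mass N t ^ q := by
  obtain ⟨p, rfl⟩ : ∃ p, q = p + 1 := ⟨q - 1, by omega⟩
  rw [Nat.add_sub_cancel]
  set a := ENNReal.ofReal ((2 ^ N)⁻¹ * (Real.log T)⁻¹) with ha
  have ha' : a ^ p ≠ ⊤ := ENNReal.pow_ne_top ENNReal.ofReal_ne_top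
  rw [← lintegral_const_mul' _ _ ha']
  have h1 : ∀ s ∈ Icc (0:ℝ) 1, a ^ p * loc 1 (N + 2) T (t + s) ^ (p + 1) ≤ mass N t ^ p * loc 1 (N + 2) T (t + s) := by
    intro s hs
    have h2 := loc_le_mass N hL hs t
    rw [← ha] at h2
    calc a ^ p * loc 1 (N + 2) T (t + s) ^ (p + 1) = (a * loc 1 (N + 2) T (t + s)) ^ p * loc 1 (N + 2) T (t + s) := by
          rw [mul_pow, pow_succ]; ring
      _ ≤ _ := by gcongr
  have hm : Measurable fun s => loc 1 (N + 2) T (t + s) :=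
    (loc_meas 1 (N + 2) (by linarith)).comp (by fun_prop)
  calc ∫⁻ s in Icc (0:ℝ) 1, a ^ p * loc 1 (N + 2) T (t + s) ^ (p + 1) ≤
        ∫⁻ s in Icc (0:ℝ) 1, mass N t ^ p * loc 1 (N + 2) T (t + s) := setLIntegral_mono' measurableSet_Icc h1
    _ = mass N t ^ p * ∫⁻ s in Icc (0:ℝ) 1, loc 1 (N + 2) T (t + s) := lintegral_const_mul _ hm
    _ ≤ mass N t ^ p * (ENNReal.ofReal (2 ^ N * C0) * mass N t) := by
        gcongr
        exact int_loc_le N hL t
    _ = _ := by rw [pow_succ]; ring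

/-- the moments of the mass -/
theorem mass_main {q : ℕ} (hq : 1 ≤ q) (N : ℕ) {κ : ℝ} (hκ : 0 < κ) :
    ∃ c T₀ : ℝ, 0 < c ∧ Real.exp 1 ≤ T₀ ∧ ∀ T : ℝ, T₀ ≤ T → ∀ ν : Measure ℝ, IsProbabilityMeasure ν →
      (∀ᵐ t ∂ν, t ∈ Icc T (2 * T)) →
      (∀ m n : ℕ, 1 ≤ m → 1 ≤ n → m ≠ n → (m : ℝ) * n ≤ T ^ κ →
        ‖∫ t : ℝ, exp (I * (t * Real.log (m / n))) ∂ν‖ ≤ T ^ (-κ) * (1 + 1 / |Real.log (m / n)|)) →
      ENNReal.ofReal (c * Real.log T ^ (q ^ 2 - q + 1)) ≤ ∫⁻ t, mass N t ^ q ∂ν := by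
  obtain ⟨c, T₀, hc, hT₀, hmain⟩ := pow_main hq (N + 2) hκ
  have hC0 := C0_nonneg
  refine ⟨((2:ℝ) ^ N)⁻¹ ^ (q - 1) * c / (2 ^ N * C0 + 1), T₀, by positivity, hT₀, fun T hT ν hν hsup hsmall => ?_⟩
  have hTe := hT₀.trans hT
  have hT0 : 0 < T := (Real.exp_pos 1).trans_le hTe
  have hT2 : 2 ≤ T := by have := Real.add_one_le_exp 1; linarith
  have hL : 1 ≤ Real.log T := by rwa [Real.le_log_iff_exp_le hT0]
  have hL0 : 0 < Real.log T := by linarith
  have hm : Measurable fun x : ℝ => loc 1 (N + 2) T x ^ q := (loc_meas 1 (N + 2) hL0).pow_const q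
  have h1 : ∀ s ∈ Icc (0:ℝ) 1, ENNReal.ofReal (c * Real.log T ^ (q ^ 2)) ≤ ∫⁻ t, loc 1 (N + 2) T (t + s) ^ q ∂ν := by
    intro s hs
    have hms : Measurable fun t : ℝ => t + s := by fun_prop
    have h2 := hmain T hT (ν.map (fun t => t + s)) (Measure.isProbabilityMeasure_map hms.aemeasurable) (by
      refine (ae_map_iff (p := fun t => t ∈ Icc (T / 2) (4 * T)) hms.aemeasurable measurableSet_Icc).2 ?_
      filter_upwards [hsup] with t ht
      exact ⟨by linarith [ht.1, hs.1], by linarith [ht.2, hs.2]⟩) (by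
      intro m n hm hn hmn hY
      refine le_trans (le_of_eq ?_) (hsmall m n hm hn hmn hY)
      rw [integral_map hms.aemeasurable (by fun_prop)]
      have e1 : ∀ t : ℝ, exp (I * (((t + s : ℝ) : ℂ) * Real.log (m / n))) =
          exp ((s * Real.log (m / n) : ℝ) * I) * exp (I * (t * Real.log (m / n))) := by
        intro t
        rw [← Complex.exp_add]
        congr 1
        push_cast
        ring
      simp only [e1]
      rw [integral_const_mul, norm_mul, Complex.norm_exp_ofReal_mul_I, one_mul])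
    rwa [lintegral_map hm hms] at h2
  set a := ENNReal.ofReal (((2:ℝ) ^ N)⁻¹ * (Real.log T)⁻¹) with ha
  have ha' : a ^ (q - 1) ≠ ⊤ := ENNReal.pow_ne_top ENNReal.ofReal_ne_top
  have h3 : a ^ (q - 1) * ENNReal.ofReal (c * Real.log T ^ (q ^ 2)) ≤
      ENNReal.ofReal (2 ^ N * C0 + 1) * ∫⁻ t, mass N t ^ q ∂ν := by
    have hm2 : Measurable fun p : ℝ × ℝ => loc 1 (N + 2) T (p.1 + p.2) ^ q := hm.comp (by fun_prop)
    calc a ^ (q - 1) * ENNReal.ofReal (c * Real.log T ^ (q ^ 2)) =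
          a ^ (q - 1) * ∫⁻ _s in Icc (0:ℝ) 1, ENNReal.ofReal (c * Real.log T ^ (q ^ 2)) := by
          rw [setLIntegral_const, Real.volume_Icc, sub_zero, ENNReal.ofReal_one, mul_one]
      _ ≤ a ^ (q - 1) * ∫⁻ s in Icc (0:ℝ) 1, ∫⁻ t, loc 1 (N + 2) T (t + s) ^ q ∂ν := by
          exact mul_le_mul_right (setLIntegral_mono' measurableSet_Icc h1) _
      _ = a ^ (q - 1) * ∫⁻ t, (∫⁻ s in Icc (0:ℝ) 1, loc 1 (N + 2) T (t + s) ^ q) ∂ν := by
          congr 1
          exact (lintegral_lintegral_swap (f := fun (t s : ℝ) => loc 1 (N + 2) T (t + s) ^ q) hm2.aemeasurable).symm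
      _ = ∫⁻ t, (a ^ (q - 1) * ∫⁻ s in Icc (0:ℝ) 1, loc 1 (N + 2) T (t + s) ^ q) ∂ν :=
          (lintegral_const_mul' _ _ ha').symm
      _ ≤ ∫⁻ t, ENNReal.ofReal (2 ^ N * C0 + 1) * mass N t ^ q ∂ν := by
          refine lintegral_mono fun t => (mass_pow hq N hL t).trans ?_
          gcongr
          linarith
      _ = _ := lintegral_const_mul' _ _ ENNReal.ofReal_ne_top
  have h4 : ENNReal.ofReal (((2:ℝ) ^ N)⁻¹ ^ (q - 1) * c / (2 ^ N * C0 + 1) * Real.log T ^ (q ^ 2 - q + 1)) =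
      ENNReal.ofReal ((2 ^ N * C0 + 1)⁻¹) * (a ^ (q - 1) * ENNReal.ofReal (c * Real.log T ^ (q ^ 2))) := by
    rw [ha, ← ENNReal.ofReal_pow (by positivity), ← ENNReal.ofReal_mul (by positivity), ← ENNReal.ofReal_mul (by positivity)]
    congr 1
    have e2 : q ^ 2 = (q ^ 2 - q + 1) + (q - 1) := by
      have : q ≤ q ^ 2 := by nlinarith
      omega
    have e3 : Real.log T ^ (q ^ 2) = Real.log T ^ (q ^ 2 - q + 1) * Real.log T ^ (q - 1) := by
      rw [← pow_add, ← e2]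
    rw [e3, mul_pow, inv_pow (Real.log T)]
    field_simp
  rw [h4]
  refine (mul_le_mul_right h3 _).trans (le_of_eq ?_)
  rw [← mul_assoc, ← ENNReal.ofReal_mul (by positivity), inv_mul_cancel₀ (by positivity), ENNReal.ofReal_one, one_mul]

end

end Pool.Agent.R461.HM
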