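import Pool.Agent.R461.HM.Seq
import Pool.Agent.R461.HM.AP

set_option autoImplicit false

/-! Powers of the local mean squares of zeta: preparations. -/

namespace Pool.Agent.R461.HM

open Complex Filter Topology MeasureTheory Set
open scoped ContDiff ENNReal
open Pool.Agent.W182.KO

noncomputable section

/-- the coefficient of a pair -/
lemma aa_val {ξ1 κ : ℝ} {ψ : ℝ → ℂ} {A B : ℕ → ℂ} (h : TF ξ1 ψ) (hκ : 0 < κ) {L : ℝ} (hL : 1 ≤ L) {m n : ℕ} (hm : 1 ≤ m)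
    (hn : 1 ≤ n) :
    aa ψ A B κ L (m, n) = ((2 * Real.pi / L : ℝ) : ℂ) *
      (A m * B n * ((((m : ℝ) * n) ^ (-(1 / 2) : ℝ) : ℝ) : ℂ) * ψ ((Real.log m + Real.log n) / L)) := by
  have hm0 : (0:ℝ) < m := by exact_mod_cast hm
  have hn0 : (0:ℝ) < n := by exact_mod_cast hn
  have hL0 : 0 < L := by linarith
  have hq : qq ψ κ L (m, n) = ((2 * Real.pi / L : ℝ) : ℂ) * (ψ ((Real.log m + Real.log n) / L) *
      (((m * n : ℝ) ^ (1 / 2 + 4 * κ) : ℝ) : ℂ)) := by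
    have hi := P_inv h (σ := L * (1 + 4 * κ - 1 / 2)) (L := L)
      (mul_nonneg hL0.le (by linarith)) hL0 ((Real.log m + Real.log n) / L)
    unfold qq Pc
    have e1 : (((m * n : ℝ) ^ (1 / 2 + 4 * κ) : ℝ) : ℂ) =
        exp ((((Real.log m + Real.log n) / L : ℝ) : ℂ) * ((L * (1 + 4 * κ - 1 / 2) : ℝ) : ℂ)) := by
      rw [Real.rpow_def_of_pos (by positivity), Complex.ofReal_exp, Real.log_mul hm0.ne' hn0.ne']
      congr 1
      rw [← Complex.ofReal_mul]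
      congr 1
      field_simp
      ring
    rw [e1, ← hi]
    congr 1; funext y
    congr 2
    simp only
    have hLc : (L : ℂ) ≠ 0 := by exact_mod_cast hL0.ne'
    push_cast
    field_simp
  unfold aa
  rw [hq]
  simp only
  have e2 : (m : ℝ) ^ (-(1 + 4 * κ)) * (n : ℝ) ^ (-(1 + 4 * κ)) * ((m * n : ℝ) ^ (1 / 2 + 4 * κ)) =
      ((m:ℝ) * n) ^ (-(1 / 2) : ℝ) := by
    rw [← Real.mul_rpow hm0.le hn0.le, ← Real.rpow_add (by positivity)]
    congr 1; ring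
  have e3 := congrArg (fun r : ℝ => (r : ℂ)) e2
  push_cast at e3 ⊢
  linear_combination (A m * B n * (2 * Real.pi / L) * ψ ((Real.log m + Real.log n) / L)) * e3

/-- the finite set of pairs -/
def SS (K : ℕ) : Finset (ℕ × ℕ) := Finset.Icc 1 K ×ˢ Finset.Icc 1 K

/-- the finite expansion -/
lemma K0_fin {ξ1 κ D1 D2 : ℝ} {ψ : ℝ → ℂ} {F1 F2 : ℂ → ℂ} {A B : ℕ → ℂ} (h : TF ξ1 ψ) (hκ : 0 < κ) (E1 : DD F1 A κ D1)
    (E2 : DD F2 B κ D2) {L : ℝ} (hL : 1 ≤ L) (t : ℝ) :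
    K0 ψ F1 F2 (1 + 4 * κ) L t = ∑ x ∈ SS ⌊Real.exp (ξ1 * L)⌋₊, aa ψ A B κ L x *
      exp ((-(Real.log x.1 - Real.log x.2) * t : ℝ) * I) := by
  refine (K0_hasSum h hκ E1 E2 hL t).unique (hasSum_sum_of_ne_finset_zero ?_)
  rintro ⟨m, n⟩ hx
  have h0 : aa ψ A B κ L (m, n) = 0 := by
    rcases Nat.eq_zero_or_pos m with hm | hm
    · subst hm; unfold aa; simp [E1.A0]
    rcases Nat.eq_zero_or_pos n with hn | hn
    · subst hn; unfold aa; simp [E2.A0]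
    refine aa_zero h hκ hL ?_
    have hm0 : (0:ℝ) < m := by exact_mod_cast hm
    have hn0 : (0:ℝ) < n := by exact_mod_cast hn
    have hm1 : 0 ≤ Real.log m := Real.log_nonneg (by exact_mod_cast hm)
    have hn1 : 0 ≤ Real.log n := Real.log_nonneg (by exact_mod_cast hn)
    unfold SS at hx
    rw [Finset.mem_product, Finset.mem_Icc, Finset.mem_Icc, not_and_or] at hx
    rcases hx with hx | hx
    · have h1 : ⌊Real.exp (ξ1 * L)⌋₊ < m := by
        by_contra h2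
        exact hx ⟨hm, not_lt.1 h2⟩
      have h2 := (Nat.floor_lt (Real.exp_pos _).le).1 h1
      have h3 := (Real.lt_log_iff_exp_lt hm0).2 h2
      linarith
    · have h1 : ⌊Real.exp (ξ1 * L)⌋₊ < n := by
        by_contra h2
        exact hx ⟨hn, not_lt.1 h2⟩
      have h2 := (Nat.floor_lt (Real.exp_pos _).le).1 h1
      have h3 := (Real.lt_log_iff_exp_lt hn0).2 h2
      linarith
  rw [h0, zero_mul]

/-- the diagonal sum is large -/
lemma diag_lower {q : ℕ} (hq : 1 ≤ q) {θ : ℝ} (hθ : 0 < θ) :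
    ∃ c T₀ : ℝ, 0 < c ∧ Real.exp 1 ≤ T₀ ∧ ∀ T : ℝ, T₀ ≤ T →
      c * Real.log T ^ (q ^ 2) ≤ ∑ n ∈ Finset.Icc 1 ⌊T ^ θ⌋₊, (dk q n : ℝ) ^ 2 / n := by
  obtain ⟨ψ, hψ, hc, hs, hpos⟩ := exists_test hq hθ
  obtain ⟨B, hB⟩ := hc.exists_bound_of_continuous hψ.continuous
  set c0 := ‖2 * (Real.pi : ℂ) * ak q * ∫ u in Set.Ioi (0:ℝ), (u : ℂ) ^ (q ^ 2 - 1) / (q ^ 2 - 1).factorial * ψ (2 * u)‖
    with hc0
  have hdiag := diag_limit hq ψ hψ.continuous (2 * θ + 1) (by linarith) (fun u hu => hs u (by linarith))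
  rw [H306R2.aF_nat q hq] at hdiag
  have hd1 := (hdiag.comp Real.tendsto_log_atTop).const_mul (2 * Real.pi : ℂ)
  have hd2 := hd1.norm
  have hc0' : ‖2 * (Real.pi : ℂ) * ((((∏' p : Nat.Primes, ((1 - 1 / (p : ℝ)) ^ (q ^ 2) *
      ∑' m : ℕ, ((m + q - 1).choose m : ℝ) ^ 2 * (1 / (p : ℝ)) ^ m) : ℝ) : ℂ) *
        ∫ u in Set.Ioi (0:ℝ), (u : ℂ) ^ (q ^ 2 - 1) / (q ^ 2 - 1).factorial * ψ (2 * u)))‖ = c0 := by
    rw [hc0, ← mul_assoc]; rfl
  rw [hc0'] at hd2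
  obtain ⟨T₁, hT₁⟩ := eventually_atTop.mp (hd2.eventually (lt_mem_nhds (show c0 / 2 < c0 by linarith)))
  have hB0 : 0 ≤ B := (norm_nonneg _).trans (hB 0)
  have hpi := Real.pi_pos
  refine ⟨c0 / 2 / (2 * Real.pi * (B + 1)), max T₁ (Real.exp 1), by positivity, le_max_right _ _, fun T hT => ?_⟩
  have hTe := (le_max_right _ _).trans hT
  have hT0 : 0 < T := (Real.exp_pos 1).trans_le hTe
  have hL : 1 ≤ Real.log T := by rwa [Real.le_log_iff_exp_le hT0]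
  have hL0 : 0 < Real.log T := by linarith
  have h1 := hT₁ T ((le_max_left _ _).trans hT)
  simp only [Function.comp] at h1
  have h2 : (∑' n : ℕ, (dk q n : ℂ) * dk q n / n * ψ (2 * Real.log n / Real.log T)) =
      ∑ n ∈ Finset.Icc 1 ⌊T ^ θ⌋₊, (dk q n : ℂ) * dk q n / n * ψ (2 * Real.log n / Real.log T) := by
    refine tsum_eq_sum fun n hn => ?_
    rcases Nat.eq_zero_or_pos n with h0 | h0
    · subst h0; simp
    have hn0 : (0:ℝ) < n := by exact_mod_cast h0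
    have h3 : ⌊T ^ θ⌋₊ < n := by
      by_contra h4
      exact hn (Finset.mem_Icc.2 ⟨h0, not_lt.1 h4⟩)
    have h4 := (Nat.floor_lt (by positivity)).1 h3
    have h5 : θ * Real.log T < Real.log n := by
      rw [← Real.log_rpow hT0]
      exact Real.log_lt_log (by positivity) h4
    rw [hs _ (by rw [lt_div_iff₀ hL0]; linarith), mul_zero]
  rw [h2] at h1
  set S := ∑ n ∈ Finset.Icc 1 ⌊T ^ θ⌋₊, (dk q n : ℝ) ^ 2 / n with hS
  have hS0 : 0 ≤ S := Finset.sum_nonneg fun n _ => by positivity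
  have h3 : ‖∑ n ∈ Finset.Icc 1 ⌊T ^ θ⌋₊, (dk q n : ℂ) * dk q n / n * ψ (2 * Real.log n / Real.log T)‖ ≤ (B + 1) * S := by
    refine (norm_sum_le _ _).trans ?_
    rw [hS, Finset.mul_sum]
    refine Finset.sum_le_sum fun n _ => ?_
    rw [norm_mul, norm_div, norm_mul, Complex.norm_natCast, Complex.norm_natCast]
    have h5 : 0 ≤ (dk q n : ℝ) * dk q n / n := by positivity
    calc (dk q n : ℝ) * dk q n / n * ‖ψ (2 * Real.log n / Real.log T)‖ ≤ (dk q n : ℝ) * dk q n / n * (B + 1) := by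
          gcongr
          exact (hB _).trans (by linarith)
      _ = _ := by ring
  have h4 : c0 / 2 < 2 * Real.pi * ((B + 1) * S / Real.log T ^ (q ^ 2)) := by
    refine h1.trans_le ?_
    rw [norm_mul, norm_div, norm_pow, norm_mul, Complex.norm_real, Complex.norm_real, Real.norm_of_nonneg hL0.le,
      Real.norm_of_nonneg hpi.le]
    have : ‖(2:ℂ)‖ = 2 := by simp
    rw [this]
    gcongr
  have h5 : 0 < Real.log T ^ (q ^ 2) := by positivity
  rw [div_mul_eq_mul_div, div_le_iff₀ (by positivity)]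
  have h6 : 2 * Real.pi * ((B + 1) * S / Real.log T ^ (q ^ 2)) = 2 * Real.pi * (B + 1) * S / Real.log T ^ (q ^ 2) := by ring
  rw [h6, lt_div_iff₀ h5] at h4
  linarith

/-- the pointwise bound by the local mean square -/
lemma I0_le (N : ℕ) {ψ : ℝ → ℂ} {T Cφ : ℝ} (hT : Real.exp 1 ≤ T) (hC : 0 ≤ Cφ)
    (hφ : ∀ α : ℝ, ‖P ψ (α * I)‖ ≤ Cφ / (1 + |α|) ^ N) (t : ℝ) :
    ‖I0 ψ (ZP (fun _ : Fin 1 => (0:ℝ))) (ZP (fun _ : Fin 1 => (0:ℝ))) (Real.log T) t‖ₑ ≤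
      ENNReal.ofReal (Cφ * (Real.log T)⁻¹) * loc 1 N T t := by
  have hT0 : 0 < T := (Real.exp_pos 1).trans_le hT
  have hL : 1 ≤ Real.log T := by rwa [Real.le_log_iff_exp_le hT0]
  have h1 := upper 1 N hT hC hφ (Measure.dirac t)
  set L := Real.log T with hLd
  have hL0 : 0 < L := by linarith
  have hLc : (L : ℂ) ≠ 0 := by exact_mod_cast hL0.ne'
  have h5 : ∫ α : ℝ, P ψ (α * I) * Qn 1 (Measure.dirac t) α T =
      I0 ψ (ZP (fun _ : Fin 1 => (0:ℝ))) (ZP (fun _ : Fin 1 => (0:ℝ))) L t := by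
    have h4 := Measure.integral_comp_mul_left (fun α : ℝ => P ψ (α * I) * Qn 1 (Measure.dirac t) α T) L
    have h6 : ∫ α : ℝ, P ψ (α * I) * Qn 1 (Measure.dirac t) α T =
        ∫ y : ℝ, (L : ℂ) * (P ψ ((L * y : ℝ) * I) * Qn 1 (Measure.dirac t) (L * y) T) := by
      rw [integral_const_mul, h4, abs_of_pos (by positivity)]
      rw [Complex.real_smul, ← mul_assoc, ← Complex.ofReal_mul, mul_inv_cancel₀ hL0.ne',
        Complex.ofReal_one, one_mul]
    rw [h6]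
    unfold I0
    congr 1; funext y
    rw [Qn_scale 1 (by rw [← hLd]; exact hL0.ne') _ y, ← hLd, integral_dirac]
    push_cast
    field_simp
  rw [h5] at h1
  have hjoint : Continuous fun p : ℝ × ℝ => zz 1 (p.1 + p.2) * wt N L p.2 :=
    ((zz_cont 1).comp (by fun_prop : Continuous fun p : ℝ × ℝ => p.1 + p.2)).mul ((wt_cont N hL0).comp continuous_snd)
  have hm : Measurable fun t : ℝ => ∫⁻ u, ENNReal.ofReal (zz 1 (t + u) * wt N L u) :=
    hjoint.measurable.ennreal_ofReal.lintegral_prod_right'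
  rw [lintegral_dirac' _ hm] at h1
  rw [loc_eq]
  simpa using h1

end

end Pool.Agent.R461.HM
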