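import Pool.Agent.R461.HM.Pow

set_option autoImplicit false

/-! The expansion of the powers. -/

namespace Pool.Agent.R461.HM

open Complex Filter Topology MeasureTheory Set
open scoped ContDiff ENNReal
open Pool.Agent.W182.KO

noncomputable section

variable {q K : ℕ}

/-- the products of the entries of a tuple of pairs -/
def P1 (g : Fin q → ℕ × ℕ) : ℕ := ∏ i, (g i).1

def P2 (g : Fin q → ℕ × ℕ) : ℕ := ∏ i, (g i).2

/-- the finite Dirichlet polynomial -/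
def DP (α : ℕ × ℕ → ℝ) (K : ℕ) (t : ℝ) : ℂ :=
  ∑ x ∈ SS K, (α x : ℂ) * exp ((-(Real.log x.1 - Real.log x.2) * t : ℝ) * I)

lemma mem_tuple {g : Fin q → ℕ × ℕ} (hg : g ∈ Fintype.piFinset (fun _ : Fin q => SS K)) (i : Fin q) :
    1 ≤ (g i).1 ∧ (g i).1 ≤ K ∧ 1 ≤ (g i).2 ∧ (g i).2 ≤ K := by
  have h := (Fintype.mem_piFinset.1 hg) i
  unfold SS at h
  rw [Finset.mem_product, Finset.mem_Icc, Finset.mem_Icc] at h
  exact ⟨h.1.1, h.1.2, h.2.1, h.2.2⟩

lemma DP_pow (α : ℕ × ℕ → ℝ) (t : ℝ) : DP α K t ^ q = ∑ g ∈ Fintype.piFinset (fun _ : Fin q => SS K),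
    ((∏ i, α (g i) : ℝ) : ℂ) * exp ((-(Real.log (P1 g) - Real.log (P2 g)) * t : ℝ) * I) := by
  have h1 : DP α K t ^ q = ∏ _i : Fin q, DP α K t := by
    rw [Finset.prod_const, Finset.card_univ, Fintype.card_fin]
  rw [h1]
  unfold DP
  rw [Finset.prod_univ_sum]
  refine Finset.sum_congr rfl fun g hg => ?_
  rw [Finset.prod_mul_distrib, ← Complex.exp_sum]
  have h2 : Real.log (P1 g) = ∑ i, Real.log (g i).1 := by
    unfold P1
    rw [Nat.cast_prod, Real.log_prod]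
    intro i _
    have := (mem_tuple hg i).1
    exact_mod_cast (by omega : (g i).1 ≠ 0)
  have h3 : Real.log (P2 g) = ∑ i, Real.log (g i).2 := by
    unfold P2
    rw [Nat.cast_prod, Real.log_prod]
    intro i _
    have := (mem_tuple hg i).2.2.1
    exact_mod_cast (by omega : (g i).2 ≠ 0)
  have h4 : -(Real.log (P1 g) - Real.log (P2 g)) * t = ∑ i, (-(Real.log (g i).1 - Real.log (g i).2) * t) := by
    rw [h2, h3, ← Finset.sum_sub_distrib, ← Finset.sum_neg_distrib, Finset.sum_mul]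
  rw [h4, Complex.ofReal_sum, Finset.sum_mul, Complex.ofReal_prod]

lemma DP_pow_int (α : ℕ × ℕ → ℝ) (ν : Measure ℝ) [IsProbabilityMeasure ν] :
    ∫ t, DP α K t ^ q ∂ν = ∑ g ∈ Fintype.piFinset (fun _ : Fin q => SS K),
    ((∏ i, α (g i) : ℝ) : ℂ) * ch ν (P1 g, P2 g) := by
  simp only [DP_pow]
  rw [integral_finsetSum]
  · refine Finset.sum_congr rfl fun g _ => ?_
    rw [integral_const_mul]
    rfl
  · intro g _
    refine (integrable_const ‖((∏ i, α (g i) : ℝ) : ℂ)‖).mono' (Continuous.aestronglyMeasurable (by fun_prop))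
      (Eventually.of_forall fun t => ?_)
    rw [norm_mul, Complex.norm_exp_ofReal_mul_I, mul_one]

lemma DP_lower {α : ℕ × ℕ → ℝ} {A0 ε : ℝ} (hα0 : ∀ x, 0 ≤ α x) (hα1 : ∀ x ∈ SS K, α x ≤ A0) (hε : 0 ≤ ε)
    (ν : Measure ℝ) [IsProbabilityMeasure ν]
    (hsm : ∀ g ∈ Fintype.piFinset (fun _ : Fin q => SS K), P1 g ≠ P2 g → (∀ i, α (g i) ≠ 0) → ‖ch ν (P1 g, P2 g)‖ ≤ ε) :
    (∑ g ∈ (Fintype.piFinset (fun _ : Fin q => SS K)).filter (fun g => P1 g = P2 g), ∏ i, α (g i)) -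
      ((K:ℝ) ^ 2) ^ q * (A0 ^ q * ε) ≤ ‖∫ t, DP α K t ^ q ∂ν‖ := by
  rw [DP_pow_int, ← Finset.sum_filter_add_sum_filter_not (Fintype.piFinset (fun _ : Fin q => SS K))
    (fun g => P1 g = P2 g)]
  have h1 : ∑ g ∈ (Fintype.piFinset (fun _ : Fin q => SS K)).filter (fun g => P1 g = P2 g),
      ((∏ i, α (g i) : ℝ) : ℂ) * ch ν (P1 g, P2 g) =
      ((∑ g ∈ (Fintype.piFinset (fun _ : Fin q => SS K)).filter (fun g => P1 g = P2 g), ∏ i, α (g i) : ℝ) : ℂ) := by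
    rw [Complex.ofReal_sum]
    refine Finset.sum_congr rfl fun g hg => ?_
    have h2 := (Finset.mem_filter.1 hg).2
    have h3 : ch ν (P1 g, P2 g) = 1 := by
      unfold ch
      simp [h2]
    rw [h3, mul_one]
  have h4 : ‖∑ g ∈ (Fintype.piFinset (fun _ : Fin q => SS K)).filter (fun g => ¬ P1 g = P2 g),
      ((∏ i, α (g i) : ℝ) : ℂ) * ch ν (P1 g, P2 g)‖ ≤ ((K:ℝ) ^ 2) ^ q * (A0 ^ q * ε) := by
    have hcard : (((Fintype.piFinset (fun _ : Fin q => SS K)).filter (fun g => ¬ P1 g = P2 g)).card : ℝ) ≤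
        ((K:ℝ) ^ 2) ^ q := by
      have h5 : ((Fintype.piFinset (fun _ : Fin q => SS K)).filter (fun g => ¬ P1 g = P2 g)).card ≤ (K ^ 2) ^ q := by
        refine (Finset.card_filter_le _ _).trans ?_
        rw [Fintype.card_piFinset_const]
        unfold SS
        rw [Finset.card_product, Nat.card_Icc, Nat.add_sub_cancel, sq]
      exact_mod_cast h5
    rcases Nat.eq_zero_or_pos K with hK | hK
    · have hem : ∀ g ∈ (Fintype.piFinset (fun _ : Fin q => SS K)).filter (fun g => ¬ P1 g = P2 g),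
          ((∏ i, α (g i) : ℝ) : ℂ) * ch ν (P1 g, P2 g) = 0 := by
        intro g hg
        exfalso
        have h6 := Finset.mem_filter.1 hg
        have h7 : IsEmpty (Fin q) := ⟨fun i => by
          have := mem_tuple h6.1 i
          omega⟩
        apply h6.2
        unfold P1 P2
        simp
      rw [Finset.sum_eq_zero hem, norm_zero]
      rcases Nat.eq_zero_or_pos q with hq | hq
      · subst hq; simpa using hε
      · rw [hK]
        simp [zero_pow (by omega : q ≠ 0)]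
    have hA0 : 0 ≤ A0 := (hα0 (1, 1)).trans (hα1 (1, 1) (by
      unfold SS
      simp only [Finset.mem_product, Finset.mem_Icc]
      omega))
    refine (norm_sum_le _ _).trans ((Finset.sum_le_card_nsmul _ _ (A0 ^ q * ε) fun g hg => ?_).trans ?_)
    · obtain ⟨hg1, hg2⟩ := Finset.mem_filter.1 hg
      rw [norm_mul, Complex.norm_real, Real.norm_of_nonneg (Finset.prod_nonneg fun i _ => hα0 _)]
      by_cases h0 : ∀ i, α (g i) ≠ 0
      · have h6 : ∏ i, α (g i) ≤ A0 ^ q := by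
          refine (Finset.prod_le_prod (fun i _ => hα0 _) (fun i _ => hα1 (g i) ((Fintype.mem_piFinset.1 hg1) i))).trans ?_
          rw [Finset.prod_const, Finset.card_univ, Fintype.card_fin]
        exact mul_le_mul h6 (hsm g hg1 hg2 h0) (norm_nonneg _) (by positivity)
      · push Not at h0
        obtain ⟨i, hi⟩ := h0
        rw [Finset.prod_eq_zero (Finset.mem_univ i) hi, zero_mul]
        positivity
    · rw [nsmul_eq_mul]
      have : 0 ≤ A0 ^ q * ε := by positivity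
      gcongr
  rw [h1]
  have hnn : 0 ≤ ∑ g ∈ (Fintype.piFinset (fun _ : Fin q => SS K)).filter (fun g => P1 g = P2 g), ∏ i, α (g i) :=
    Finset.sum_nonneg fun g _ => Finset.prod_nonneg fun i _ => hα0 _
  set a := ∑ g ∈ (Fintype.piFinset (fun _ : Fin q => SS K)).filter (fun g => P1 g = P2 g), ∏ i, α (g i) with ha
  set b := ∑ g ∈ (Fintype.piFinset (fun _ : Fin q => SS K)).filter (fun g => ¬ P1 g = P2 g),
      ((∏ i, α (g i) : ℝ) : ℂ) * ch ν (P1 g, P2 g) with hb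
  have h8 : ‖(a:ℂ)‖ = a := by rw [Complex.norm_real, Real.norm_of_nonneg hnn]
  have h9 : ‖(a:ℂ)‖ ≤ ‖(a:ℂ) + b‖ + ‖b‖ := by
    have := norm_sub_le ((a:ℂ) + b) b
    rwa [add_sub_cancel_right] at this
  linarith

lemma tuples_lower {α : ℕ × ℕ → ℝ} {a0 : ℝ} {K' : ℕ} (hα0 : ∀ x, 0 ≤ α x) (hK : K' ≤ K)
    (hα : ∀ m n : ℕ, 1 ≤ m → 1 ≤ n → m ≤ K' → n ≤ K' → α (m, n) = a0 * ((m:ℝ) * n) ^ (-(1/2) : ℝ)) :
    a0 ^ q * ∑ n ∈ Finset.Icc 1 K', (dk q n : ℝ) ^ 2 / n ≤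
      ∑ g ∈ (Fintype.piFinset (fun _ : Fin q => SS K)).filter (fun g => P1 g = P2 g), ∏ i, α (g i) := by
  set P : Finset (Σ _ : ℕ, (Fin q → ℕ) × (Fin q → ℕ)) := (Finset.Icc 1 K').sigma
    (fun M => Nat.finMulAntidiag q M ×ˢ Nat.finMulAntidiag q M) with hP
  set e : (Σ _ : ℕ, (Fin q → ℕ) × (Fin q → ℕ)) → (Fin q → ℕ × ℕ) := fun y i => (y.2.1 i, y.2.2 i) with he
  have hmem : ∀ y ∈ P, (1 ≤ y.1 ∧ y.1 ≤ K') ∧ (∏ i, y.2.1 i = y.1 ∧ ∏ i, y.2.2 i = y.1) ∧
      ∀ i, 1 ≤ y.2.1 i ∧ y.2.1 i ≤ K' ∧ 1 ≤ y.2.2 i ∧ y.2.2 i ≤ K' := by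
    intro y hy
    rw [hP, Finset.mem_sigma, Finset.mem_Icc, Finset.mem_product] at hy
    have h1 := Nat.prod_eq_of_mem_finMulAntidiag hy.2.1
    have h2 := Nat.prod_eq_of_mem_finMulAntidiag hy.2.2
    refine ⟨hy.1, ⟨h1, h2⟩, fun i => ?_⟩
    have h3 := Nat.dvd_of_mem_finMulAntidiag hy.2.1 i
    have h4 := Nat.dvd_of_mem_finMulAntidiag hy.2.2 i
    have h5 : 0 < y.1 := by omega
    exact ⟨Nat.pos_of_dvd_of_pos h3 h5, (Nat.le_of_dvd h5 h3).trans hy.1.2, Nat.pos_of_dvd_of_pos h4 h5,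
      (Nat.le_of_dvd h5 h4).trans hy.1.2⟩
  have hinj : Set.InjOn e (P : Set (Σ _ : ℕ, (Fin q → ℕ) × (Fin q → ℕ))) := by
    intro y hy z hz hyz
    obtain ⟨-, ⟨h1, -⟩, -⟩ := hmem y hy
    obtain ⟨-, ⟨h2, -⟩, -⟩ := hmem z hz
    have h3 : y.2.1 = z.2.1 := by
      funext i
      have := congrFun hyz i
      simp only [he, Prod.mk.injEq] at this
      exact this.1
    have h4 : y.2.2 = z.2.2 := by
      funext i
      have := congrFun hyz i
      simp only [he, Prod.mk.injEq] at this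
      exact this.2
    obtain ⟨y1, y2, y3⟩ := y
    obtain ⟨z1, z2, z3⟩ := z
    simp only at h1 h2 h3 h4
    subst h3 h4
    rw [h1] at h2
    subst h2
    rfl
  have hval : ∀ y ∈ P, ∏ i, α (e y i) = a0 ^ q * (1 / (y.1 : ℝ)) := by
    intro y hy
    obtain ⟨⟨hy1, hy2⟩, ⟨h1, h2⟩, h3⟩ := hmem y hy
    have h4 : ∀ i, α (e y i) = a0 * (((y.2.1 i : ℕ) : ℝ) * (y.2.2 i : ℕ)) ^ (-(1/2) : ℝ) := fun i =>
      hα _ _ (h3 i).1 (h3 i).2.2.1 (h3 i).2.1 (h3 i).2.2.2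
    rw [Finset.prod_congr rfl fun i _ => h4 i, Finset.prod_mul_distrib, Finset.prod_const, Finset.card_univ,
      Fintype.card_fin, Real.finsetProd_rpow _ _ (fun i _ => by positivity), Finset.prod_mul_distrib,
      ← Nat.cast_prod, ← Nat.cast_prod, h1, h2]
    congr 1
    have hy0 : (0:ℝ) < y.1 := by exact_mod_cast hy1
    rw [← sq, ← Real.rpow_natCast, ← Real.rpow_mul hy0.le]
    norm_num
    rw [Real.rpow_neg_one]
  have hsum : a0 ^ q * ∑ n ∈ Finset.Icc 1 K', (dk q n : ℝ) ^ 2 / n = ∑ y ∈ P, ∏ i, α (e y i) := by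
    rw [Finset.sum_congr rfl hval, hP, Finset.sum_sigma, Finset.mul_sum]
    refine Finset.sum_congr rfl fun n _ => ?_
    simp only [Finset.sum_const, Finset.card_product, nsmul_eq_mul]
    unfold dk
    push_cast
    ring
  rw [hsum, ← Finset.sum_image (f := fun g => ∏ i, α (g i)) hinj]
  refine Finset.sum_le_sum_of_subset_of_nonneg ?_ fun g _ _ => Finset.prod_nonneg fun i _ => hα0 _
  intro g hg
  obtain ⟨y, hy, rfl⟩ := Finset.mem_image.1 hg
  obtain ⟨⟨hy1, hy2⟩, ⟨h1, h2⟩, h3⟩ := hmem y hy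
  rw [Finset.mem_filter, Fintype.mem_piFinset]
  refine ⟨fun i => ?_, ?_⟩
  · unfold SS
    simp only [Finset.mem_product, Finset.mem_Icc, he]
    have := h3 i
    omega
  · unfold P1 P2
    simp only [he]
    rw [h1, h2]

end

end Pool.Agent.R461.HM
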