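import Pool.Agent.R461.HM.Pow2

set_option autoImplicit false

/-! Lower bounds for the powers of the local mean squares of zeta. -/

namespace Pool.Agent.R461.HM

open Complex Filter Topology MeasureTheory Set
open scoped ContDiff ENNReal
open Pool.Agent.W182.KO

noncomputable section

lemma dk_one {n : ℕ} (hn : 1 ≤ n) : dk 1 n = 1 := by
  unfold dk
  rw [Finset.card_eq_one]
  refine ⟨fun _ => n, ?_⟩
  ext f
  rw [Nat.mem_finMulAntidiag, Finset.mem_singleton, Fin.prod_univ_one]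
  constructor
  · rintro ⟨h, -⟩
    funext i
    rw [Subsingleton.elim i 0, h]
  · rintro rfl
    exact ⟨rfl, by omega⟩

lemma two_pow_add (q : ℕ) (x y : ℝ≥0∞) : (x + y) ^ q ≤ 2 ^ q * (x ^ q + y ^ q) := by
  rcases le_total x y with h | h
  · calc (x + y) ^ q ≤ (2 * y) ^ q := by
          gcongr
          rw [two_mul]
          gcongr
      _ = 2 ^ q * y ^ q := mul_pow _ _ _
      _ ≤ _ := by
          gcongr
          exact le_add_self
  · calc (x + y) ^ q ≤ (2 * x) ^ q := by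
          gcongr
          rw [two_mul]
          gcongr
      _ = 2 ^ q * x ^ q := mul_pow _ _ _
      _ ≤ _ := by
          gcongr
          exact le_self_add

lemma ofReal_combo (q : ℕ) {a b x : ℝ} (ha : 0 ≤ a) (hb : 0 ≤ b) (hx : 0 ≤ x) :
    (2:ℝ≥0∞) ^ q * (ENNReal.ofReal a ^ q * ENNReal.ofReal x + ENNReal.ofReal b ^ q) =
      ENNReal.ofReal (2 ^ q * (a ^ q * x + b ^ q)) := by
  rw [← ENNReal.ofReal_pow ha, ← ENNReal.ofReal_pow hb, ← ENNReal.ofReal_mul (by positivity),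
    ← ENNReal.ofReal_add (by positivity) (by positivity)]
  have h : (2:ℝ≥0∞) ^ q = ENNReal.ofReal (2 ^ q) := by
    rw [ENNReal.ofReal_pow (by norm_num)]; norm_num
  rw [h, ← ENNReal.ofReal_mul (by positivity)]

/-- the smallness of the characters of the products -/
lemma ch_small {κ T : ℝ} (hκ : 0 < κ) (hT : 1 ≤ T) {ν : Measure ℝ}
    (hsm : ∀ m n : ℕ, 1 ≤ m → 1 ≤ n → m ≠ n → (m : ℝ) * n ≤ T ^ κ →
        ‖∫ t : ℝ, exp (I * (t * Real.log (m / n))) ∂ν‖ ≤ T ^ (-κ) * (1 + 1 / |Real.log (m / n)|))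
    {m n : ℕ} (hm : 1 ≤ m) (hn : 1 ≤ n) (hmn : m ≠ n) (hY : (m:ℝ) * n ≤ T ^ (κ / 4)) :
    ‖ch ν (m, n)‖ ≤ 2 * T ^ (-(3 * κ / 4)) := by
  have hm0 : (0:ℝ) < m := by exact_mod_cast hm
  have hn0 : (0:ℝ) < n := by exact_mod_cast hn
  have hT0 : 0 < T := by linarith
  have hm1 : (1:ℝ) ≤ m := by exact_mod_cast hm
  have hn1 : (1:ℝ) ≤ n := by exact_mod_cast hn
  have h1 : (n:ℝ) * m ≤ T ^ κ := by
    rw [mul_comm]
    exact hY.trans (Real.rpow_le_rpow_of_exponent_le hT (by linarith))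
  have h2 := hsm n m hn hm (Ne.symm hmn) h1
  have e1 : Real.log ((n:ℝ) / m) = -(Real.log m - Real.log n) := by
    rw [Real.log_div hn0.ne' hm0.ne']; ring
  have e2 : ‖ch ν (m, n)‖ = ‖∫ t : ℝ, exp (I * (t * Real.log (n / m))) ∂ν‖ := by
    unfold ch
    congr 2
    funext t
    congr 1
    rw [e1]
    push_cast
    ring
  rw [e2]
  refine h2.trans ?_
  have hgap : 1 / |Real.log ((n:ℝ) / m)| ≤ (m:ℝ) * n := by
    have key : 1 / (((m * n : ℕ) : ℕ) : ℝ) ≤ |Real.log ((n:ℝ) / m)| := by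
      rcases Nat.lt_or_gt_of_ne hmn with h3 | h3
      · have h4 := log_gap (m := n) (n := m) (X := m * n) hn h3 hm (Nat.le_mul_of_pos_left n hm)
        exact h4.trans (le_abs_self _)
      · have h4 := log_gap (m := m) (n := n) (X := m * n) hm h3 hn (Nat.le_mul_of_pos_right m hn)
        have e3 : Real.log ((n:ℝ) / m) = -Real.log ((m:ℝ) / n) := by
          rw [← Real.log_inv, inv_div]
        rw [e3, abs_neg]
        exact h4.trans (le_abs_self _)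
    push_cast at key
    have h5 : 0 < (m:ℝ) * n := by positivity
    have h6 : 0 < |Real.log ((n:ℝ) / m)| := lt_of_lt_of_le (by positivity) key
    rw [div_le_iff₀ h6]
    rw [div_le_iff₀ h5] at key
    linarith
  have h7 : (1:ℝ) ≤ T ^ (κ / 4) := Real.one_le_rpow hT (by linarith)
  calc T ^ (-κ) * (1 + 1 / |Real.log ((n:ℝ) / m)|) ≤ T ^ (-κ) * (T ^ (κ / 4) + T ^ (κ / 4)) := by
        gcongr
        exact hgap.trans hY
    _ = 2 * (T ^ (-κ) * T ^ (κ / 4)) := by ring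
    _ = _ := by
        rw [← Real.rpow_add hT0]
        congr 2; ring

/-- the powers of the local mean squares -/
theorem pow_main {q : ℕ} (hq : 1 ≤ q) (N : ℕ) {κ : ℝ} (hκ : 0 < κ) :
    ∃ c T₀ : ℝ, 0 < c ∧ Real.exp 1 ≤ T₀ ∧ ∀ T : ℝ, T₀ ≤ T → ∀ ν : Measure ℝ, IsProbabilityMeasure ν →
      (∀ᵐ t ∂ν, t ∈ Icc (T / 2) (4 * T)) →
      (∀ m n : ℕ, 1 ≤ m → 1 ≤ n → m ≠ n → (m : ℝ) * n ≤ T ^ κ →
        ‖∫ t : ℝ, exp (I * (t * Real.log (m / n))) ∂ν‖ ≤ T ^ (-κ) * (1 + 1 / |Real.log (m / n)|)) →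
      ENNReal.ofReal (c * Real.log T ^ (q ^ 2)) ≤ ∫⁻ t, (loc 1 N T t) ^ q ∂ν := by
  have hq0 : (0:ℝ) < q := by exact_mod_cast hq
  obtain ⟨ξ1, hξ1⟩ : ∃ ξ1 : ℝ, ξ1 = κ / (4 * q) := ⟨_, rfl⟩
  have hξ : 0 < ξ1 := by rw [hξ1]; positivity
  have hqξ : q * ξ1 = κ / 4 := by rw [hξ1]; field_simp
  set f : ContDiffBump (0:ℝ) := ⟨ξ1 / 2, ξ1, by positivity, by linarith⟩ with hf
  have hfs : ∀ ξ : ℝ, ξ1 ≤ ξ → f ξ = 0 := fun ξ h =>
    f.zero_of_le_dist (by rw [Real.dist_eq, sub_zero]; exact h.trans (le_abs_self _))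
  have hf1 : ∀ ξ : ℝ, |ξ| ≤ ξ1 / 2 → f ξ = 1 := fun ξ h =>
    f.one_of_mem_closedBall (by rw [Metric.mem_closedBall, Real.dist_eq, sub_zero]; exact h)
  obtain ⟨ψ, hψ⟩ : ∃ ψ : ℝ → ℂ, ψ = fun ξ => (f ξ : ℂ) := ⟨_, rfl⟩
  have hTF : TF ξ1 ψ := by
    rw [hψ]
    exact ⟨Complex.ofRealCLM.contDiff.comp f.contDiff,
      f.hasCompactSupport.comp_left (g := fun x : ℝ => (x : ℂ)) (by simp), fun ξ h => by
        show ((f ξ : ℝ) : ℂ) = 0
        rw [hfs ξ h.le]; simp⟩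
  obtain ⟨Cφ, hCφ, hP⟩ := P_bound hTF N
  have hφ : ∀ α : ℝ, ‖P ψ (α * I)‖ ≤ (Cφ + 1) / (1 + |α|) ^ N := by
    intro α
    have h1 := hP (α * I) (by simp)
    have e1 : ((α:ℂ) * I).re = 0 := by simp
    have e2 : ‖(α:ℂ) * I‖ = |α| := by simp
    rw [e1, e2, mul_zero, Real.exp_zero, mul_one] at h1
    rw [le_div_iff₀ (by positivity)]
    linarith
  obtain ⟨κ', hκ'⟩ : ∃ κ' : ℝ, 0 < κ' := ⟨1, one_pos⟩
  obtain ⟨D1, hD1, h1⟩ := tau_ptw 1 hκ'
  obtain ⟨C1, G1⟩ := ZP_DF (fun _ : Fin 1 => (0:ℝ)) hκ' hD1 (h1 _) (show 2 * 1 ≤ 2 by omega) (le_refl _)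
  have E1 := ZP_DD (fun _ : Fin 1 => (0:ℝ)) hκ' (h1 _)
  have hc : (1:ℝ) / 2 ≤ 1 + 4 * κ' := by linarith
  obtain ⟨Ke, hKe⟩ := exists_nat_ge (ξ1 * (1 / 2 + 4 * κ'))
  obtain ⟨Cs, hCs, hs⟩ := shift hTF hξ.le G1 G1 hc (2 * 2 + Ke + 1)
  obtain ⟨c1, T1, hc1, hT1, hdl⟩ := diag_lower hq (show 0 < ξ1 / 4 by positivity)
  set C2 : ℝ := Cs * (5 ^ (2 * 2) * 2 ^ (2 * 2 + Ke + 1)) with hC2
  have hC20 : 0 ≤ C2 := by positivity
  set c2 : ℝ := (2 * Real.pi) ^ q * c1 with hc2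
  have hpi := Real.pi_pos
  have hc20 : 0 < c2 := by positivity
  have hlim : Tendsto (fun T : ℝ => 2 * (2 * Real.pi) ^ q * T ^ (-(κ / 4))) atTop (𝓝 (2 * (2 * Real.pi) ^ q * 0)) :=
    (tendsto_rpow_neg_atTop (by positivity)).const_mul _
  rw [mul_zero] at hlim
  obtain ⟨T2, hT2⟩ := eventually_atTop.mp (hlim.eventually (gt_mem_nhds (show 0 < c2 / 4 by positivity)))
  refine ⟨c2 / (2 * (2 ^ q * (Cφ + 1) ^ q)), max (max T1 T2) (max (max 2 (4 * RR (fun _ : Fin 1 => (0:ℝ)))) (max (2 * C2) (8 * C2 / c2))),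
    by positivity, hT1.trans ((le_max_left _ _).trans (le_max_left _ _)), fun T hT ν hν hsup hsmall => ?_⟩
  have hTa : T1 ≤ T := ((le_max_left _ _).trans (le_max_left _ _)).trans hT
  have hTb : T2 ≤ T := ((le_max_right _ _).trans (le_max_left _ _)).trans hT
  have hTc : 2 ≤ T := ((le_max_left _ _).trans ((le_max_left _ _).trans (le_max_right _ _))).trans hT
  have hTd : 4 * RR (fun _ : Fin 1 => (0:ℝ)) ≤ T :=
    ((le_max_right _ _).trans ((le_max_left _ _).trans (le_max_right _ _))).trans hT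
  have hTf : 2 * C2 ≤ T := ((le_max_left _ _).trans ((le_max_right _ _).trans (le_max_right _ _))).trans hT
  have hTg : 8 * C2 / c2 ≤ T := ((le_max_right _ _).trans ((le_max_right _ _).trans (le_max_right _ _))).trans hT
  have hTe : Real.exp 1 ≤ T := hT1.trans hTa
  have hT0 : 0 < T := by linarith
  have hT1' : 1 ≤ T := by linarith
  have hL : 1 ≤ Real.log T := by rwa [Real.le_log_iff_exp_le hT0]
  have hdl' := hdl T hTa
  have hlim' := hT2 T hTb
  obtain ⟨L, hLd⟩ : ∃ L, L = Real.log T := ⟨_, rfl⟩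
  rw [← hLd] at hL hdl'
  have hL0 : 0 < L := by linarith
  have hexpL : Real.exp (ξ1 * L) = T ^ ξ1 := by
    rw [Real.rpow_def_of_pos hT0, hLd, mul_comm]
  -- the coefficients
  set α : ℕ × ℕ → ℝ := fun x => 2 * Real.pi / L * ((((x.1:ℝ) * x.2) ^ (-(1 / 2) : ℝ)) *
    f ((Real.log x.1 + Real.log x.2) / L)) with hα
  have hα0 : ∀ x, 0 ≤ α x := fun x => by
    simp only [hα]
    have := f.nonneg (x := (Real.log x.1 + Real.log x.2) / L)
    positivity
  set K : ℕ := ⌊Real.exp (ξ1 * L)⌋₊ with hK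
  have hα1 : ∀ x ∈ SS K, α x ≤ 2 * Real.pi := by
    rintro ⟨m, n⟩ hx
    unfold SS at hx
    rw [Finset.mem_product, Finset.mem_Icc, Finset.mem_Icc] at hx
    have hm1 : (1:ℝ) ≤ m := by exact_mod_cast hx.1.1
    have hn1 : (1:ℝ) ≤ n := by exact_mod_cast hx.2.1
    simp only [hα]
    have h2 : ((m:ℝ) * n) ^ (-(1 / 2) : ℝ) ≤ 1 :=
      Real.rpow_le_one_of_one_le_of_nonpos (by nlinarith) (by norm_num)
    have h3 := f.le_one (x := (Real.log m + Real.log n) / L)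
    have h4 := f.nonneg (x := (Real.log m + Real.log n) / L)
    have h5 : 2 * Real.pi / L ≤ 2 * Real.pi := div_le_self (by positivity) hL
    have h6 : 0 ≤ ((m:ℝ) * n) ^ (-(1 / 2) : ℝ) := by positivity
    calc _ ≤ 2 * Real.pi * (1 * 1) := by gcongr
      _ = _ := by ring
  have hKDP : ∀ t : ℝ, K0 ψ (ZP (fun _ : Fin 1 => (0:ℝ))) (ZP (fun _ : Fin 1 => (0:ℝ))) (1 + 4 * κ') L t = DP α K t := by
    intro t
    rw [K0_fin hTF hκ' E1 E1 hL t]
    unfold DP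
    refine Finset.sum_congr rfl ?_
    rintro ⟨m, n⟩ hx
    unfold SS at hx
    rw [Finset.mem_product, Finset.mem_Icc, Finset.mem_Icc] at hx
    rw [aa_val hTF hκ' hL hx.1.1 hx.2.1, tau_neg_zero, tau_neg_zero, dk_one hx.1.1, dk_one hx.2.1, hψ]
    simp only [hα]
    push_cast
    ring
  -- the lower bound for the power of the polynomial
  have hsm : ∀ g ∈ Fintype.piFinset (fun _ : Fin q => SS K), P1 g ≠ P2 g → (∀ i, α (g i) ≠ 0) →
      ‖ch ν (P1 g, P2 g)‖ ≤ 2 * T ^ (-(3 * κ / 4)) := by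
    intro g hg hne h0
    have hp1 : 1 ≤ P1 g := by
      unfold P1
      exact Nat.one_le_iff_ne_zero.2 (Finset.prod_ne_zero_iff.2 fun i _ => by have := (mem_tuple hg i).1; omega)
    have hp2 : 1 ≤ P2 g := by
      unfold P2
      exact Nat.one_le_iff_ne_zero.2 (Finset.prod_ne_zero_iff.2 fun i _ => by have := (mem_tuple hg i).2.2.1; omega)
    refine ch_small hκ hT1' hsmall hp1 hp2 hne ?_
    have h2 : Real.log (P1 g) = ∑ i, Real.log (g i).1 := by
      unfold P1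
      rw [Nat.cast_prod, Real.log_prod]
      intro i _
      have := (mem_tuple hg i).1
      exact_mod_cast (by omega : (g i).1 ≠ 0)
    have h3 : Real.log (P2 g) = ∑ i, Real.log (g i).2 := by
      unfold P2
      rw [Nat.cast_prod, Real.log_prod]
      intro i _
      have := (mem_tuple hg i).2.2.1
      exact_mod_cast (by omega : (g i).2 ≠ 0)
    have h4 : ∀ i : Fin q, Real.log (g i).1 + Real.log (g i).2 ≤ ξ1 * L := by
      intro i
      by_contra h5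
      push Not at h5
      apply h0 i
      simp only [hα]
      rw [hfs _ (by rw [le_div_iff₀ hL0]; exact h5.le), mul_zero, mul_zero]
    have h5 : Real.log (P1 g) + Real.log (P2 g) ≤ κ / 4 * L := by
      rw [h2, h3, ← Finset.sum_add_distrib]
      refine (Finset.sum_le_sum fun i _ => h4 i).trans ?_
      rw [Finset.sum_const, Finset.card_univ, Fintype.card_fin, nsmul_eq_mul, ← mul_assoc, hqξ]
    have hp1' : (0:ℝ) < P1 g := by exact_mod_cast hp1
    have hp2' : (0:ℝ) < P2 g := by exact_mod_cast hp2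
    rw [Real.rpow_def_of_pos hT0, ← Real.log_le_iff_le_exp (by positivity), Real.log_mul hp1'.ne' hp2'.ne', ← hLd]
    linarith
  have hA := DP_lower (q := q) (K := K) hα0 hα1 (by positivity) ν hsm
  have hKle : (K:ℝ) ≤ T ^ ξ1 := by
    rw [hK, ← hexpL]
    exact Nat.floor_le (Real.exp_pos _).le
  have hoff : ((K:ℝ) ^ 2) ^ q * ((2 * Real.pi) ^ q * (2 * T ^ (-(3 * κ / 4)))) ≤ c2 / 4 := by
    have h2 : ((K:ℝ) ^ 2) ^ q ≤ T ^ (κ / 2) := by
      calc ((K:ℝ) ^ 2) ^ q ≤ ((T ^ ξ1) ^ 2) ^ q := by gcongr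
        _ = T ^ (κ / 2) := by
            rw [← pow_mul, ← Real.rpow_natCast, ← Real.rpow_mul hT0.le]
            congr 1
            push_cast
            linarith
    calc _ ≤ T ^ (κ / 2) * ((2 * Real.pi) ^ q * (2 * T ^ (-(3 * κ / 4)))) := by gcongr
      _ = 2 * (2 * Real.pi) ^ q * (T ^ (κ / 2) * T ^ (-(3 * κ / 4))) := by ring
      _ = 2 * (2 * Real.pi) ^ q * T ^ (-(κ / 4)) := by
          rw [← Real.rpow_add hT0]; congr 2; ring
      _ ≤ c2 / 4 := hlim'.le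
  set K' : ℕ := ⌊T ^ (ξ1 / 4)⌋₊ with hK'
  have hK'le : (K':ℝ) ≤ T ^ (ξ1 / 4) := Nat.floor_le (by positivity)
  have hdiag := tuples_lower (q := q) (K := K) (K' := K') (α := α) (a0 := 2 * Real.pi / L) hα0 (by
      rw [hK, hexpL]
      exact Nat.floor_mono (Real.rpow_le_rpow_of_exponent_le hT1' (by linarith))) (by
      intro m n hm hn hm' hn'
      have hm0 : (0:ℝ) < m := by exact_mod_cast hm
      have hn0 : (0:ℝ) < n := by exact_mod_cast hn
      have hlm : 0 ≤ Real.log m := Real.log_nonneg (by exact_mod_cast hm)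
      have hln : 0 ≤ Real.log n := Real.log_nonneg (by exact_mod_cast hn)
      have h2 : Real.log m ≤ ξ1 / 4 * L := by
        rw [Real.log_le_iff_le_exp hm0, mul_comm, hLd, ← Real.rpow_def_of_pos hT0]
        exact le_trans (by exact_mod_cast hm') hK'le
      have h3 : Real.log n ≤ ξ1 / 4 * L := by
        rw [Real.log_le_iff_le_exp hn0, mul_comm, hLd, ← Real.rpow_def_of_pos hT0]
        exact le_trans (by exact_mod_cast hn') hK'le
      simp only [hα]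
      rw [hf1 _ (by
        rw [abs_of_nonneg (by positivity), div_le_iff₀ hL0]
        linarith), mul_one])
  have hmain : c2 * (L ^ (q ^ 2) / L ^ q) ≤
      ∑ g ∈ (Fintype.piFinset (fun _ : Fin q => SS K)).filter (fun g => P1 g = P2 g), ∏ i, α (g i) := by
    refine le_trans ?_ hdiag
    calc c2 * (L ^ (q ^ 2) / L ^ q) = (2 * Real.pi / L) ^ q * (c1 * L ^ (q ^ 2)) := by
          rw [hc2, div_pow]; ring
      _ ≤ _ := by gcongr
  have hLq : 1 ≤ L ^ (q ^ 2) / L ^ q := by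
    rw [one_le_div (by positivity)]
    exact pow_le_pow_right₀ hL (by nlinarith)
  -- the upper bound
  have hpt : ∀ t ∈ Icc (T / 2) (4 * T), ‖DP α K t‖ₑ ≤ ENNReal.ofReal ((Cφ + 1) * L⁻¹) * loc 1 N T t +
      ENNReal.ofReal (C2 / T) := by
    intro t ht
    have h2 := I0_le N hTe (by positivity : 0 ≤ Cφ + 1) hφ t
    rw [← hLd] at h2
    have ht0 : 0 ≤ t := by linarith [ht.1]
    have h3 := hs L (T / 2) t hL (by linarith) (by linarith) ht.1
    have hE : Real.exp (ξ1 * (L * (1 + 4 * κ' - 1 / 2))) ≤ T ^ Ke := by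
      have h4 : Real.exp (ξ1 * (L * (1 + 4 * κ' - 1 / 2))) = T ^ (ξ1 * (1 / 2 + 4 * κ')) := by
        rw [Real.rpow_def_of_pos hT0]
        congr 1; rw [hLd]; ring
      rw [h4, ← Real.rpow_natCast]
      exact Real.rpow_le_rpow_of_exponent_le hT1' hKe
    have h5 : ‖I0 ψ (ZP (fun _ : Fin 1 => (0:ℝ))) (ZP (fun _ : Fin 1 => (0:ℝ))) L t -
        K0 ψ (ZP (fun _ : Fin 1 => (0:ℝ))) (ZP (fun _ : Fin 1 => (0:ℝ))) (1 + 4 * κ') L t‖ ≤ C2 / T := by
      refine h3.trans ?_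
      calc Cs * (Real.exp (ξ1 * (L * (1 + 4 * κ' - 1 / 2))) * (1 + t) ^ (2 * 2)) / (T / 2) ^ (2 * 2 + Ke + 1) ≤
            Cs * (T ^ Ke * (5 * T) ^ (2 * 2)) / (T / 2) ^ (2 * 2 + Ke + 1) := by
            have := ht.2
            gcongr
            linarith
        _ = C2 / T := by
            rw [hC2, div_pow, mul_pow, pow_succ T (2 * 2 + Ke), pow_add T (2 * 2) Ke]
            field_simp
    rw [← hKDP t]
    set a := I0 ψ (ZP (fun _ : Fin 1 => (0:ℝ))) (ZP (fun _ : Fin 1 => (0:ℝ))) L t with ha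
    set b := K0 ψ (ZP (fun _ : Fin 1 => (0:ℝ))) (ZP (fun _ : Fin 1 => (0:ℝ))) (1 + 4 * κ') L t with hb
    have h6 : ‖b‖ₑ ≤ ‖a‖ₑ + ‖a - b‖ₑ := by
      have : b = a - (a - b) := by ring
      nth_rewrite 1 [this]
      exact enorm_sub_le
    refine h6.trans (add_le_add h2 ?_)
    rw [← ofReal_norm]
    exact ENNReal.ofReal_le_ofReal h5
  set X := ∫⁻ t, (loc 1 N T t) ^ q ∂ν with hX
  have hup : ENNReal.ofReal ‖∫ t, DP α K t ^ q ∂ν‖ ≤ 2 ^ q * (ENNReal.ofReal ((Cφ + 1) * L⁻¹) ^ q * X +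
      ENNReal.ofReal (C2 / T) ^ q) := by
    rw [ofReal_norm]
    refine (enorm_integral_le_lintegral_enorm _).trans ?_
    have h2 : ∫⁻ t, ‖DP α K t ^ q‖ₑ ∂ν ≤ ∫⁻ t, 2 ^ q * (ENNReal.ofReal ((Cφ + 1) * L⁻¹) ^ q * (loc 1 N T t) ^ q +
        ENNReal.ofReal (C2 / T) ^ q) ∂ν := by
      refine lintegral_mono_ae ?_
      filter_upwards [hsup] with t ht
      rw [enorm_pow]
      have h3 : ‖DP α K t‖ₑ ^ q ≤ (ENNReal.ofReal ((Cφ + 1) * L⁻¹) * loc 1 N T t + ENNReal.ofReal (C2 / T)) ^ q := by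
        have := hpt t ht
        gcongr
      refine h3.trans ((two_pow_add q _ _).trans ?_)
      rw [mul_pow]
    refine h2.trans (le_of_eq ?_)
    have hm : Measurable fun t => loc 1 N T t := loc_meas 1 N (by rw [← hLd]; exact hL0)
    rw [lintegral_const_mul' _ _ (by simp), lintegral_add_right _ measurable_const, lintegral_const,
      measure_univ, mul_one, lintegral_const_mul _ (hm.pow_const q)]
  rcases eq_or_ne X ⊤ with htop | htop
  · rw [htop]; exact le_top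
  obtain ⟨x, hx0, hx⟩ : ∃ x : ℝ, 0 ≤ x ∧ X = ENNReal.ofReal x :=
    ⟨X.toReal, ENNReal.toReal_nonneg, (ENNReal.ofReal_toReal htop).symm⟩
  rw [hx] at hup ⊢
  have hup2 : ‖∫ t, DP α K t ^ q ∂ν‖ ≤ 2 ^ q * (((Cφ + 1) * L⁻¹) ^ q * x + (C2 / T) ^ q) := by
    have e1 : (2:ℝ≥0∞) ^ q * (ENNReal.ofReal ((Cφ + 1) * L⁻¹) ^ q * ENNReal.ofReal x + ENNReal.ofReal (C2 / T) ^ q) =
        ENNReal.ofReal (2 ^ q * (((Cφ + 1) * L⁻¹) ^ q * x + (C2 / T) ^ q)) :=
      ofReal_combo q (by positivity) (by positivity) hx0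
    rw [e1] at hup
    exact (ENNReal.ofReal_le_ofReal_iff (by positivity)).1 hup
  refine ENNReal.ofReal_le_ofReal ?_
  have hs1 : 2 ^ q * (C2 / T) ^ q ≤ c2 / 4 := by
    rw [← mul_pow]
    have h2 : 2 * (C2 / T) ≤ 1 := by
      rw [← mul_div_assoc, div_le_one hT0]; exact hTf
    have h3 : (2 * (C2 / T)) ^ q ≤ (2 * (C2 / T)) ^ 1 := pow_le_pow_of_le_one (by positivity) h2 hq
    refine h3.trans ?_
    rw [pow_one, ← mul_div_assoc, div_le_iff₀ hT0]
    rw [div_le_iff₀ hc20] at hTg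
    linarith
  have h9 : c2 * (L ^ (q ^ 2) / L ^ q) / 2 ≤ 2 ^ q * (((Cφ + 1) * L⁻¹) ^ q * x) := by
    have h10 : c2 ≤ c2 * (L ^ (q ^ 2) / L ^ q) := by
      nlinarith
    have h11 : 2 ^ q * (((Cφ + 1) * L⁻¹) ^ q * x + (C2 / T) ^ q) =
        2 ^ q * (((Cφ + 1) * L⁻¹) ^ q * x) + 2 ^ q * (C2 / T) ^ q := by ring
    rw [h11] at hup2
    linarith
  rw [← hLd, div_mul_eq_mul_div, div_le_iff₀ (by positivity)]
  have h12 : 2 ^ q * (((Cφ + 1) * L⁻¹) ^ q * x) = 2 ^ q * (Cφ + 1) ^ q * x / L ^ q := by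
    rw [mul_pow, inv_pow]; field_simp
  rw [h12] at h9
  have h13 : c2 * (L ^ (q ^ 2) / L ^ q) / 2 = (c2 * L ^ (q ^ 2) / 2) / L ^ q := by ring
  rw [h13, div_le_div_iff_of_pos_right (by positivity)] at h9
  nlinarith

end

end Pool.Agent.R461.HM
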